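import Mathlib

set_option autoImplicit false

open Filter Topology Set Metric

namespace Pool.Agent.Helper48.Ent

/-- local roots of nonvanishing analytic functions -/
theorem exists_root {H : ℂ → ℂ} {z0 : ℂ} (hH : AnalyticAt ℂ H z0) (h0 : H z0 ≠ 0) {N : ℕ}
    (hN : 1 ≤ N) : ∃ r : ℂ → ℂ, AnalyticAt ℂ r z0 ∧ r z0 ≠ 0 ∧ ∀ᶠ z in 𝓝 z0, r z ^ N = H z := by
  obtain ⟨k, hk⟩ := IsAlgClosed.exists_pow_nat_eq (H z0) (show 0 < N by omega)
  have hk0 : k ≠ 0 := by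
    rintro rfl
    rw [zero_pow (by omega)] at hk
    exact h0 hk.symm
  refine ⟨fun z => k * Complex.exp (Complex.log (H z / H z0) / N), ?_, ?_, ?_⟩
  · apply AnalyticAt.mul analyticAt_const
    apply AnalyticAt.cexp
    apply AnalyticAt.div _ analyticAt_const (by exact_mod_cast (show N ≠ 0 by omega))
    apply AnalyticAt.clog (hH.fun_div analyticAt_const h0)
    rw [div_self h0]
    exact Complex.one_mem_slitPlane
  · exact mul_ne_zero hk0 (Complex.exp_ne_zero _)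
  · filter_upwards [hH.continuousAt.eventually_ne h0] with z hz
    rw [mul_pow, hk, ← Complex.exp_nat_mul, mul_div_cancel₀, Complex.exp_log (div_ne_zero hz h0),
      mul_div_cancel₀ _ h0]
    exact_mod_cast (show N ≠ 0 by omega)

theorem exists_chart {G : ℂ → ℂ} {z0 : ℂ} (hG : AnalyticAt ℂ G z0)
    (hnc : ¬ ∀ᶠ z in 𝓝 z0, G z = G z0) :
    ∃ (N : ℕ) (al sg : ℂ → ℂ), 1 ≤ N ∧ AnalyticAt ℂ al z0 ∧ al z0 = 0 ∧ AnalyticAt ℂ sg 0 ∧
      sg 0 = z0 ∧ (∀ᶠ z in 𝓝 z0, sg (al z) = z) ∧ (∀ᶠ z in 𝓝 z0, G z = G z0 + al z ^ N) ∧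
      (∀ᶠ x in 𝓝 0, G (sg x) = G z0 + x ^ N) := by
  have hF : AnalyticAt ℂ (fun z => G z - G z0) z0 := hG.sub analyticAt_const
  have htop : analyticOrderAt (fun z => G z - G z0) z0 ≠ ⊤ := by
    intro h
    rw [analyticOrderAt_eq_top] at h
    apply hnc
    filter_upwards [h] with z hz
    exact sub_eq_zero.mp hz
  obtain ⟨h, hh, hh0, hheq⟩ := hF.analyticOrderAt_ne_top.mp htop
  set N := analyticOrderNatAt (fun z => G z - G z0) z0 with hN
  have hN1 : 1 ≤ N := by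
    by_contra hcon
    have hN0 : N = 0 := by omega
    have := hheq.self_of_nhds
    rw [hN0] at this
    simp only [sub_self, pow_zero, one_smul] at this
    exact hh0 this.symm
  obtain ⟨r, hr, hr0, hreq⟩ := exists_root hh hh0 hN1
  set al : ℂ → ℂ := fun z => (z - z0) * r z with hal
  have hala : AnalyticAt ℂ al z0 := (analyticAt_id.sub analyticAt_const).mul hr
  have hal0 : al z0 = 0 := by simp [hal]
  have hderiv : HasDerivAt al (r z0) z0 := by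
    have h1 : HasDerivAt (fun z : ℂ => z - z0) 1 z0 := (hasDerivAt_id z0).sub_const z0
    have h2 := h1.fun_mul hr.differentiableAt.hasDerivAt
    have h3 : (1 : ℂ) * r z0 + (z0 - z0) * deriv r z0 = r z0 := by ring
    rw [h3] at h2
    exact h2
  have hal' : deriv al z0 ≠ 0 := by rw [hderiv.deriv]; exact hr0
  have hGal : ∀ᶠ z in 𝓝 z0, G z = G z0 + al z ^ N := by
    filter_upwards [hheq, hreq] with z h1 h2
    have h1' : G z - G z0 = (z - z0) ^ N * h z := h1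
    change G z = G z0 + ((z - z0) * r z) ^ N
    rw [mul_pow, h2, ← h1']
    ring
  set sg := hala.hasStrictDerivAt.localInverse _ _ _ hal' with hsg
  have hsga : AnalyticAt ℂ sg (al z0) := hala.analyticAt_localInverse hal'
  have hsg0 : sg (al z0) = z0 := HasStrictFDerivAt.localInverse_apply_image ..
  have hleft : ∀ᶠ z in 𝓝 z0, sg (al z) = z := HasStrictDerivAt.eventually_left_inverse ..
  have hright : ∀ᶠ x in 𝓝 (al z0), al (sg x) = x := HasStrictDerivAt.eventually_right_inverse ..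
  rw [hal0] at hsga hsg0 hright
  refine ⟨N, al, sg, hN1, hala, hal0, hsga, hsg0, hleft, hGal, ?_⟩
  have htend : Tendsto sg (𝓝 0) (𝓝 z0) := by
    have := hsga.continuousAt.tendsto
    rwa [hsg0] at this
  filter_upwards [htend.eventually hGal, hright] with x h1 h2
  rw [h1, h2]

theorem exists_discs {G1 G2 : ℂ → ℂ} {z0 w0 : ℂ} (h1 : AnalyticAt ℂ G1 z0)
    (h2 : AnalyticAt ℂ G2 w0) (hc : G1 z0 = G2 w0) (n1 : ¬ ∀ᶠ z in 𝓝 z0, G1 z = G1 z0)
    (n2 : ¬ ∀ᶠ z in 𝓝 w0, G2 z = G2 w0) {V1 V2 : Set ℂ} (hV1 : V1 ∈ 𝓝 z0) (hV2 : V2 ∈ 𝓝 w0) :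
    ∃ (N : ℕ) (de : ℝ), 1 ≤ N ∧ 0 < de ∧ ∀ᶠ p : ℂ × ℂ in 𝓝 (z0, w0), G1 p.1 = G2 p.2 →
      ∃ Z W : ℂ → ℂ, Z 0 = z0 ∧ W 0 = w0 ∧
        (∀ t ∈ ball (0 : ℂ) de, AnalyticAt ℂ Z t ∧ AnalyticAt ℂ W t ∧ Z t ∈ V1 ∧ W t ∈ V2 ∧
          G1 (Z t) = G1 z0 + t ^ N ∧ G2 (W t) = G1 z0 + t ^ N) ∧
        ∃ t ∈ ball (0 : ℂ) de, Z t = p.1 ∧ W t = p.2 := by
  obtain ⟨N1, al1, sg1, hN1, hal1, hal10, hsg1, hsg10, hl1, hG1, hGs1⟩ := exists_chart h1 n1
  obtain ⟨N2, al2, sg2, hN2, hal2, hal20, hsg2, hsg20, hl2, hG2, hGs2⟩ := exists_chart h2 n2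
  have e1 : ∀ᶠ x in 𝓝 (0 : ℂ), AnalyticAt ℂ sg1 x ∧ sg1 x ∈ V1 ∧ G1 (sg1 x) = G1 z0 + x ^ N1 := by
    have hV1' : ∀ᶠ x in 𝓝 (0 : ℂ), sg1 x ∈ V1 :=
      hsg1.continuousAt.eventually_mem (by rw [hsg10]; exact hV1)
    filter_upwards [hsg1.eventually_analyticAt, hV1', hGs1] with x a b c
    exact ⟨a, b, c⟩
  have e2 : ∀ᶠ x in 𝓝 (0 : ℂ), AnalyticAt ℂ sg2 x ∧ sg2 x ∈ V2 ∧ G2 (sg2 x) = G2 w0 + x ^ N2 := by
    have hV2' : ∀ᶠ x in 𝓝 (0 : ℂ), sg2 x ∈ V2 :=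
      hsg2.continuousAt.eventually_mem (by rw [hsg20]; exact hV2)
    filter_upwards [hsg2.eventually_analyticAt, hV2', hGs2] with x a b c
    exact ⟨a, b, c⟩
  obtain ⟨r1, hr1, hr1'⟩ := Metric.eventually_nhds_iff_ball.mp e1
  obtain ⟨r2, hr2, hr2'⟩ := Metric.eventually_nhds_iff_ball.mp e2
  set de := min 1 (min r1 r2) with hde
  have hde0 : 0 < de := lt_min one_pos (lt_min hr1 hr2)
  have hde1 : de ≤ 1 := min_le_left _ _
  have hder1 : de ≤ r1 := (min_le_right _ _).trans (min_le_left _ _)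
  have hder2 : de ≤ r2 := (min_le_right _ _).trans (min_le_right _ _)
  refine ⟨N1 * N2, de, Nat.mul_pos hN1 hN2, hde0, ?_⟩
  have hsmall : ∀ᶠ z in 𝓝 z0, ‖al1 z‖ < de ^ N2 := by
    have : Tendsto (fun z => ‖al1 z‖) (𝓝 z0) (𝓝 0) := by
      have := hal1.continuousAt.norm.tendsto
      rwa [hal10, norm_zero] at this
    exact this.eventually_lt_const (by positivity)
  have hz := (continuous_fst.tendsto (z0, w0)).eventually (hsmall.and (hG1.and hl1))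
  have hw := (continuous_snd.tendsto (z0, w0)).eventually (hG2.and hl2)
  filter_upwards [hz, hw] with p hp1 hp2 hpeq
  obtain ⟨hp1a, hp1b, hp1c⟩ := hp1
  obtain ⟨hp2b, hp2c⟩ := hp2
  have halpow : al1 p.1 ^ N1 = al2 p.2 ^ N2 := by
    rw [hp1b, hp2b, hc] at hpeq
    exact add_left_cancel hpeq
  obtain ⟨t1, ht1⟩ := IsAlgClosed.exists_pow_nat_eq (al1 p.1) (show 0 < N2 by omega)
  have ht1n : ‖t1‖ < de := by
    rw [← ht1, norm_pow] at hp1a
    exact lt_of_pow_lt_pow_left₀ N2 hde0.le hp1a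
  obtain ⟨om, hom, hom2⟩ : ∃ om : ℂ, om ^ N2 = 1 ∧ al2 p.2 = om * t1 ^ N1 := by
    by_cases h : t1 = 0
    · refine ⟨1, one_pow _, ?_⟩
      rw [h, zero_pow (by omega)] at ht1
      rw [← ht1, zero_pow (by omega)] at halpow
      have := pow_eq_zero_iff (by omega) |>.mp halpow.symm
      rw [this, h, zero_pow (by omega), mul_zero]
    · refine ⟨al2 p.2 / t1 ^ N1, ?_, ?_⟩
      · rw [div_pow, ← halpow, ← ht1, ← pow_mul, ← pow_mul, mul_comm N2 N1]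
        exact div_self (pow_ne_zero _ h)
      · rw [div_mul_cancel₀ _ (pow_ne_zero _ h)]
  have homn : ‖om‖ = 1 := by
    have : ‖om‖ ^ N2 = 1 := by rw [← norm_pow, hom, norm_one]
    exact (pow_eq_one_iff_of_nonneg (norm_nonneg _) (by omega)).mp this
  refine ⟨fun t => sg1 (t ^ N2), fun t => sg2 (om * t ^ N1), ?_, ?_, ?_, t1, ?_, ?_, ?_⟩
  · simp only
    rw [zero_pow (by omega), hsg10]
  · simp only
    rw [zero_pow (by omega), mul_zero, hsg20]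
  · intro t ht
    rw [mem_ball_zero_iff] at ht
    have htp : ∀ n : ℕ, 1 ≤ n → ‖t ^ n‖ < de := by
      intro n hn
      rw [norm_pow]
      calc ‖t‖ ^ n ≤ ‖t‖ ^ 1 := pow_le_pow_of_le_one (norm_nonneg _) (ht.le.trans hde1) hn
        _ = ‖t‖ := pow_one _
        _ < de := ht
    have b1 : t ^ N2 ∈ ball (0 : ℂ) r1 := by
      rw [mem_ball_zero_iff]
      exact (htp N2 hN2).trans_le hder1
    have b2 : om * t ^ N1 ∈ ball (0 : ℂ) r2 := by
      rw [mem_ball_zero_iff, norm_mul, homn, one_mul]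
      exact (htp N1 hN1).trans_le hder2
    obtain ⟨a1, a2, a3⟩ := hr1' _ b1
    obtain ⟨c1, c2, c3⟩ := hr2' _ b2
    refine ⟨?_, ?_, a2, c2, ?_, ?_⟩
    · exact AnalyticAt.fun_comp a1 (by fun_prop)
    · exact AnalyticAt.fun_comp c1 (by fun_prop)
    · simp only
      rw [a3, ← pow_mul, mul_comm N2 N1]
    · simp only
      rw [c3, mul_pow, hom, one_mul, ← pow_mul, hc]
  · rwa [mem_ball_zero_iff]
  · simp only
    rw [ht1, hp1c]
  · simp only
    rw [← hom2, hp2c]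

end Pool.Agent.Helper48.Ent
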