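import Mathlib
import Pool.Agent.Helper48.EntLocal

set_option autoImplicit false

open Filter Topology Set Metric

namespace Pool.Agent.Helper48.Ent

/-- the function `z f'(z) / f(z)` -/
noncomputable def lg (f : ℂ → ℂ) (z : ℂ) : ℂ := z * deriv f z / f z

theorem exists_factor {f : ℂ → ℂ} (hf : Differentiable ℂ f) (hne : ∃ z, f z ≠ 0) :
    ∃ u : ℂ → ℂ, Differentiable ℂ u ∧ u 0 ≠ 0 ∧
      ∀ z, f z = z ^ (analyticOrderNatAt f 0) * u z := by
  have hfa : AnalyticAt ℂ f 0 := hf.analyticAt 0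
  have htop : analyticOrderAt f 0 ≠ ⊤ := by
    intro h
    rw [analyticOrderAt_eq_top] at h
    obtain ⟨z, hz⟩ := hne
    have hfo : AnalyticOnNhd ℂ f univ := fun z _ => hf.analyticAt z
    have := hfo.eqOn_zero_of_preconnected_of_eventuallyEq_zero isPreconnected_univ (mem_univ 0) h
    exact hz (this (mem_univ z))
  obtain ⟨h, hh, hh0, hheq⟩ := hfa.analyticOrderAt_ne_top.mp htop
  set m := analyticOrderNatAt f 0 with hm
  have hheq' : ∀ᶠ z in 𝓝 (0 : ℂ), f z = z ^ m * h z := by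
    filter_upwards [hheq] with z hz
    rw [hz, sub_zero, smul_eq_mul]
  set u : ℂ → ℂ := fun z => if z = 0 then h 0 else f z / z ^ m with hu
  have hu0 : u 0 = h 0 := by simp [hu]
  have hue : u =ᶠ[𝓝 0] h := by
    filter_upwards [hheq'] with z hz
    by_cases h0 : z = 0
    · rw [h0, hu0]
    · simp only [hu, h0, if_false]
      rw [hz, mul_div_cancel_left₀ _ (pow_ne_zero _ h0)]
  refine ⟨u, ?_, by rw [hu0]; exact hh0, ?_⟩
  · intro z
    by_cases h0 : z = 0
    · rw [h0]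
      exact (hue.differentiableAt_iff).mpr hh.differentiableAt
    · have : u =ᶠ[𝓝 z] fun z => f z / z ^ m := by
        filter_upwards [isOpen_ne.mem_nhds h0] with w hw
        have hw' : w ≠ 0 := hw
        simp [hu, hw']
      rw [this.differentiableAt_iff]
      exact (hf z).fun_div (by fun_prop) (pow_ne_zero _ h0)
  · intro z
    by_cases h0 : z = 0
    · rw [h0, hu0]
      have := hheq'.self_of_nhds
      exact this
    · simp only [hu, h0, if_false]
      rw [mul_div_cancel₀ _ (pow_ne_zero _ h0)]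

/-- the final contradiction: a monomial relation forces `f` to be a monomial -/
theorem const_of_identity {f h u v : ℂ → ℂ} {m : ℕ} (hu : Differentiable ℂ u)
    (hv : Differentiable ℂ v) (hfu : ∀ z, f z = z ^ m * u z) (hhv : ∀ z, h z = z ^ m * v z)
    (hv0 : v 0 ≠ 0) {p q : ℕ} (hp : 1 ≤ p) (hq : 1 ≤ q) {c C : ℂ} (hc : c ≠ 0)
    (hid : ∀ t : ℂ, t ≠ 0 → f (t ^ q) ^ p * h (c / t ^ p) ^ q = C) :
    ∃ k, ∀ z, u z = k := by
  have hid2 : ∀ t : ℂ, t ≠ 0 → c ^ (m * q) * (u (t ^ q) ^ p * v (c / t ^ p) ^ q) = C := by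
    intro t ht
    rw [← hid t ht, hfu, hhv, mul_pow, mul_pow]
    have : ((t ^ q) ^ m) ^ p * ((c / t ^ p) ^ m) ^ q = c ^ (m * q) := by
      rw [← pow_mul, ← pow_mul, ← pow_mul, div_pow, ← pow_mul]
      rw [show q * (m * p) = p * (m * q) by ring]
      rw [mul_div_cancel₀ _ (pow_ne_zero _ ht)]
    rw [← this]
    ring
  have hv0' : 0 < ‖v 0‖ := norm_pos_iff.mpr hv0
  obtain ⟨de, hde, hde'⟩ := Metric.continuousAt_iff.mp (hv 0).continuousAt (‖v 0‖ / 2)
    (by positivity)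
  have hvlow : ∀ w : ℂ, ‖w‖ < de → ‖v 0‖ / 2 ≤ ‖v w‖ := by
    intro w hw
    have h1 := hde' (x := w) (by rw [dist_zero_right]; exact hw)
    rw [dist_eq_norm] at h1
    have h2 : ‖v 0‖ ≤ ‖v w‖ + ‖v w - v 0‖ := by
      calc ‖v 0‖ = ‖v w - (v w - v 0)‖ := by congr 1; ring
        _ ≤ _ := norm_sub_le _ _
    linarith
  set R : ℝ := max 1 (‖c‖ / de + 1) with hR
  have hR1 : 1 ≤ R := le_max_left _ _
  have hRc : ‖c‖ / de < R := lt_of_lt_of_le (by linarith) (le_max_right _ _)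
  set B : ℝ := ‖C‖ / (‖c‖ ^ (m * q) * (‖v 0‖ / 2) ^ q) with hB
  have hcn : 0 < ‖c‖ := norm_pos_iff.mpr hc
  have hlarge : ∀ z : ℂ, R ^ q ≤ ‖z‖ → ‖u z‖ ≤ max 1 B := by
    intro z hz
    obtain ⟨t, ht⟩ := IsAlgClosed.exists_pow_nat_eq z (show 0 < q by omega)
    have htR : R ≤ ‖t‖ := by
      rw [← ht, norm_pow] at hz
      exact le_of_pow_le_pow_left₀ (by omega) (norm_nonneg _) hz
    have ht0 : t ≠ 0 := by
      rintro rfl
      rw [norm_zero] at htR
      linarith
    have h1 := hid2 t ht0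
    have htp : R ≤ ‖t‖ ^ p := by
      calc R ≤ ‖t‖ := htR
        _ = ‖t‖ ^ 1 := (pow_one _).symm
        _ ≤ ‖t‖ ^ p := pow_le_pow_right₀ (hR1.trans htR) hp
    have hsm : ‖c / t ^ p‖ < de := by
      rw [norm_div, norm_pow, div_lt_iff₀ (by linarith)]
      rw [div_lt_iff₀ hde] at hRc
      calc ‖c‖ < R * de := hRc
        _ ≤ ‖t‖ ^ p * de := by gcongr
        _ = de * ‖t‖ ^ p := mul_comm _ _
    have hvl := hvlow _ hsm
    have h2 : ‖c‖ ^ (m * q) * (‖u z‖ ^ p * ‖v (c / t ^ p)‖ ^ q) = ‖C‖ := by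
      rw [← h1, ht]
      simp [norm_pow]
    have h3 : ‖u z‖ ^ p ≤ B := by
      rw [hB, le_div_iff₀ (by positivity)]
      calc ‖u z‖ ^ p * (‖c‖ ^ (m * q) * (‖v 0‖ / 2) ^ q)
          ≤ ‖u z‖ ^ p * (‖c‖ ^ (m * q) * ‖v (c / t ^ p)‖ ^ q) := by gcongr
        _ = ‖C‖ := by rw [← h2]; ring
    by_contra hcon
    push Not at hcon
    have h4 : 1 < ‖u z‖ := (le_max_left _ _).trans_lt hcon
    have h5 : ‖u z‖ ≤ ‖u z‖ ^ p := by
      calc ‖u z‖ = ‖u z‖ ^ 1 := (pow_one _).symm
        _ ≤ ‖u z‖ ^ p := pow_le_pow_right₀ h4.le hp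
    have h6 : B < ‖u z‖ := (le_max_right _ _).trans_lt hcon
    linarith
  obtain ⟨M, hM⟩ := (isCompact_closedBall (0 : ℂ) (R ^ q)).exists_bound_of_continuousOn
    hu.continuous.continuousOn
  have hbdd : Bornology.IsBounded (range u) := by
    rw [isBounded_iff_forall_norm_le]
    refine ⟨max (max 1 B) M, ?_⟩
    rintro _ ⟨z, rfl⟩
    by_cases hz : R ^ q ≤ ‖z‖
    · exact (hlarge z hz).trans (le_max_left _ _)
    · push Not at hz
      exact (hM z (by rw [mem_closedBall_zero_iff]; exact hz.le)).trans (le_max_right _ _)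
  exact ⟨u 0, fun z => hu.apply_eq_apply_of_bounded hbdd z 0⟩

theorem lg_analyticAt {f : ℂ → ℂ} (hf : Differentiable ℂ f) {z0 : ℂ} (h0 : f z0 ≠ 0) :
    AnalyticAt ℂ (lg f) z0 := by
  have h1 : AnalyticAt ℂ f z0 := hf.analyticAt z0
  unfold lg
  exact (analyticAt_id.fun_mul h1.deriv).fun_div h1 h0

/-- near a zero, `1 / lg f` is analytic and vanishes -/
theorem inv_lg_analyticAt {f : ℂ → ℂ} (hf : Differentiable ℂ f) (hne : ∃ z, f z ≠ 0) {z0 : ℂ}
    (hz0 : z0 ≠ 0) (h0 : f z0 = 0) :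
    AnalyticAt ℂ (fun z => (lg f z)⁻¹) z0 ∧ (lg f z0)⁻¹ = 0 ∧
      ∀ᶠ z in 𝓝[≠] z0, (lg f z)⁻¹ ≠ 0 := by
  have hfa : AnalyticAt ℂ f z0 := hf.analyticAt z0
  have htop : analyticOrderAt f z0 ≠ ⊤ := by
    intro h
    rw [analyticOrderAt_eq_top] at h
    obtain ⟨z, hz⟩ := hne
    have hfo : AnalyticOnNhd ℂ f univ := fun z _ => hf.analyticAt z
    have := hfo.eqOn_zero_of_preconnected_of_eventuallyEq_zero isPreconnected_univ (mem_univ z0) h
    exact hz (this (mem_univ z))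
  obtain ⟨h, hh, hh0, hheq⟩ := hfa.analyticOrderAt_ne_top.mp htop
  set m := analyticOrderNatAt f z0 with hm
  have hm1 : 1 ≤ m := by
    by_contra hcon
    have hN0 : m = 0 := by omega
    have := hheq.self_of_nhds
    rw [hN0] at this
    simp only [sub_self, pow_zero, one_smul] at this
    exact hh0 (this.symm.trans h0)
  have hheq' : f =ᶠ[𝓝 z0] fun z => (z - z0) ^ m * h z := hheq
  have hd : ∀ᶠ z in 𝓝 z0, deriv f z =
      m * (z - z0) ^ (m - 1) * h z + (z - z0) ^ m * deriv h z := by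
    filter_upwards [hheq'.deriv, hh.eventually_analyticAt] with z hz hhz
    rw [hz]
    have e1 : HasDerivAt (fun z : ℂ => (z - z0) ^ m) (m * (z - z0) ^ (m - 1) * 1) z :=
      ((hasDerivAt_id z).sub_const z0).pow m
    have e2 := e1.fun_mul hhz.differentiableAt.hasDerivAt
    rw [e2.deriv]
    ring
  set D : ℂ → ℂ := fun z => z * (m * h z + (z - z0) * deriv h z) with hD
  have hDa : AnalyticAt ℂ D z0 := by
    refine analyticAt_id.fun_mul (AnalyticAt.fun_add (analyticAt_const.fun_mul hh)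
      ((analyticAt_id.sub analyticAt_const).fun_mul hh.deriv))
  have hD0 : D z0 ≠ 0 := by
    simp only [hD, sub_self, zero_mul, add_zero]
    refine mul_ne_zero hz0 (mul_ne_zero ?_ hh0)
    exact_mod_cast (show m ≠ 0 by omega)
  have key : (fun z => (lg f z)⁻¹) =ᶠ[𝓝 z0] fun z => (z - z0) * h z / D z := by
    filter_upwards [hheq', hd, hDa.continuousAt.eventually_ne hD0] with z h1 h2 h3
    by_cases hz : z = z0
    · rw [hz]
      simp [lg, h0]
    · have hzz : z - z0 ≠ 0 := sub_ne_zero.mpr hz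
      have h2' : z * deriv f z = (z - z0) ^ (m - 1) * D z := by
        rw [h2]
        simp only [hD]
        obtain ⟨k, hk⟩ := Nat.exists_eq_add_of_le' hm1
        rw [hk]
        simp only [Nat.add_sub_cancel]
        rw [pow_succ]
        ring
      have h1' : f z = (z - z0) ^ (m - 1) * ((z - z0) * h z) := by
        rw [h1]
        obtain ⟨k, hk⟩ := Nat.exists_eq_add_of_le' hm1
        rw [hk]
        simp only [Nat.add_sub_cancel]
        rw [pow_succ]
        ring
      unfold lg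
      rw [h2', h1', inv_div, mul_div_mul_left _ _ (pow_ne_zero _ hzz)]
  refine ⟨?_, ?_, ?_⟩
  · refine AnalyticAt.congr ?_ key.symm
    exact ((analyticAt_id.sub analyticAt_const).fun_mul hh).fun_div hDa hD0
  · simp [lg, h0]
  · have k1 : ∀ᶠ z in 𝓝[≠] z0, (lg f z)⁻¹ = (z - z0) * h z / D z := key.filter_mono nhdsWithin_le_nhds
    have k2 : ∀ᶠ z in 𝓝[≠] z0, h z ≠ 0 :=
      (hh.continuousAt.eventually_ne hh0).filter_mono nhdsWithin_le_nhds
    have k3 : ∀ᶠ z in 𝓝[≠] z0, D z ≠ 0 :=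
      (hDa.continuousAt.eventually_ne hD0).filter_mono nhdsWithin_le_nhds
    filter_upwards [k1, k2, k3, self_mem_nhdsWithin] with z h1 h2 h3 h4
    rw [h1]
    exact div_ne_zero (mul_ne_zero (sub_ne_zero.mpr h4) h2) h3

/-- if `lg f` is constant near a nonzero of `f`, then `f` is a monomial -/
theorem monomial_of_lg_const {f : ℂ → ℂ} (hf : Differentiable ℂ f) {z0 : ℂ} (h0 : f z0 ≠ 0)
    (h : ∀ᶠ z in 𝓝 z0, lg f z = lg f z0) : ∃ (c : ℂ) (m : ℕ), ∀ z, f z = c * z ^ m := by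
  obtain ⟨u, hu, hu0, hfu⟩ := exists_factor hf ⟨z0, h0⟩
  set m := analyticOrderNatAt f 0 with hm
  set a := lg f z0 with ha
  have hid1 : ∀ z, z * deriv f z = a * f z := by
    have e1 : AnalyticOnNhd ℂ (fun z => z * deriv f z) univ := fun z _ =>
      analyticAt_id.fun_mul (hf.analyticAt z).deriv
    have e2 : AnalyticOnNhd ℂ (fun z => a * f z) univ := fun z _ =>
      analyticAt_const.fun_mul (hf.analyticAt z)
    have e3 : (fun z => z * deriv f z) =ᶠ[𝓝 z0] (fun z => a * f z) := by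
      filter_upwards [h, (hf z0).continuousAt.eventually_ne h0] with z h1 h2
      rw [← h1, lg, div_mul_cancel₀ _ h2]
    intro z
    exact e1.eqOn_of_preconnected_of_eventuallyEq e2 isPreconnected_univ (mem_univ z0) e3
      (mem_univ z)
  have hd : ∀ z, z * deriv f z = z ^ m * (m * u z + z * deriv u z) := by
    intro z
    have e1 : HasDerivAt (fun z : ℂ => z ^ m * u z) (m * z ^ (m - 1) * u z + z ^ m * deriv u z) z :=
      (hasDerivAt_pow m z).fun_mul (hu z).hasDerivAt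
    have e2 : f = fun z => z ^ m * u z := funext hfu
    rw [e2, e1.deriv]
    rcases Nat.eq_zero_or_pos m with h | h
    · rw [h]; simp
    · obtain ⟨k, hk⟩ := Nat.exists_eq_add_of_le' (show 1 ≤ m from h)
      rw [hk]
      simp only [Nat.add_sub_cancel]
      rw [pow_succ]
      ring
  have hid2 : ∀ z, z ≠ 0 → (m - a) * u z + z * deriv u z = 0 := by
    intro z hz
    have h1 := hid1 z
    rw [hd, hfu] at h1
    have h2 : z ^ m * (m * u z + z * deriv u z - a * u z) = 0 := by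
      rw [mul_sub, h1]; ring
    rcases mul_eq_zero.mp h2 with h3 | h3
    · exact absurd h3 (pow_ne_zero _ hz)
    · rw [← h3]; ring
  have hud : Continuous (deriv u) := by
    have : AnalyticOnNhd ℂ u univ := fun z _ => hu.analyticAt z
    exact continuous_iff_continuousAt.mpr fun z => (hu.analyticAt z).deriv.continuousAt
  have hne0 : ∀ (F : ℂ → ℂ), Continuous F → (∀ z, z ≠ 0 → F z = 0) → F 0 = 0 := by
    intro F hF hF0
    have h1 : Tendsto F (𝓝[≠] 0) (𝓝 (F 0)) := hF.continuousAt.tendsto.mono_left nhdsWithin_le_nhds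
    have h2 : Tendsto F (𝓝[≠] 0) (𝓝 0) := tendsto_const_nhds.congr' (by
      filter_upwards [self_mem_nhdsWithin] with z hz
      exact (hF0 z hz).symm)
    exact tendsto_nhds_unique h1 h2
  have hma : (m : ℂ) - a = 0 := by
    have h1 := hne0 (fun z => (m - a) * u z + z * deriv u z) (by
      have := hu.continuous
      fun_prop) hid2
    simp only [zero_mul, add_zero] at h1
    exact (mul_eq_zero.mp h1).resolve_right hu0
  have hdz : ∀ z, z ≠ 0 → deriv u z = 0 := by
    intro z hz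
    have h1 := hid2 z hz
    rw [hma, zero_mul, zero_add] at h1
    exact (mul_eq_zero.mp h1).resolve_left hz
  have hd0 : ∀ z, deriv u z = 0 := by
    intro z
    by_cases hz : z = 0
    · rw [hz]; exact hne0 _ hud hdz
    · exact hdz z hz
  refine ⟨u 0, m, fun z => ?_⟩
  rw [hfu, is_const_of_deriv_eq_zero hu hd0 z 0, mul_comm]

end Pool.Agent.Helper48.Ent
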