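import Mathlib
import Pool.Agent.Helper48.EntBasic

set_option autoImplicit false

open Filter Topology Set Metric

namespace Pool.Agent.Helper48.Ent

theorem const_of_deriv_zero {F : ℂ → ℂ} {t0 : ℂ} (hF : AnalyticAt ℂ F t0)
    (h : ∀ᶠ t in 𝓝[≠] t0, deriv F t = 0) : ∀ᶠ t in 𝓝 t0, F t = F t0 := by
  have hd : AnalyticAt ℂ (deriv F) t0 := hF.deriv
  have h1 : deriv F t0 = 0 := by
    have e1 : Tendsto (deriv F) (𝓝[≠] t0) (𝓝 (deriv F t0)) :=
      hd.continuousAt.tendsto.mono_left nhdsWithin_le_nhds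
    have e2 : Tendsto (deriv F) (𝓝[≠] t0) (𝓝 0) := tendsto_const_nhds.congr' (by
      filter_upwards [h] with z hz
      exact hz.symm)
    exact tendsto_nhds_unique e1 e2
  have h2 : ∀ᶠ t in 𝓝 t0, deriv F t = 0 := by
    rw [eventually_nhdsWithin_iff] at h
    filter_upwards [h] with t ht
    by_cases ht0 : t = t0
    · rw [ht0]; exact h1
    · exact ht ht0
  obtain ⟨r, hr, hball⟩ := Metric.eventually_nhds_iff_ball.mp (h2.and hF.eventually_analyticAt)
  filter_upwards [ball_mem_nhds t0 hr] with t ht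
  exact isOpen_ball.is_const_of_deriv_eq_zero (convex_ball t0 r).isPreconnected
    (fun x hx => (hball x hx).2.differentiableAt.differentiableWithinAt)
    (fun x hx => (hball x hx).1) ht (mem_ball_self hr)

/-- an analytic disc in `S` through the point `x` along which `lg f = lg h` -/
def DiscAt (f h : ℂ → ℂ) (S : Set (ℂ × ℂ)) (x : ℂ × ℂ) : Prop :=
  ∃ Z W : ℂ → ℂ, AnalyticAt ℂ Z 0 ∧ AnalyticAt ℂ W 0 ∧ Z 0 = x.1 ∧ W 0 = x.2 ∧
    (¬ ∀ᶠ t in 𝓝 0, Z t = Z 0) ∧ (∀ᶠ t in 𝓝 0, (Z t, W t) ∈ S) ∧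
    ∀ᶠ t in 𝓝[≠] 0, f (Z t) ≠ 0 ∧ h (W t) ≠ 0 ∧ lg f (Z t) = lg h (W t)

theorem identity_of_min {f h : ℂ → ℂ} (hf : Differentiable ℂ f) (hh : Differentiable ℂ h)
    {S : Set (ℂ × ℂ)} {x : ℂ × ℂ} (hd : DiscAt f h S x) (hx1 : x.1 ≠ 0) (hx2 : x.2 ≠ 0)
    {p q : ℕ} (hp : 1 ≤ p) (hq : 1 ≤ q)
    (hmin : ∀ᶠ y in 𝓝 x, y ∈ S → ‖x.1‖ ^ p * ‖x.2‖ ^ q ≤ ‖y.1‖ ^ p * ‖y.2‖ ^ q) :
    ∃ c C : ℂ, c ≠ 0 ∧ ∀ t : ℂ, t ≠ 0 → f (t ^ q) ^ p * h (c / t ^ p) ^ q = C := by
  obtain ⟨Z, W, hZ, hW, hZ0, hW0, hZnc, hS, hlg⟩ := hd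
  have hZ0' : Z 0 ≠ 0 := by rw [hZ0]; exact hx1
  have hW0' : W 0 ≠ 0 := by rw [hW0]; exact hx2
  set H : ℂ → ℂ := fun t => Z t ^ p * W t ^ q with hH
  have hHa : AnalyticAt ℂ H 0 := (hZ.fun_pow p).fun_mul (hW.fun_pow q)
  have hH0 : H 0 ≠ 0 := mul_ne_zero (pow_ne_zero _ hZ0') (pow_ne_zero _ hW0')
  have htend : Tendsto (fun t => (Z t, W t)) (𝓝 0) (𝓝 x) := by
    have := hZ.continuousAt.tendsto.prodMk_nhds hW.continuousAt.tendsto
    rwa [hZ0, hW0] at this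
  have hHmin : IsLocalMin (norm ∘ H) 0 := by
    filter_upwards [htend.eventually hmin, hS] with t ht hSt
    have := ht hSt
    simp only [Function.comp, hH, norm_mul, norm_pow, hZ0, hW0]
    exact this
  have hHconst : ∀ᶠ t in 𝓝 0, H t = H 0 :=
    (Complex.eventually_eq_or_eq_zero_of_isLocalMin_norm
      (hHa.eventually_analyticAt.mono fun t ht => ht.differentiableAt) hHmin).resolve_right hH0
  set J : ℂ → ℂ := fun t => f (Z t) ^ p * h (W t) ^ q with hJ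
  have hJa : AnalyticAt ℂ J 0 :=
    (((hf.analyticAt _).fun_comp hZ).fun_pow p).fun_mul (((hh.analyticAt _).fun_comp hW).fun_pow q)
  have hJconst : ∀ᶠ t in 𝓝 0, J t = J 0 := by
    apply const_of_deriv_zero hJa
    have e1 : ∀ᶠ t in 𝓝[≠] (0 : ℂ), AnalyticAt ℂ Z t ∧ AnalyticAt ℂ W t ∧ Z t ≠ 0 ∧ W t ≠ 0 ∧
        (∀ᶠ s in 𝓝 t, H s = H 0) := by
      apply Filter.Eventually.filter_mono nhdsWithin_le_nhds
      filter_upwards [hZ.eventually_analyticAt, hW.eventually_analyticAt,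
        hZ.continuousAt.eventually_ne hZ0', hW.continuousAt.eventually_ne hW0',
        hHconst.eventually_nhds] with t a b c d e
      exact ⟨a, b, c, d, e⟩
    filter_upwards [e1, hlg] with t ht1 ht2
    obtain ⟨hZt, hWt, hZt0, hWt0, hHt⟩ := ht1
    obtain ⟨hft, hht, hlgt⟩ := ht2
    have dZ := hZt.differentiableAt.hasDerivAt
    have dW := hWt.differentiableAt.hasDerivAt
    have dH : HasDerivAt H (p * Z t ^ (p - 1) * deriv Z t * W t ^ q +
        Z t ^ p * (q * W t ^ (q - 1) * deriv W t)) t := (dZ.fun_pow p).fun_mul (dW.fun_pow q)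
    have dH0 : p * Z t ^ (p - 1) * deriv Z t * W t ^ q +
        Z t ^ p * (q * W t ^ (q - 1) * deriv W t) = 0 := by
      rw [← dH.deriv]
      have : H =ᶠ[𝓝 t] fun _ => H 0 := hHt
      rw [this.deriv_eq]
      simp
    have dfZ : HasDerivAt (fun s => f (Z s)) (deriv f (Z t) * deriv Z t) t :=
      (hf (Z t)).hasDerivAt.comp t dZ
    have dhW : HasDerivAt (fun s => h (W s)) (deriv h (W t) * deriv W t) t :=
      (hh (W t)).hasDerivAt.comp t dW
    have dJ : HasDerivAt J (p * f (Z t) ^ (p - 1) * (deriv f (Z t) * deriv Z t) * h (W t) ^ q +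
        f (Z t) ^ p * (q * h (W t) ^ (q - 1) * (deriv h (W t) * deriv W t))) t :=
      (dfZ.fun_pow p).fun_mul (dhW.fun_pow q)
    rw [dJ.deriv]
    set a := lg f (Z t) with ha
    have ea : Z t * deriv f (Z t) = a * f (Z t) := by
      rw [ha, lg, div_mul_cancel₀ _ hft]
    have eb : W t * deriv h (W t) = a * h (W t) := by
      rw [hlgt, lg, div_mul_cancel₀ _ hht]
    obtain ⟨p', rfl⟩ := Nat.exists_eq_add_of_le' hp
    obtain ⟨q', rfl⟩ := Nat.exists_eq_add_of_le' hq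
    simp only [Nat.add_sub_cancel] at dH0 ⊢
    have hne : Z t ^ (p' + 1) * W t ^ (q' + 1) ≠ 0 :=
      mul_ne_zero (pow_ne_zero _ hZt0) (pow_ne_zero _ hWt0)
    apply mul_left_cancel₀ hne
    rw [mul_zero]
    have : Z t ^ (p' + 1) * W t ^ (q' + 1) *
        (((p' + 1 : ℕ) : ℂ) * f (Z t) ^ p' * (deriv f (Z t) * deriv Z t) * h (W t) ^ (q' + 1) +
          f (Z t) ^ (p' + 1) * (((q' + 1 : ℕ) : ℂ) * h (W t) ^ q' * (deriv h (W t) * deriv W t)))
        = f (Z t) ^ p' * h (W t) ^ q' * (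
          ((p' + 1 : ℕ) : ℂ) * Z t ^ p' * deriv Z t * W t ^ (q' + 1) * (Z t * deriv f (Z t)) *
            h (W t) +
          Z t ^ (p' + 1) * (((q' + 1 : ℕ) : ℂ) * W t ^ q' * deriv W t) * (W t * deriv h (W t)) *
            f (Z t)) := by ring
    rw [this, ea, eb]
    have : ((p' + 1 : ℕ) : ℂ) * Z t ^ p' * deriv Z t * W t ^ (q' + 1) * (a * f (Z t)) *
            h (W t) +
          Z t ^ (p' + 1) * (((q' + 1 : ℕ) : ℂ) * W t ^ q' * deriv W t) * (a * h (W t)) *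
            f (Z t) = a * f (Z t) * h (W t) *
            (((p' + 1 : ℕ) : ℂ) * Z t ^ p' * deriv Z t * W t ^ (q' + 1) +
        Z t ^ (p' + 1) * (((q' + 1 : ℕ) : ℂ) * W t ^ q' * deriv W t)) := by ring
    rw [this, dH0]
    ring
  obtain ⟨r, hr, hr0, hreq⟩ := exists_root hZ hZ0' hq
  set K : ℂ → ℂ := fun t => W t * r t ^ p with hK
  have hKa : AnalyticAt ℂ K 0 := hW.fun_mul (hr.fun_pow p)
  have hK0 : K 0 ≠ 0 := mul_ne_zero hW0' (pow_ne_zero _ hr0)
  have hKpow : ∀ᶠ t in 𝓝 0, K t ^ q = H 0 := by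
    filter_upwards [hHconst, hreq] with t h1 h2
    rw [← h1]
    simp only [hK, hH]
    rw [mul_pow, ← pow_mul, mul_comm p q, pow_mul, h2]
    ring
  have hKconst : ∀ᶠ t in 𝓝 0, K t = K 0 := by
    apply const_of_deriv_zero hKa
    apply Filter.Eventually.filter_mono nhdsWithin_le_nhds
    filter_upwards [hKa.eventually_analyticAt, hKa.continuousAt.eventually_ne hK0,
      hKpow.eventually_nhds] with t h1 h2 h3
    have d1 : HasDerivAt (fun s => K s ^ q) (q * K t ^ (q - 1) * deriv K t) t :=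
      h1.differentiableAt.hasDerivAt.fun_pow q
    have d2 : (fun s => K s ^ q) =ᶠ[𝓝 t] fun _ => H 0 := h3
    have d3 : q * K t ^ (q - 1) * deriv K t = 0 := by
      rw [← d1.deriv, d2.deriv_eq]
      simp
    rcases mul_eq_zero.mp d3 with h4 | h4
    · exfalso
      rcases mul_eq_zero.mp h4 with h5 | h5
      · exact absurd h5 (by exact_mod_cast (show q ≠ 0 by omega))
      · exact pow_ne_zero _ h2 h5
    · exact h4
  refine ⟨K 0, J 0, hK0, ?_⟩
  have hTheta : AnalyticOnNhd ℂ (fun t : ℂ => f (t ^ q) ^ p * h (K 0 / t ^ p) ^ q) {0}ᶜ := by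
    intro t ht
    have ht0 : t ≠ 0 := ht
    have a1 : AnalyticAt ℂ (fun t : ℂ => t ^ q) t := by fun_prop
    have a2 : AnalyticAt ℂ (fun t : ℂ => K 0 / t ^ p) t :=
      analyticAt_const.fun_div (by fun_prop) (pow_ne_zero _ ht0)
    exact (((hf.analyticAt _).fun_comp a1).fun_pow p).fun_mul (((hh.analyticAt _).fun_comp a2).fun_pow q)
  have hrnc : ∀ᶠ t in 𝓝[≠] (0 : ℂ), r t ≠ r 0 := by
    rcases hr.eventually_eq_or_eventually_ne (analyticAt_const (v := r 0)) with h1 | h1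
    · exfalso
      apply hZnc
      filter_upwards [h1, hreq] with t h2 h3
      rw [← h3, h2, hreq.self_of_nhds]
    · exact h1
  have hfreq : ∃ᶠ s in 𝓝[≠] (r 0), f (s ^ q) ^ p * h (K 0 / s ^ p) ^ q = J 0 := by
    have htr : Tendsto r (𝓝[≠] 0) (𝓝[≠] (r 0)) := by
      rw [tendsto_nhdsWithin_iff]
      exact ⟨hr.continuousAt.tendsto.mono_left nhdsWithin_le_nhds, hrnc⟩
    apply htr.frequently
    apply Filter.Eventually.frequently
    apply Filter.Eventually.filter_mono nhdsWithin_le_nhds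
    filter_upwards [hJconst, hKconst, hreq, hr.continuousAt.eventually_ne hr0] with t h1 h2 h3 h4
    rw [← h1, h3, ← h2]
    simp only [hJ, hK]
    rw [mul_div_cancel_right₀ _ (pow_ne_zero _ h4)]
  have hpc : IsPreconnected ({0}ᶜ : Set ℂ) :=
    (isConnected_compl_singleton_of_one_lt_rank (by simp) 0).isPreconnected
  intro t ht
  exact hTheta.eqOn_of_preconnected_of_frequently_eq (g := fun _ => J 0)
    (fun _ _ => analyticAt_const) hpc hr0 hfreq ht

end Pool.Agent.Helper48.Ent
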