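import Mathlib
import Pool.Agent.Helper48.EntDisc

set_option autoImplicit false

open Filter Topology Set Metric

namespace Pool.Agent.Helper48.Ent

theorem le_of_pow_le_mul {a b M : ℝ} (hb : 0 < b) (h : ∀ n : ℕ, 1 ≤ n → a ^ n ≤ b ^ n * M) :
    a ≤ b := by
  by_contra hcon
  push Not at hcon
  have h1 : 1 < a / b := by rw [lt_div_iff₀ hb]; linarith
  obtain ⟨n, hn⟩ := pow_unbounded_of_one_lt (max M 1) h1
  have hn1 : 1 ≤ n := by
    by_contra h0
    have : n = 0 := by omega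
    rw [this, pow_zero] at hn
    exact absurd hn (not_lt.mpr (le_max_right _ _))
  have h2 := h n hn1
  have h3 : (a / b) ^ n ≤ M := by
    rw [div_pow, div_le_iff₀ (by positivity)]
    linarith
  linarith [le_max_left M 1]

theorem exists_identity {f h : ℂ → ℂ} (hf : Differentiable ℂ f) (hh : Differentiable ℂ h)
    {S : Set (ℂ × ℂ)} (hSc : IsClosed S) (hSne : S.Nonempty) {c0 : ℝ} (hc0 : 0 < c0)
    (hlow : ∀ x ∈ S, c0 ≤ ‖x.1‖ * ‖x.2‖) (hdisc : ∀ x ∈ S, DiscAt f h S x) :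
    ∃ (p q : ℕ) (c C : ℂ), 1 ≤ p ∧ 1 ≤ q ∧ c ≠ 0 ∧
      ∀ t : ℂ, t ≠ 0 → f (t ^ q) ^ p * h (c / t ^ p) ^ q = C := by
  by_contra hcon
  have hno : ∀ (p q : ℕ), 1 ≤ p → 1 ≤ q → ∀ x ∈ S,
      ¬ (∀ᶠ y in 𝓝 x, y ∈ S → ‖x.1‖ ^ p * ‖x.2‖ ^ q ≤ ‖y.1‖ ^ p * ‖y.2‖ ^ q) := by
    intro p q hp hq x hx hmin
    have hx12 := hlow x hx
    have hx1 : x.1 ≠ 0 := by
      intro h0
      rw [h0, norm_zero, zero_mul] at hx12
      linarith
    have hx2 : x.2 ≠ 0 := by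
      intro h0
      rw [h0, norm_zero, mul_zero] at hx12
      linarith
    obtain ⟨c, C, h1, h2⟩ := identity_of_min hf hh (hdisc x hx) hx1 hx2 hp hq hmin
    exact hcon ⟨p, q, c, C, hp, hq, h1, h2⟩
  have hcont : ∀ p q : ℕ, Continuous fun y : ℂ × ℂ => ‖y.1‖ ^ p * ‖y.2‖ ^ q := by
    intro p q
    fun_prop
  have stepA : ∀ n : ℕ, 1 ≤ n → ∀ x ∈ S, 1 ≤ ‖x.1‖ →
      ∃ y ∈ S, ‖y.1‖ = 1 ∧ ‖y.2‖ ^ n ≤ ‖x.1‖ ^ (n + 1) * ‖x.2‖ ^ n := by
    intro n hn x hx hx1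
    by_contra hc
    push Not at hc
    set P : ℂ × ℂ → ℝ := fun y => ‖y.1‖ ^ (n + 1) * ‖y.2‖ ^ n with hP
    have hPc : Continuous P := hcont _ _
    set A : Set (ℂ × ℂ) := {y | y ∈ S ∧ 1 ≤ ‖y.1‖ ∧ P y ≤ P x} with hA
    have hAcl : IsClosed A := by
      apply hSc.inter
      apply IsClosed.inter
      · exact isClosed_le continuous_const continuous_fst.norm
      · exact isClosed_le hPc continuous_const
    have hAb : Bornology.IsBounded A := by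
      rw [isBounded_iff_forall_norm_le]
      refine ⟨max (P x / c0 ^ n) (max 1 (P x)), ?_⟩
      rintro y ⟨hy, hy1, hyP⟩
      have hlowy := hlow y hy
      have e1 : c0 ^ n * ‖y.1‖ ≤ P x := by
        calc c0 ^ n * ‖y.1‖ ≤ (‖y.1‖ * ‖y.2‖) ^ n * ‖y.1‖ := by gcongr
          _ = P y := by simp only [hP]; ring
          _ ≤ P x := hyP
      have e2 : ‖y.2‖ ^ n ≤ P x := by
        calc ‖y.2‖ ^ n = 1 ^ (n + 1) * ‖y.2‖ ^ n := by rw [one_pow, one_mul]
          _ ≤ ‖y.1‖ ^ (n + 1) * ‖y.2‖ ^ n := by gcongr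
          _ ≤ P x := hyP
      rw [Prod.norm_def]
      apply max_le
      · apply le_max_of_le_left
        rw [le_div_iff₀ (by positivity), mul_comm]
        exact e1
      · apply le_max_of_le_right
        by_cases h1 : ‖y.2‖ ≤ 1
        · exact h1.trans (le_max_left _ _)
        · push Not at h1
          apply le_max_of_le_right
          refine le_trans ?_ e2
          calc ‖y.2‖ = ‖y.2‖ ^ 1 := (pow_one _).symm
            _ ≤ ‖y.2‖ ^ n := pow_le_pow_right₀ h1.le hn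
    have hAcomp : IsCompact A := Metric.isCompact_of_isClosed_isBounded hAcl hAb
    obtain ⟨y0, hy0, hy0min⟩ := hAcomp.exists_isMinOn ⟨x, hx, hx1, le_rfl⟩ hPc.continuousOn
    obtain ⟨hy0S, hy01, hy0P⟩ := hy0
    have hgl : ∀ y ∈ S, 1 ≤ ‖y.1‖ → P y0 ≤ P y := by
      intro y hy hy1
      by_cases hyP : P y ≤ P x
      · exact hy0min ⟨hy, hy1, hyP⟩
      · push Not at hyP
        exact hy0P.trans hyP.le
    have hne1 : 1 < ‖y0.1‖ := by
      rcases hy01.eq_or_lt with h1 | h1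
      · exfalso
        have h2 := hc y0 hy0S h1.symm
        have h3 : P y0 = ‖y0.2‖ ^ n := by simp only [hP]; rw [← h1]; ring
        rw [h3] at hy0P
        exact absurd hy0P (not_le.mpr h2)
      · exact h1
    apply hno (n + 1) n (by omega) hn y0 hy0S
    have : ∀ᶠ y in 𝓝 y0, 1 < ‖y.1‖ :=
      (continuous_fst.norm.continuousAt (x := y0)).eventually_const_lt hne1
    filter_upwards [this] with y hy hyS
    exact hgl y hyS hy.le
  have stepB : ∀ k : ℕ, 1 ≤ k → ∀ x ∈ S, ‖x.1‖ ≤ 1 →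
      ∃ y ∈ S, ‖y.1‖ = 1 ∧ ‖y.2‖ ^ (k + 1) ≤ ‖x.1‖ ^ k * ‖x.2‖ ^ (k + 1) := by
    intro n hn x hx hx1
    by_contra hc
    push Not at hc
    set P : ℂ × ℂ → ℝ := fun y => ‖y.1‖ ^ n * ‖y.2‖ ^ (n + 1) with hP
    have hPc : Continuous P := hcont _ _
    set A : Set (ℂ × ℂ) := {y | y ∈ S ∧ ‖y.1‖ ≤ 1 ∧ P y ≤ P x} with hA
    have hAcl : IsClosed A := by
      apply hSc.inter
      apply IsClosed.inter
      · exact isClosed_le continuous_fst.norm continuous_const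
      · exact isClosed_le hPc continuous_const
    have hAb : Bornology.IsBounded A := by
      rw [isBounded_iff_forall_norm_le]
      refine ⟨max 1 (P x / c0 ^ n), ?_⟩
      rintro y ⟨hy, hy1, hyP⟩
      have hlowy := hlow y hy
      have e1 : c0 ^ n * ‖y.2‖ ≤ P x := by
        calc c0 ^ n * ‖y.2‖ ≤ (‖y.1‖ * ‖y.2‖) ^ n * ‖y.2‖ := by gcongr
          _ = P y := by simp only [hP]; ring
          _ ≤ P x := hyP
      rw [Prod.norm_def]
      apply max_le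
      · exact le_max_of_le_left hy1
      · apply le_max_of_le_right
        rw [le_div_iff₀ (by positivity), mul_comm]
        exact e1
    have hAcomp : IsCompact A := Metric.isCompact_of_isClosed_isBounded hAcl hAb
    obtain ⟨y0, hy0, hy0min⟩ := hAcomp.exists_isMinOn ⟨x, hx, hx1, le_rfl⟩ hPc.continuousOn
    obtain ⟨hy0S, hy01, hy0P⟩ := hy0
    have hgl : ∀ y ∈ S, ‖y.1‖ ≤ 1 → P y0 ≤ P y := by
      intro y hy hy1
      by_cases hyP : P y ≤ P x
      · exact hy0min ⟨hy, hy1, hyP⟩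
      · push Not at hyP
        exact hy0P.trans hyP.le
    have hne1 : ‖y0.1‖ < 1 := by
      rcases hy01.eq_or_lt with h1 | h1
      · exfalso
        have h2 := hc y0 hy0S h1
        have h3 : P y0 = ‖y0.2‖ ^ (n + 1) := by simp only [hP]; rw [h1]; ring
        rw [h3] at hy0P
        exact absurd hy0P (not_le.mpr h2)
      · exact h1
    apply hno n (n + 1) hn (by omega) y0 hy0S
    have : ∀ᶠ y in 𝓝 y0, ‖y.1‖ < 1 :=
      (continuous_fst.norm.continuousAt (x := y0)).eventually_lt_const hne1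
    filter_upwards [this] with y hy hyS
    exact hgl y hyS hy.le
  obtain ⟨y1, hy1S, hy11⟩ : ∃ y ∈ S, ‖y.1‖ = 1 := by
    obtain ⟨x, hx⟩ := hSne
    rcases le_total 1 ‖x.1‖ with h1 | h1
    · obtain ⟨y, hy, hy1, -⟩ := stepA 1 le_rfl x hx h1
      exact ⟨y, hy, hy1⟩
    · obtain ⟨y, hy, hy1, -⟩ := stepB 1 le_rfl x hx h1
      exact ⟨y, hy, hy1⟩
  obtain ⟨y0, hy0S, hy01, hy0min⟩ : ∃ y0 ∈ S, ‖y0.1‖ = 1 ∧ ∀ y ∈ S, ‖y.1‖ = 1 →
      ‖y0.2‖ ≤ ‖y.2‖ := by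
    set A : Set (ℂ × ℂ) := {y | y ∈ S ∧ ‖y.1‖ = 1 ∧ ‖y.2‖ ≤ ‖y1.2‖} with hA
    have hAcl : IsClosed A := by
      apply hSc.inter
      apply IsClosed.inter
      · exact isClosed_eq continuous_fst.norm continuous_const
      · exact isClosed_le continuous_snd.norm continuous_const
    have hAb : Bornology.IsBounded A := by
      rw [isBounded_iff_forall_norm_le]
      refine ⟨max 1 ‖y1.2‖, ?_⟩
      rintro y ⟨hy, hy1, hy2⟩
      rw [Prod.norm_def]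
      exact max_le_max hy1.le hy2
    have hAcomp : IsCompact A := Metric.isCompact_of_isClosed_isBounded hAcl hAb
    obtain ⟨y0, hy0, hy0min⟩ := hAcomp.exists_isMinOn (f := fun y : ℂ × ℂ => ‖y.2‖)
      ⟨y1, hy1S, hy11, le_rfl⟩ (by fun_prop)
    refine ⟨y0, hy0.1, hy0.2.1, fun y hy hy1 => ?_⟩
    by_cases h1 : ‖y.2‖ ≤ ‖y1.2‖
    · exact hy0min ⟨hy, hy1, h1⟩
    · push Not at h1
      exact hy0.2.2.trans h1.le
  apply hno 1 1 le_rfl le_rfl y0 hy0S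
  apply Eventually.of_forall
  intro x hx
  rw [pow_one, pow_one, pow_one, pow_one, hy01, one_mul]
  have hb : 0 < ‖x.1‖ * ‖x.2‖ := hc0.trans_le (hlow x hx)
  rcases le_total 1 ‖x.1‖ with h1 | h1
  · apply le_of_pow_le_mul hb (M := ‖x.1‖)
    intro n hn
    obtain ⟨y, hy, hy1, hy2⟩ := stepA n hn x hx h1
    calc ‖y0.2‖ ^ n ≤ ‖y.2‖ ^ n := by
          have := hy0min y hy hy1
          gcongr
      _ ≤ ‖x.1‖ ^ (n + 1) * ‖x.2‖ ^ n := hy2
      _ = (‖x.1‖ * ‖x.2‖) ^ n * ‖x.1‖ := by ring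
  · have hy0pos : 0 < ‖y0.2‖ := by
      have := hlow y0 hy0S
      rw [hy01, one_mul] at this
      linarith
    apply le_of_pow_le_mul hb (M := ‖x.2‖ / ‖y0.2‖)
    intro n hn
    obtain ⟨y, hy, hy1, hy2⟩ := stepB n hn x hx h1
    rw [← mul_div_assoc, le_div_iff₀ hy0pos]
    calc ‖y0.2‖ ^ n * ‖y0.2‖ = ‖y0.2‖ ^ (n + 1) := by ring
      _ ≤ ‖y.2‖ ^ (n + 1) := by
          have := hy0min y hy hy1
          gcongr
      _ ≤ ‖x.1‖ ^ n * ‖x.2‖ ^ (n + 1) := hy2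
      _ = (‖x.1‖ * ‖x.2‖) ^ n * ‖x.2‖ := by ring

end Pool.Agent.Helper48.Ent
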