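import Mathlib
import Pool.Agent.Helper48.EntMin

set_option autoImplicit false

open Filter Topology Set Metric

namespace Pool.Agent.Helper48.Ent

theorem ball_diff_countable_isPreconnected {r : ℝ} (hr : 0 < r) {E : Set ℂ} (hE : E.Countable) :
    IsPreconnected (ball (0 : ℂ) r \ E) := by
  set e := OpenPartialHomeomorph.univBall (0 : ℂ) r with he
  have hsrc : e.source = univ := OpenPartialHomeomorph.univBall_source _ _
  have htgt : e.target = ball (0 : ℂ) r := OpenPartialHomeomorph.univBall_target _ hr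
  have hinj : Function.Injective e := by
    intro x y hxy
    exact e.injOn (by rw [hsrc]; trivial) (by rw [hsrc]; trivial) hxy
  have hpre : (e ⁻¹' E).Countable := hE.preimage_of_injOn hinj.injOn
  have hconn : IsPreconnected (e ⁻¹' E)ᶜ :=
    (hpre.isConnected_compl_of_one_lt_rank (by simp)).isPreconnected
  have hcont : Continuous e := by
    rw [← continuousOn_univ, ← hsrc]
    exact e.continuousOn
  have himg : e '' (e ⁻¹' E)ᶜ = ball (0 : ℂ) r \ E := by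
    ext x
    constructor
    · rintro ⟨y, hy, rfl⟩
      exact ⟨by rw [← htgt]; exact e.map_source (by rw [hsrc]; trivial), hy⟩
    · rintro ⟨hx, hxE⟩
      rw [← htgt] at hx
      refine ⟨e.symm x, ?_, e.right_inv hx⟩
      change e (e.symm x) ∉ E
      rw [e.right_inv hx]
      exact hxE
  rw [← himg]
  exact hconn.image _ hcont.continuousOn

/-- the image curve, for a pair of functions -/
def ISet (f h : ℂ → ℂ) (m : ℂ) : Set (ℂ × ℂ) :=
  {p | p.1 ≠ 0 ∧ p.2 ≠ 0 ∧ p.2 ≠ m ∧ ∃ y : ℂ × ℂ, y.1 * y.2 = p.1 ∧ f y.1 ≠ 0 ∧ h y.2 ≠ 0 ∧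
    lg f y.1 = p.2 ∧ lg h y.2 = p.2}

/-- part of the curve lying over `K` -/
def GSet (f h : ℂ → ℂ) (K : Set (ℂ × ℂ)) : Set (ℂ × ℂ) :=
  {y | f y.1 ≠ 0 ∧ h y.2 ≠ 0 ∧ lg f y.1 = lg h y.2 ∧ (y.1 * y.2, lg f y.1) ∈ K}

theorem lg_ne_zero {f : ℂ → ℂ} {z : ℂ} (h : lg f z ≠ 0) : f z ≠ 0 := by
  intro h0
  apply h
  simp [lg, h0]

theorem disc_of_param {f h : ℂ → ℂ} (hf : Differentiable ℂ f) {m : ℂ}
    {T : Set (ℂ × ℂ)} (hT : T.Countable) {x0 : ℂ × ℂ} {x : ℂ × ℂ} {Z W : ℂ → ℂ} {de : ℝ}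
    (hde : 0 < de) (hZ0 : Z 0 = x.1) (hW0 : W 0 = x.2)
    (hZ : ∀ t ∈ ball (0 : ℂ) de, AnalyticAt ℂ Z t) (hW : ∀ t ∈ ball (0 : ℂ) de, AnalyticAt ℂ W t)
    (hZne : ∀ t ∈ ball (0 : ℂ) de, Z t ≠ 0) (hWne : ∀ t ∈ ball (0 : ℂ) de, W t ≠ 0)
    (heq : ∀ t ∈ ball (0 : ℂ) de, lg f (Z t) = lg h (W t))
    (hfin : ∀ c : ℂ, {t | t ∈ ball (0 : ℂ) de ∧ lg f (Z t) = c}.Finite)
    {t1 : ℂ} (ht1 : t1 ∈ ball (0 : ℂ) de)
    (hy : (Z t1, W t1) ∈ GSet f h (connectedComponentIn (ISet f h m \ T) x0)) :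
    DiscAt f h (closure (GSet f h (connectedComponentIn (ISet f h m \ T) x0))) x := by
  set K := connectedComponentIn (ISet f h m \ T) x0 with hK
  have h0 : (0 : ℂ) ∈ ball (0 : ℂ) de := mem_ball_self hde
  have key : ∀ t ∈ ball (0 : ℂ) de, lg f (Z t) ≠ 0 → f (Z t) ≠ 0 ∧ h (W t) ≠ 0 := by
    intro t ht hne
    exact ⟨lg_ne_zero hne, lg_ne_zero (by rw [← heq t ht]; exact hne)⟩
  set M : ℂ → ℂ × ℂ := fun t => (Z t * W t, lg f (Z t)) with hM
  set E : Set ℂ := {t | t ∈ ball (0 : ℂ) de ∧ M t ∉ ISet f h m \ T} with hE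
  have hEc : E.Countable := by
    have hCc : ({0, m} ∪ Prod.snd '' T : Set ℂ).Countable :=
      ((Set.toFinite {0, m}).countable).union (hT.image _)
    have hsub : E ⊆ ⋃ c ∈ ({0, m} ∪ Prod.snd '' T : Set ℂ),
        {t | t ∈ ball (0 : ℂ) de ∧ lg f (Z t) = c} := by
      rintro t ⟨ht, htM⟩
      rw [mem_iUnion₂]
      by_contra hcon
      push Not at hcon
      have hA : lg f (Z t) ∉ ({0, m} ∪ Prod.snd '' T : Set ℂ) := fun hmem =>
        hcon _ hmem ⟨ht, rfl⟩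
      have hA0 : lg f (Z t) ≠ 0 := fun h => hA (Or.inl (Or.inl h))
      have hAm : lg f (Z t) ≠ m := fun h => hA (Or.inl (Or.inr h))
      have hAT : M t ∉ T := fun h => hA (Or.inr ⟨_, h, rfl⟩)
      apply htM
      refine ⟨⟨mul_ne_zero (hZne t ht) (hWne t ht), hA0, hAm, (Z t, W t), rfl,
        (key t ht hA0).1, (key t ht hA0).2, rfl, (heq t ht).symm⟩, hAT⟩
    exact (hCc.biUnion fun c _ => (hfin c).countable).mono hsub
  have hnotE : ∀ t ∈ ball (0 : ℂ) de \ E, M t ∈ ISet f h m \ T := by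
    rintro t ⟨ht, htE⟩
    by_contra hcon
    exact htE ⟨ht, hcon⟩
  have hMcont : ContinuousOn M (ball (0 : ℂ) de \ E) := by
    intro t ht
    have hI := (hnotE t ht).1
    have hne : lg f (Z t) ≠ 0 := hI.2.1
    have hfz := (key t ht.1 hne).1
    apply ContinuousAt.continuousWithinAt
    apply ContinuousAt.prodMk
    · exact (hZ t ht.1).continuousAt.mul (hW t ht.1).continuousAt
    · exact ContinuousAt.comp (f := Z) (g := lg f) (lg_analyticAt hf hfz).continuousAt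
        (hZ t ht.1).continuousAt
  have hpre : IsPreconnected (M '' (ball (0 : ℂ) de \ E)) :=
    (ball_diff_countable_isPreconnected hde hEc).image _ hMcont
  have hsubI : M '' (ball (0 : ℂ) de \ E) ⊆ ISet f h m \ T := by
    rintro _ ⟨t, ht, rfl⟩
    exact hnotE t ht
  have hMt1K : M t1 ∈ K := hy.2.2.2
  have hKsub : K ⊆ ISet f h m \ T := connectedComponentIn_subset _ _
  have ht1E : t1 ∈ ball (0 : ℂ) de \ E := ⟨ht1, fun h => h.2 (hKsub hMt1K)⟩
  have hKeq : connectedComponentIn (ISet f h m \ T) (M t1) = K :=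
    (connectedComponentIn_eq hMt1K).symm
  have hMK : M '' (ball (0 : ℂ) de \ E) ⊆ K := by
    rw [← hKeq]
    exact hpre.subset_connectedComponentIn ⟨t1, ht1E, rfl⟩ hsubI
  have hmem : ∀ t ∈ ball (0 : ℂ) de \ E, (Z t, W t) ∈ GSet f h K := by
    intro t ht
    have hI := (hnotE t ht).1
    have hne : lg f (Z t) ≠ 0 := hI.2.1
    exact ⟨(key t ht.1 hne).1, (key t ht.1 hne).2, heq t ht.1, hMK ⟨t, ht, rfl⟩⟩
  refine ⟨Z, W, hZ 0 h0, hW 0 h0, hZ0, hW0, ?_, ?_, ?_⟩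
  · intro hcon
    have h1 : ∀ᶠ t in 𝓝 (0 : ℂ), t ∈ {t | t ∈ ball (0 : ℂ) de ∧ lg f (Z t) = lg f (Z 0)} := by
      filter_upwards [hcon, isOpen_ball.mem_nhds h0] with t h2 h3
      exact ⟨h3, by rw [h2]⟩
    exact (infinite_of_mem_nhds (0 : ℂ) h1) (hfin _)
  · filter_upwards [isOpen_ball.mem_nhds h0] with t ht
    have hd : t ∈ closure (ball (0 : ℂ) de ∩ Eᶜ) :=
      (hEc.dense_compl ℂ).open_subset_closure_inter isOpen_ball ht
    have hc : ContinuousAt (fun t => (Z t, W t)) t :=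
      (hZ t ht).continuousAt.prodMk (hW t ht).continuousAt
    have := mem_closure_image hc hd
    refine closure_mono ?_ this
    rintro _ ⟨s, hs, rfl⟩
    exact hmem s ⟨hs.1, hs.2⟩
  · have h1 : ∀ᶠ t in 𝓝[≠] (0 : ℂ), t ∉ {t | t ∈ ball (0 : ℂ) de ∧ lg f (Z t) = 0} := by
      have hfin' := (hfin 0).subset (sdiff_subset (t := {(0 : ℂ)}))
      have h2 : (({t | t ∈ ball (0 : ℂ) de ∧ lg f (Z t) = 0} \ {0})ᶜ) ∈ 𝓝 (0 : ℂ) :=
        hfin'.isClosed.isOpen_compl.mem_nhds (by simp)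
      rw [eventually_nhdsWithin_iff]
      filter_upwards [h2] with t ht ht0 hmem
      exact ht ⟨hmem, ht0⟩
    have h3 : ∀ᶠ t in 𝓝[≠] (0 : ℂ), t ∈ ball (0 : ℂ) de :=
      mem_nhdsWithin_of_mem_nhds (isOpen_ball.mem_nhds h0)
    filter_upwards [h1, h3] with t ht ht2
    have hne : lg f (Z t) ≠ 0 := fun h => ht ⟨ht2, h⟩
    exact ⟨(key t ht2 hne).1, (key t ht2 hne).2, heq t ht2⟩

end Pool.Agent.Helper48.Ent
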