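import Mathlib
import Pool.Agent.Helper48.EntCurve

set_option autoImplicit false

open Filter Topology Set Metric

namespace Pool.Agent.Helper48.Ent

theorem finite_pow_eq {N : ℕ} (hN : 1 ≤ N) (c : ℂ) : {t : ℂ | t ^ N = c}.Finite := by
  have h : (Polynomial.X ^ N - Polynomial.C c : Polynomial ℂ) ≠ 0 :=
    Polynomial.X_pow_sub_C_ne_zero (by omega) c
  refine (Multiset.finite_toSet ((Polynomial.X ^ N - Polynomial.C c : Polynomial ℂ).roots)).subset ?_
  intro t ht
  change t ^ N = c at ht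
  rw [mem_ofPred_eq, Polynomial.mem_roots h]
  simp [ht]

/-- at a limit point both functions vanish or neither does -/
theorem zero_of_zero {f h : ℂ → ℂ} (hf : Differentiable ℂ f) (hh : Differentiable ℂ h)
    (hfne : ∃ z, f z ≠ 0) {x : ℂ × ℂ} (hx1 : x.1 ≠ 0)
    (hfreq : ∃ᶠ y : ℂ × ℂ in 𝓝 x, lg f y.1 = lg h y.2 ∧ lg f y.1 ≠ 0) (h0 : f x.1 = 0) :
    h x.2 = 0 := by
  by_contra hne
  obtain ⟨ha, ha0, -⟩ := inv_lg_analyticAt hf hfne hx1 h0
  have hb := lg_analyticAt hh hne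
  have t1 : Tendsto (fun y : ℂ × ℂ => (lg f y.1)⁻¹) (𝓝 x) (𝓝 0) := by
    have : Tendsto (fun z => (lg f z)⁻¹) (𝓝 x.1) (𝓝 0) := by
      have := ha.continuousAt.tendsto
      rwa [ha0] at this
    exact this.comp continuous_fst.continuousAt
  have t2 : Tendsto (fun y : ℂ × ℂ => lg h y.2) (𝓝 x) (𝓝 (lg h x.2)) :=
    hb.continuousAt.tendsto.comp continuous_snd.continuousAt
  have t3 := t1.mul t2
  rw [zero_mul] at t3
  have t4 : ∀ᶠ y : ℂ × ℂ in 𝓝 x, (lg f y.1)⁻¹ * lg h y.2 ≠ 1 := by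
    apply t3.eventually_ne
    exact zero_ne_one
  obtain ⟨y, ⟨hy1, hy2⟩, hy3⟩ := (hfreq.and_eventually t4).exists
  apply hy3
  rw [← hy1, inv_mul_cancel₀ hy2]

theorem disc_of_closure {f h : ℂ → ℂ} (hf : Differentiable ℂ f) (hh : Differentiable ℂ h)
    (hfm : ¬ ∃ (c : ℂ) (m : ℕ), ∀ z, f z = c * z ^ m)
    (hhm : ¬ ∃ (c : ℂ) (m : ℕ), ∀ z, h z = c * z ^ m) {m : ℂ}
    {T : Set (ℂ × ℂ)} (hT : T.Countable) {x0 : ℂ × ℂ} {x : ℂ × ℂ} (hx1 : x.1 ≠ 0) (hx2 : x.2 ≠ 0)
    (hx : x ∈ closure (GSet f h (connectedComponentIn (ISet f h m \ T) x0))) :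
    DiscAt f h (closure (GSet f h (connectedComponentIn (ISet f h m \ T) x0))) x := by
  set K := connectedComponentIn (ISet f h m \ T) x0 with hK
  have hKsub : K ⊆ ISet f h m \ T := connectedComponentIn_subset _ _
  have hfne : ∃ z, f z ≠ 0 := by
    by_contra hc
    push Not at hc
    exact hfm ⟨0, 0, fun z => by rw [hc z]; simp⟩
  have hhne : ∃ z, h z ≠ 0 := by
    by_contra hc
    push Not at hc
    exact hhm ⟨0, 0, fun z => by rw [hc z]; simp⟩
  have hfreq : ∃ᶠ y : ℂ × ℂ in 𝓝 x, y ∈ GSet f h K := mem_closure_iff_frequently.mp hx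
  have hGlg : ∀ y ∈ GSet f h K, lg f y.1 = lg h y.2 ∧ lg f y.1 ≠ 0 := by
    intro y hy
    exact ⟨hy.2.2.1, (hKsub hy.2.2.2).1.2.1⟩
  have hV1 : ({0}ᶜ : Set ℂ) ∈ 𝓝 x.1 := isOpen_compl_singleton.mem_nhds hx1
  have hV2 : ({0}ᶜ : Set ℂ) ∈ 𝓝 x.2 := isOpen_compl_singleton.mem_nhds hx2
  by_cases h0 : f x.1 = 0
  · have h0' : h x.2 = 0 := zero_of_zero hf hh hfne hx1 (hfreq.mono hGlg) h0
    obtain ⟨a1, a2, a3⟩ := inv_lg_analyticAt hf hfne hx1 h0
    obtain ⟨b1, b2, b3⟩ := inv_lg_analyticAt hh hhne hx2 h0'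
    obtain ⟨N, de, hN, hde, hev⟩ := exists_discs a1 b1 (a2.trans b2.symm)
      (by
        intro hc
        obtain ⟨z, hz1, hz2⟩ := (a3.and (hc.filter_mono nhdsWithin_le_nhds)).exists
        exact hz1 (hz2.trans a2))
      (by
        intro hc
        obtain ⟨z, hz1, hz2⟩ := (b3.and (hc.filter_mono nhdsWithin_le_nhds)).exists
        exact hz1 (hz2.trans b2)) hV1 hV2
    obtain ⟨y, hyG, hyev⟩ := (hfreq.and_eventually hev).exists
    obtain ⟨Z, W, hZ0, hW0, hball, t1, ht1, hZt, hWt⟩ := hyev (by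
      rw [(hGlg y hyG).1])
    refine disc_of_param hf hT hde hZ0 hW0 (fun t ht => (hball t ht).1)
      (fun t ht => (hball t ht).2.1) (fun t ht => (hball t ht).2.2.1)
      (fun t ht => (hball t ht).2.2.2.1) (fun t ht => ?_) (fun c => ?_) ht1 ?_
    · have e1 := (hball t ht).2.2.2.2.1
      have e2 := (hball t ht).2.2.2.2.2
      exact inv_injective (e1.trans e2.symm)
    · refine (finite_pow_eq hN c⁻¹).subset ?_
      rintro t ⟨ht, htc⟩
      have e1 := (hball t ht).2.2.2.2.1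
      rw [a2, zero_add, htc] at e1
      exact e1.symm
    · rw [hZt, hWt]
      exact hyG
  · have h0' : h x.2 ≠ 0 := by
      intro hc
      apply h0
      have hfreq' : ∃ᶠ y : ℂ × ℂ in 𝓝 x.swap, lg h y.1 = lg f y.2 ∧ lg h y.1 ≠ 0 := by
        have hsw : Tendsto Prod.swap (𝓝 x) (𝓝 x.swap) := continuous_swap.continuousAt
        apply hsw.frequently
        refine hfreq.mono fun y hy => ?_
        obtain ⟨e1, e2⟩ := hGlg y hy
        exact ⟨e1.symm, by rw [Prod.fst_swap, ← e1]; exact e2⟩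
      exact zero_of_zero hh hf hhne (x := x.swap) hx2 hfreq' hc
    have a1 := lg_analyticAt hf h0
    have b1 := lg_analyticAt hh h0'
    have hceq : lg f x.1 = lg h x.2 := by
      by_contra hne
      have t1 : Tendsto (fun y : ℂ × ℂ => lg f y.1 - lg h y.2) (𝓝 x)
          (𝓝 (lg f x.1 - lg h x.2)) :=
        (a1.continuousAt.tendsto.comp continuous_fst.continuousAt).sub
          (b1.continuousAt.tendsto.comp continuous_snd.continuousAt)
      have t2 := t1.eventually_ne (sub_ne_zero.mpr hne)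
      obtain ⟨y, hy1, hy2⟩ := (hfreq.and_eventually t2).exists
      exact hy2 (sub_eq_zero.mpr (hGlg y hy1).1)
    obtain ⟨N, de, hN, hde, hev⟩ := exists_discs a1 b1 hceq
      (fun hc => hfm (monomial_of_lg_const hf h0 hc))
      (fun hc => hhm (monomial_of_lg_const hh h0' hc)) hV1 hV2
    obtain ⟨y, hyG, hyev⟩ := (hfreq.and_eventually hev).exists
    obtain ⟨Z, W, hZ0, hW0, hball, t1, ht1, hZt, hWt⟩ := hyev (hGlg y hyG).1
    refine disc_of_param hf hT hde hZ0 hW0 (fun t ht => (hball t ht).1)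
      (fun t ht => (hball t ht).2.1) (fun t ht => (hball t ht).2.2.1)
      (fun t ht => (hball t ht).2.2.2.1) (fun t ht => ?_) (fun c => ?_) ht1 ?_
    · exact (hball t ht).2.2.2.2.1.trans (hball t ht).2.2.2.2.2.symm
    · refine (finite_pow_eq hN (c - lg f x.1)).subset ?_
      rintro t ⟨ht, htc⟩
      have e1 := (hball t ht).2.2.2.2.1
      rw [htc] at e1
      change t ^ N = c - lg f x.1
      rw [e1]
      ring
    · rw [hZt, hWt]
      exact hyG

theorem small_products {f h : ℂ → ℂ} (hf : Differentiable ℂ f) (hh : Differentiable ℂ h)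
    (hfm : ¬ ∃ (c : ℂ) (m : ℕ), ∀ z, f z = c * z ^ m)
    (hhm : ¬ ∃ (c : ℂ) (m : ℕ), ∀ z, h z = c * z ^ m)
    (hord : analyticOrderNatAt f 0 = analyticOrderNatAt h 0) {m : ℂ}
    {T : Set (ℂ × ℂ)} (hT : T.Countable) {x0 : ℂ × ℂ} (hx0 : x0 ∈ ISet f h m \ T) {ep : ℝ}
    (hep : 0 < ep) : ∃ p ∈ connectedComponentIn (ISet f h m \ T) x0, ‖p.1‖ < ep := by
  by_contra hcon
  push Not at hcon
  set K := connectedComponentIn (ISet f h m \ T) x0 with hK
  have hx0K : x0 ∈ K := mem_connectedComponentIn hx0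
  have hne : (GSet f h K).Nonempty := by
    obtain ⟨-, -, -, y, hy1, hy2, hy3, hy4, hy5⟩ := hx0.1
    refine ⟨y, hy2, hy3, by rw [hy4, hy5], ?_⟩
    rw [hy1, hy4]
    exact hx0K
  have hlow : ∀ x ∈ closure (GSet f h K), ep ≤ ‖x.1‖ * ‖x.2‖ := by
    have hcl : IsClosed {x : ℂ × ℂ | ep ≤ ‖x.1‖ * ‖x.2‖} :=
      isClosed_le continuous_const (continuous_fst.norm.mul continuous_snd.norm)
    have : GSet f h K ⊆ {x : ℂ × ℂ | ep ≤ ‖x.1‖ * ‖x.2‖} := by
      intro y hy
      have := hcon _ hy.2.2.2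
      simp only [norm_mul] at this
      exact this
    exact closure_minimal this hcl
  have hfne : ∃ z, f z ≠ 0 := by
    by_contra hc
    push Not at hc
    exact hfm ⟨0, 0, fun z => by rw [hc z]; simp⟩
  have hhne : ∃ z, h z ≠ 0 := by
    by_contra hc
    push Not at hc
    exact hhm ⟨0, 0, fun z => by rw [hc z]; simp⟩
  obtain ⟨p, q, c, C, hp, hq, hc, hid⟩ := exists_identity hf hh isClosed_closure hne.closure hep
    hlow (fun x hx => by
      have h1 := hlow x hx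
      have hx1 : x.1 ≠ 0 := by
        intro h0
        rw [h0, norm_zero, zero_mul] at h1
        linarith
      have hx2 : x.2 ≠ 0 := by
        intro h0
        rw [h0, norm_zero, mul_zero] at h1
        linarith
      exact disc_of_closure hf hh hfm hhm hT hx1 hx2 hx)
  obtain ⟨u, hu, hu0, hfu⟩ := exists_factor hf hfne
  obtain ⟨v, hv, hv0, hhv⟩ := exists_factor hh hhne
  rw [← hord] at hhv
  obtain ⟨k, hk⟩ := const_of_identity hu hv hfu hhv hv0 hp hq hc hid
  exact hfm ⟨k, analyticOrderNatAt f 0, fun z => by rw [hfu z, hk z, mul_comm]⟩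

end Pool.Agent.Helper48.Ent
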