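import Mathlib

set_option autoImplicit false

open Topology

namespace Pool.Agent.Helper48.CommonValue

/-- `f` has the form `c z ^ m` -/
def IsMonomial (f : ℂ → ℂ) : Prop := ∃ (c : ℂ) (m : ℕ), ∀ z, f z = c * z ^ m

/-- The fibre `F(s, a)`: the pair `p` stands for `(s, a)` and the pair `y` for `(z, w)`. -/
def fibre (f : ℂ → ℂ) (p : ℂ × ℂ) : Set (ℂ × ℂ) :=
  {y | y.1 * y.2 = p.1 ∧ f y.1 ≠ 0 ∧ f (starRingEnd ℂ y.2) ≠ 0 ∧
    y.1 * deriv f y.1 / f y.1 = p.2 ∧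
    starRingEnd ℂ (starRingEnd ℂ y.2 * deriv f (starRingEnd ℂ y.2) / f (starRingEnd ℂ y.2)) = p.2}

/-- The set `I` of all `(s, a)` with `s ≠ 0`, `a ≠ 0`, `a ≠ m₀` and nonempty fibre, where `m₀` is
the order of vanishing of `f` at `0`. -/
def commonImage (f : ℂ → ℂ) : Set (ℂ × ℂ) :=
  {p | p.1 ≠ 0 ∧ p.2 ≠ 0 ∧ p.2 ≠ (analyticOrderNatAt f 0 : ℂ) ∧ (fibre f p).Nonempty}

/-- Admissible sets: countable, locally finite at the points of `I`, and such that the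
cardinality of the fibre is locally constant on `I \ T`. -/
def Admissible (f : ℂ → ℂ) (T : Set (ℂ × ℂ)) : Prop :=
  T.Countable ∧ (∀ p ∈ commonImage f, ∃ U ∈ 𝓝 p, (T ∩ U).Finite) ∧
    IsLocallyConstant (fun p : ↥(commonImage f \ T) => (fibre f p).encard)

end Pool.Agent.Helper48.CommonValue
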