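import Mathlib
import Pool.Agent.Helper48.EntCurve2
import Pool.Agent.Helper48.EntDefs

set_option autoImplicit false

open Filter Topology Set Metric

namespace Pool.Agent.Helper48.Ent

open Pool.Agent.Helper48.CommonValue

/-- the conjugate function -/
noncomputable def cj (f : ℂ → ℂ) (w : ℂ) : ℂ := starRingEnd ℂ (f (starRingEnd ℂ w))

theorem hasDerivAt_cj {f : ℂ → ℂ} (hf : Differentiable ℂ f) (w : ℂ) :
    HasDerivAt (cj f) (starRingEnd ℂ (deriv f (starRingEnd ℂ w))) w := by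
  have h := (hf (starRingEnd ℂ w)).hasDerivAt.conj_conj
  rw [Complex.conj_conj] at h
  exact h

theorem differentiable_cj {f : ℂ → ℂ} (hf : Differentiable ℂ f) : Differentiable ℂ (cj f) :=
  fun w => (hasDerivAt_cj hf w).differentiableAt

theorem lg_cj {f : ℂ → ℂ} (hf : Differentiable ℂ f) (w : ℂ) :
    lg (cj f) w = starRingEnd ℂ (starRingEnd ℂ w * deriv f (starRingEnd ℂ w) /
      f (starRingEnd ℂ w)) := by
  rw [lg, (hasDerivAt_cj hf w).deriv, cj, map_div₀, map_mul, Complex.conj_conj]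

theorem cj_ne_zero {f : ℂ → ℂ} {w : ℂ} : cj f w ≠ 0 ↔ f (starRingEnd ℂ w) ≠ 0 := by
  unfold cj
  simp

theorem not_monomial_cj {f : ℂ → ℂ} (hfm : ¬ ∃ (c : ℂ) (m : ℕ), ∀ z, f z = c * z ^ m) :
    ¬ ∃ (c : ℂ) (m : ℕ), ∀ z, cj f z = c * z ^ m := by
  rintro ⟨c, m, h⟩
  apply hfm
  refine ⟨starRingEnd ℂ c, m, fun z => ?_⟩
  have h1 := h (starRingEnd ℂ z)
  unfold cj at h1
  rw [Complex.conj_conj] at h1
  have h2 := congrArg (starRingEnd ℂ) h1
  rw [Complex.conj_conj, map_mul, map_pow, Complex.conj_conj] at h2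
  exact h2

theorem order_cj {f : ℂ → ℂ} (hf : Differentiable ℂ f) (hne : ∃ z, f z ≠ 0) :
    analyticOrderNatAt f 0 = analyticOrderNatAt (cj f) 0 := by
  obtain ⟨u, hu, hu0, hfu⟩ := exists_factor hf hne
  set m := analyticOrderNatAt f 0 with hm
  have h1 : analyticOrderAt (cj f) 0 = m := by
    rw [((differentiable_cj hf).analyticAt 0).analyticOrderAt_eq_natCast]
    refine ⟨cj u, (differentiable_cj hu).analyticAt 0, ?_, ?_⟩
    · rw [cj_ne_zero, map_zero]
      exact hu0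
    · apply Eventually.of_forall
      intro w
      unfold cj
      rw [hfu, map_mul, map_pow, Complex.conj_conj, sub_zero, smul_eq_mul]
  rw [analyticOrderNatAt, h1]
  rfl

theorem commonImage_eq {f : ℂ → ℂ} (hf : Differentiable ℂ f) :
    commonImage f = ISet f (cj f) (analyticOrderNatAt f 0 : ℂ) := by
  ext p
  constructor
  · rintro ⟨h1, h2, h3, y, hy1, hy2, hy3, hy4, hy5⟩
    exact ⟨h1, h2, h3, y, hy1, hy2, cj_ne_zero.mpr hy3, hy4, by rw [lg_cj hf]; exact hy5⟩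
  · rintro ⟨h1, h2, h3, y, hy1, hy2, hy3, hy4, hy5⟩
    exact ⟨h1, h2, h3, y, hy1, hy2, cj_ne_zero.mp hy3, hy4, by rw [← lg_cj hf]; exact hy5⟩

theorem main {f : ℂ → ℂ} (hf : Differentiable ℂ f) (hfm : ¬ IsMonomial f)
    {T : Set (ℂ × ℂ)} (hT : T.Countable) {x : ℂ × ℂ} (hx : x ∈ commonImage f \ T) {ep : ℝ}
    (hep : 0 < ep) : ∃ p ∈ connectedComponentIn (commonImage f \ T) x, ‖p.1‖ < ep := by
  have hfne : ∃ z, f z ≠ 0 := by
    by_contra hc
    push Not at hc
    exact hfm ⟨0, 0, fun z => by rw [hc z]; simp⟩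
  rw [commonImage_eq hf] at hx ⊢
  exact small_products hf (differentiable_cj hf) hfm (not_monomial_cj hfm) (order_cj hf hfne) hT hx
    hep

end Pool.Agent.Helper48.Ent
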