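import Mathlib

set_option autoImplicit false

open Filter Topology Set

namespace Pool.Agent.Helper48.Luroth

/-- The Lüroth map: `L 0 = 0` and `L x = n (n + 1) x - n` for `x` in `(1/(n+1), 1/n]`,
where `n = floor (1 / x)`. -/
noncomputable def luroth (x : ℝ) : ℝ :=
  if x = 0 then 0 else (⌊1 / x⌋₊ : ℝ) * ((⌊1 / x⌋₊ : ℝ) + 1) * x - (⌊1 / x⌋₊ : ℝ)

/-- the asymptotic set of `x` -/
def asymptoticSet (x : ℝ) : Set ℝ :=
  {y | y ∈ Icc (0 : ℝ) 1 ∧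
    Tendsto (fun n : ℕ => |luroth^[n] x - luroth^[n] y|) atTop (𝓝 0)}

end Pool.Agent.Helper48.Luroth
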