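import Mathlib
import Pool.Agent.Helper48.LurothDefs

set_option autoImplicit false

open Filter Topology Set

namespace Pool.Agent.Helper48.Luroth

/-- the index of the branch containing `x` -/
noncomputable def dig (x : ℝ) : ℕ := ⌊1 / x⌋₊

/-- inverse branch -/
noncomputable def phi (b : ℕ) (z : ℝ) : ℝ := (z + b) / (b * (b + 1))

theorem luroth_zero : luroth 0 = 0 := by simp [luroth]

theorem luroth_of_ne {x : ℝ} (hx : x ≠ 0) :
    luroth x = (dig x : ℝ) * ((dig x : ℝ) + 1) * x - (dig x : ℝ) := by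
  simp [luroth, hx, dig]

theorem dig_pos {x : ℝ} (hx : x ∈ Ioc (0 : ℝ) 1) : 1 ≤ dig x := by
  unfold dig
  rw [Nat.one_le_floor_iff]
  rw [le_div_iff₀ hx.1]
  linarith [hx.2]

theorem dig_le {x : ℝ} (hx : x ∈ Ioc (0 : ℝ) 1) : (dig x : ℝ) * x ≤ 1 := by
  have h := Nat.floor_le (a := 1 / x) (by have := hx.1; positivity)
  have h2 : (dig x : ℝ) ≤ 1 / x := h
  rwa [le_div_iff₀ hx.1] at h2

theorem lt_dig_succ {x : ℝ} (hx : x ∈ Ioc (0 : ℝ) 1) : 1 < ((dig x : ℝ) + 1) * x := by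
  have h := Nat.lt_floor_add_one (1 / x)
  have h2 : 1 / x < (dig x : ℝ) + 1 := h
  rwa [div_lt_iff₀ hx.1] at h2

theorem luroth_mem {x : ℝ} (hx : x ∈ Ioc (0 : ℝ) 1) : luroth x ∈ Ioc (0 : ℝ) 1 := by
  rw [luroth_of_ne hx.1.ne']
  have h1 := dig_le hx
  have h2 := lt_dig_succ hx
  have h3 : (1 : ℝ) ≤ dig x := by exact_mod_cast dig_pos hx
  constructor
  · nlinarith
  · nlinarith

theorem luroth_le_one_of_mem_Icc {x : ℝ} (hx : x ∈ Icc (0 : ℝ) 1) :
    luroth x ∈ Icc (0 : ℝ) 1 := by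
  rcases hx.1.eq_or_lt with h | h
  · rw [← h, luroth_zero]; simp
  · have := luroth_mem ⟨h, hx.2⟩
    exact ⟨this.1.le, this.2⟩

theorem iterate_mem {x : ℝ} (hx : x ∈ Ioc (0 : ℝ) 1) (n : ℕ) : luroth^[n] x ∈ Ioc (0 : ℝ) 1 := by
  induction n with
  | zero => simpa using hx
  | succ n ih => rw [Function.iterate_succ_apply']; exact luroth_mem ih

theorem iterate_zero (n : ℕ) : luroth^[n] 0 = 0 := by
  induction n with
  | zero => simp
  | succ n ih => rw [Function.iterate_succ_apply', ih, luroth_zero]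

theorem phi_luroth {x : ℝ} (hx : x ∈ Ioc (0 : ℝ) 1) : phi (dig x) (luroth x) = x := by
  rw [luroth_of_ne hx.1.ne', phi]
  have h3 : (1 : ℝ) ≤ dig x := by exact_mod_cast dig_pos hx
  field_simp
  ring

theorem dig_eq {b : ℕ} (hb : 1 ≤ b) {x : ℝ} (h1 : 1 < ((b : ℝ) + 1) * x) (h2 : (b : ℝ) * x ≤ 1) :
    dig x = b := by
  have hb' : (1 : ℝ) ≤ b := by exact_mod_cast hb
  have hx : 0 < x := by nlinarith
  unfold dig
  rw [Nat.floor_eq_iff (by positivity)]
  constructor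
  · rw [le_div_iff₀ hx]; exact h2
  · rw [div_lt_iff₀ hx]; exact h1

theorem phi_mem {b : ℕ} (hb : 1 ≤ b) {z : ℝ} (hz : z ∈ Ioc (0 : ℝ) 1) :
    phi b z ∈ Ioc (0 : ℝ) 1 := by
  have hb' : (1 : ℝ) ≤ b := by exact_mod_cast hb
  unfold phi
  constructor
  · have := hz.1
    positivity
  · rw [div_le_one (by positivity)]
    nlinarith [hz.2]

theorem dig_phi {b : ℕ} (hb : 1 ≤ b) {z : ℝ} (hz : z ∈ Ioc (0 : ℝ) 1) : dig (phi b z) = b := by
  have hb' : (1 : ℝ) ≤ b := by exact_mod_cast hb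
  apply dig_eq hb
  · unfold phi
    rw [← mul_div_assoc, lt_div_iff₀ (by positivity)]
    nlinarith [hz.1]
  · unfold phi
    rw [← mul_div_assoc, div_le_one (by positivity)]
    nlinarith [hz.2]

theorem luroth_phi {b : ℕ} (hb : 1 ≤ b) {z : ℝ} (hz : z ∈ Ioc (0 : ℝ) 1) :
    luroth (phi b z) = z := by
  have h := phi_mem hb hz
  rw [luroth_of_ne h.1.ne', dig_phi hb hz]
  have hb' : (1 : ℝ) ≤ b := by exact_mod_cast hb
  unfold phi
  field_simp
  ring

theorem phi_sub (b : ℕ) (hb : 1 ≤ b) (z w : ℝ) :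
    phi b z - phi b w = (z - w) / (b * (b + 1)) := by
  have hb' : (1 : ℝ) ≤ b := by exact_mod_cast hb
  unfold phi
  field_simp
  ring

/-- the map is the one in the problem -/
theorem luroth_spec {n : ℕ} (hn : 1 ≤ n) {x : ℝ} (hx : x ∈ Ioc (1 / ((n : ℝ) + 1)) (1 / n)) :
    luroth x = n * (n + 1) * x - n := by
  have hn' : (1 : ℝ) ≤ n := by exact_mod_cast hn
  have hx0 : 0 < x := lt_trans (by positivity) hx.1
  have h1 : 1 < ((n : ℝ) + 1) * x := by
    have := hx.1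
    rw [div_lt_iff₀ (by positivity)] at this
    linarith
  have h2 : (n : ℝ) * x ≤ 1 := by
    have := hx.2
    rw [le_div_iff₀ (by positivity)] at this
    linarith
  rw [luroth_of_ne hx0.ne', dig_eq hn h1 h2]

end Pool.Agent.Helper48.Luroth
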