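import Mathlib
import Pool.Agent.Helper48.LurothBasic

set_option autoImplicit false

open Filter Topology Set MeasureTheory
open scoped ENNReal NNReal

namespace Pool.Agent.Helper48.Luroth

/-- contraction ratio of the branch -/
noncomputable def cr (b : ℕ) : ℝ≥0 := 1 / ((b : ℝ≥0) * (b + 1))

theorem phi_lipschitz {b : ℕ} (hb : 1 ≤ b) : LipschitzWith (cr b) (phi b) := by
  apply LipschitzWith.of_dist_le_mul
  intro z w
  rw [Real.dist_eq, Real.dist_eq, phi_sub b hb, abs_div]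
  have hb' : (1 : ℝ) ≤ b := by exact_mod_cast hb
  have h : |(b : ℝ) * (b + 1)| = (b : ℝ) * (b + 1) := abs_of_nonneg (by positivity)
  rw [h]
  simp only [cr]
  push_cast
  rw [div_eq_mul_inv, mul_comm, one_div]

theorem cr_le_half {b : ℕ} (hb : 1 ≤ b) : cr b ≤ 1 / 2 := by
  have hb' : (1 : ℝ≥0) ≤ b := by exact_mod_cast hb
  unfold cr
  apply one_div_le_one_div_of_le (by norm_num)
  calc (2 : ℝ≥0) = 1 * (1 + 1) := by norm_num
    _ ≤ (b : ℝ≥0) * (b + 1) := by gcongr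

theorem dimH_preimage_le (E : Set ℝ) :
    dimH {y | y ∈ Ioc (0 : ℝ) 1 ∧ luroth y ∈ E} ≤ dimH E := by
  have hsub : {y | y ∈ Ioc (0 : ℝ) 1 ∧ luroth y ∈ E} ⊆ ⋃ b : ℕ, phi (b + 1) '' E := by
    rintro y ⟨hy, hyE⟩
    rw [mem_iUnion]
    refine ⟨dig y - 1, luroth y, hyE, ?_⟩
    rw [Nat.sub_add_cancel (dig_pos hy)]
    exact phi_luroth hy
  refine (dimH_mono hsub).trans ?_
  rw [dimH_iUnion]
  exact iSup_le fun b => (phi_lipschitz (Nat.succ_le_succ (Nat.zero_le b))).dimH_image_le E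

theorem dimH_iterate_preimage_le (E : Set ℝ) (n : ℕ) :
    dimH {y | y ∈ Ioc (0 : ℝ) 1 ∧ luroth^[n] y ∈ E} ≤ dimH E := by
  induction n with
  | zero => exact dimH_mono (fun y hy => hy.2)
  | succ n ih =>
    refine le_trans ?_ ((dimH_preimage_le {y | y ∈ Ioc (0 : ℝ) 1 ∧ luroth^[n] y ∈ E}).trans ih)
    apply dimH_mono
    rintro y ⟨hy, hyE⟩
    refine ⟨hy, luroth_mem hy, ?_⟩
    rwa [Function.iterate_succ_apply] at hyE

theorem no_jump {N : ℕ} {u v : ℝ} (hu : u ∈ Ioc (0 : ℝ) 1) (hv : v ∈ Ioc (0 : ℝ) 1)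
    (h1 : |u - v| < 1 / (4 * ((N : ℝ) + 1) ^ 2)) (h2 : |luroth u - luroth v| < 1 / 2)
    (hN : dig u < N) (hlt : dig u < dig v) : False := by
  have ha1 : (1 : ℝ) ≤ dig u := by exact_mod_cast dig_pos hu
  have haN : (dig u : ℝ) + 1 ≤ N := by exact_mod_cast hN
  have hab : (dig u : ℝ) + 1 ≤ dig v := by exact_mod_cast hlt
  have hu1 := lt_dig_succ hu
  have hv1 := dig_le hv
  have hv2 := lt_dig_succ hv
  set a : ℝ := ((dig u : ℕ) : ℝ) with ha
  set b : ℝ := ((dig v : ℕ) : ℝ) with hb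
  set e : ℝ := 1 / (4 * ((N : ℝ) + 1) ^ 2) with he
  have hv3 : (a + 1) * v ≤ 1 := by nlinarith [hv.1]
  have hN0 : (0 : ℝ) ≤ N := by positivity
  have hepos : 0 < e := by positivity
  have hee : ((N : ℝ) + 1) ^ 2 * e = 1 / 4 := by
    rw [he]; field_simp
  have hprod : (a + 1) * (a + 2) * e ≤ 1 / 4 := by
    rw [← hee]
    apply mul_le_mul_of_nonneg_right _ hepos.le
    nlinarith
  rw [abs_lt] at h1
  have hvl : u - e < v := by linarith [h1.2]
  have k1 : (a + 1) * (a + 2) * (u - e) < (a + 1) * (a + 2) * v :=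
    mul_lt_mul_of_pos_left hvl (by positivity)
  have k2 : (a + 2) * 1 < (a + 2) * ((a + 1) * u) :=
    mul_lt_mul_of_pos_left hu1 (by positivity)
  have hb2 : b < a + 2 := by
    by_contra hcon
    push Not at hcon
    have h3 : (a + 2) * v ≤ 1 := by nlinarith [hv.1]
    have k3 : (a + 1) * ((a + 2) * v) ≤ (a + 1) * 1 :=
      mul_le_mul_of_nonneg_left h3 (by positivity)
    nlinarith
  have hbN : dig v < dig u + 2 := by
    have : (dig v : ℝ) < (dig u : ℝ) + 2 := hb2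
    exact_mod_cast this
  have hbe : dig v = dig u + 1 := by omega
  have hbe' : b = a + 1 := by rw [hb, hbe]; push_cast; rfl
  rw [luroth_of_ne hu.1.ne', luroth_of_ne hv.1.ne', abs_lt] at h2
  rw [← ha, ← hb, hbe'] at h2
  have h4 := h2.1
  have k4 : (a + 1) * (a + 2) * (u - e) = (a + 1) * (a + 2) * u - (a + 1) * (a + 2) * e := by ring
  nlinarith

theorem char_forward {x y : ℝ} (hx : x ∈ Ioc (0 : ℝ) 1) (hy : y ∈ Ioc (0 : ℝ) 1)
    (h : Tendsto (fun n : ℕ => |luroth^[n] x - luroth^[n] y|) atTop (𝓝 0)) (N : ℕ) :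
    ∀ᶠ n in atTop, dig (luroth^[n] y) = dig (luroth^[n] x) ∨
      (N ≤ dig (luroth^[n] x) ∧ N ≤ dig (luroth^[n] y)) := by
  have e1 : ∀ᶠ n in atTop, |luroth^[n] x - luroth^[n] y| < 1 / (4 * ((N : ℝ) + 1) ^ 2) :=
    h.eventually_lt_const (by positivity)
  have e2 : ∀ᶠ n in atTop, |luroth^[n] x - luroth^[n] y| < 1 / 2 :=
    h.eventually_lt_const (by positivity)
  have e3 := (tendsto_add_atTop_nat 1).eventually e2
  filter_upwards [e1, e3] with n h1 h3
  rw [Function.iterate_succ_apply', Function.iterate_succ_apply'] at h3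
  by_contra hcon
  push Not at hcon
  obtain ⟨hne, himp⟩ := hcon
  rcases lt_or_gt_of_ne hne with hlt | hgt
  · -- dig y < dig x
    have hyN : dig (luroth^[n] y) < N := by
      by_contra hc
      push Not at hc
      have := himp (hc.trans hlt.le)
      omega
    rw [abs_sub_comm] at h1 h3
    exact no_jump (iterate_mem hy n) (iterate_mem hx n) h1 h3 hyN hlt
  · have hxN : dig (luroth^[n] x) < N := by
      by_contra hc
      push Not at hc
      have := himp hc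
      omega
    exact no_jump (iterate_mem hx n) (iterate_mem hy n) h1 h3 hxN hgt

theorem char_zero {y : ℝ} (hy : y ∈ Ioc (0 : ℝ) 1)
    (h : Tendsto (fun n : ℕ => |luroth^[n] 0 - luroth^[n] y|) atTop (𝓝 0)) (N : ℕ) :
    ∀ᶠ n in atTop, N ≤ dig (luroth^[n] y) := by
  have e1 : ∀ᶠ n in atTop, |luroth^[n] 0 - luroth^[n] y| < 1 / ((N : ℝ) + 1) :=
    h.eventually_lt_const (by positivity)
  filter_upwards [e1] with n h1
  rw [iterate_zero] at h1
  have hz := iterate_mem hy n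
  rw [zero_sub, abs_neg, abs_of_pos hz.1] at h1
  have h2 := lt_dig_succ hz
  rw [lt_div_iff₀ (by positivity)] at h1
  have h3 : ((N : ℝ) + 1) < (dig (luroth^[n] y) : ℝ) + 1 := by
    by_contra hc
    push Not at hc
    nlinarith [hz.1]
  have h4 : (N : ℝ) < (dig (luroth^[n] y) : ℝ) := by linarith
  exact_mod_cast h4.le

/-- points all of whose digits are prescribed or large -/
def Elarge (al : ℕ → ℕ) (N n : ℕ) : Set ℝ :=
  {z | z ∈ Ioc (0 : ℝ) 1 ∧ ∀ k, dig (luroth^[k] z) = al (n + k) ∨ N ≤ dig (luroth^[k] z)}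

theorem asymptoticSet_subset {x : ℝ} (hx : x ∈ Icc (0 : ℝ) 1) (N : ℕ) :
    ∃ al : ℕ → ℕ, (∀ n, 1 ≤ al n) ∧
      asymptoticSet x ⊆ {0} ∪ ⋃ n : ℕ, {y | y ∈ Ioc (0 : ℝ) 1 ∧ luroth^[n] y ∈ Elarge al N n} := by
  rcases hx.1.eq_or_lt with h0 | h0
  · refine ⟨fun _ => 1, fun _ => le_rfl, ?_⟩
    rintro y ⟨hy, hlim⟩
    rcases hy.1.eq_or_lt with h0' | h0'
    · left; exact h0'.symm
    · right
      have hy' : y ∈ Ioc (0 : ℝ) 1 := ⟨h0', hy.2⟩
      rw [← h0] at hlim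
      obtain ⟨n, hn⟩ := eventually_atTop.mp (char_zero hy' hlim N)
      rw [mem_iUnion]
      refine ⟨n, hy', iterate_mem hy' n, fun k => Or.inr ?_⟩
      rw [← Function.iterate_add_apply]
      exact hn _ (by omega)
  · have hx' : x ∈ Ioc (0 : ℝ) 1 := ⟨h0, hx.2⟩
    refine ⟨fun n => dig (luroth^[n] x), fun n => dig_pos (iterate_mem hx' n), ?_⟩
    rintro y ⟨hy, hlim⟩
    rcases hy.1.eq_or_lt with h0' | h0'
    · left; exact h0'.symm
    · right
      have hy' : y ∈ Ioc (0 : ℝ) 1 := ⟨h0', hy.2⟩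
      obtain ⟨n, hn⟩ := eventually_atTop.mp (char_forward hx' hy' hlim N)
      rw [mem_iUnion]
      refine ⟨n, hy', iterate_mem hy' n, fun k => ?_⟩
      rw [← Function.iterate_add_apply, Nat.add_comm k n]
      rcases hn (n + k) (by omega) with h | h
      · left; exact h
      · right; exact h.2

end Pool.Agent.Helper48.Luroth
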