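import Mathlib
import Pool.Agent.Helper48.LurothUpper

set_option autoImplicit false

open Filter Topology Set MeasureTheory
open scoped ENNReal NNReal

namespace Pool.Agent.Helper48.Luroth

theorem ediam_phi_image {b : ℕ} (hb : 1 ≤ b) (U : Set ℝ) :
    Metric.ediam (phi b '' U) ≤ (cr b : ℝ≥0∞) * Metric.ediam U :=
  (phi_lipschitz hb).ediam_image_le U

/-- total weight of the allowed digits -/
noncomputable def wt (s : ℝ) (N : ℕ) : ℝ≥0∞ :=
  ((1 / 2 : ℝ≥0) : ℝ≥0∞) ^ s + ∑' j : ℕ, (cr (N + j) : ℝ≥0∞) ^ s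

theorem cover_exists {al : ℕ → ℕ} (hal : ∀ n, 1 ≤ al n) {N : ℕ} (hN : 1 ≤ N) {s : ℝ} (hs : 0 < s)
    (m : ℕ) : ∀ n, ∃ U : ℕ → Set ℝ, Elarge al N n ⊆ ⋃ i, U i ∧
      (∀ i, Metric.ediam (U i) ≤ ((1 / 2 : ℝ≥0) : ℝ≥0∞) ^ m) ∧
      ∑' i, Metric.ediam (U i) ^ s ≤ wt s N ^ m := by
  induction m with
  | zero =>
    intro n
    refine ⟨fun i => if i = 0 then Icc 0 1 else ∅, ?_, ?_, ?_⟩
    · intro z hz
      rw [mem_iUnion]
      exact ⟨0, by simpa using ⟨hz.1.1.le, hz.1.2⟩⟩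
    · intro i
      by_cases h : i = 0
      · simp [h, Real.ediam_Icc]
      · simp [h]
    · rw [tsum_eq_single 0]
      · simp [Real.ediam_Icc]
      · intro i hi
        simp [hi, hs]
  | succ m ih =>
    intro n
    obtain ⟨U, hU1, hU2, hU3⟩ := ih (n + 1)
    set be : ℕ → ℕ := fun j => if j = 0 then al n else N + (j - 1) with hbe
    have hbe1 : ∀ j, 1 ≤ be j := by
      intro j
      simp only [hbe]
      split_ifs
      · exact hal n
      · omega
    refine ⟨fun i => phi (be (Nat.unpair i).1) '' U (Nat.unpair i).2, ?_, ?_, ?_⟩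
    · intro z hz
      obtain ⟨hz1, hz2⟩ := hz
      have hz3 : luroth z ∈ Elarge al N (n + 1) := by
        refine ⟨luroth_mem hz1, fun k => ?_⟩
        have := hz2 (k + 1)
        rw [Function.iterate_succ_apply] at this
        rwa [show n + 1 + k = n + (k + 1) by ring]
      obtain ⟨i, hi⟩ := mem_iUnion.mp (hU1 hz3)
      have hj : ∃ j, be j = dig z := by
        rcases hz2 0 with h | h
        · refine ⟨0, ?_⟩
          simp only [Function.iterate_zero, id] at h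
          simp [hbe, h]
        · refine ⟨dig z - N + 1, ?_⟩
          simp only [Function.iterate_zero, id] at h
          simp [hbe]
          omega
      obtain ⟨j, hj⟩ := hj
      rw [mem_iUnion]
      refine ⟨Nat.pair j i, ?_⟩
      simp only [Nat.unpair_pair]
      exact ⟨luroth z, hi, by rw [hj]; exact phi_luroth hz1⟩
    · intro i
      refine (ediam_phi_image (hbe1 _) _).trans ?_
      rw [pow_succ, mul_comm]
      refine mul_le_mul' (hU2 _) ?_
      exact_mod_cast cr_le_half (hbe1 _)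
    · have h1 : ∑' i, Metric.ediam (phi (be (Nat.unpair i).1) '' U (Nat.unpair i).2) ^ s
          ≤ ∑' i, ((cr (be (Nat.unpair i).1) : ℝ≥0∞) ^ s) *
            (Metric.ediam (U (Nat.unpair i).2) ^ s) := by
        apply ENNReal.tsum_le_tsum
        intro i
        rw [← ENNReal.mul_rpow_of_nonneg _ _ hs.le]
        exact ENNReal.rpow_le_rpow (ediam_phi_image (hbe1 _) _) hs.le
      have h2 : ∑' i, ((cr (be (Nat.unpair i).1) : ℝ≥0∞) ^ s) *
            (Metric.ediam (U (Nat.unpair i).2) ^ s)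
          = ∑' p : ℕ × ℕ, ((cr (be p.1) : ℝ≥0∞) ^ s) * (Metric.ediam (U p.2) ^ s) := by
        rw [← Nat.pairEquiv.symm.tsum_eq]
        rfl
      have h3 : ∑' p : ℕ × ℕ, ((cr (be p.1) : ℝ≥0∞) ^ s) * (Metric.ediam (U p.2) ^ s)
          = (∑' j, (cr (be j) : ℝ≥0∞) ^ s) * ∑' i, Metric.ediam (U i) ^ s := by
        rw [ENNReal.tsum_prod (f := fun a b => ((cr (be a) : ℝ≥0∞) ^ s) * (Metric.ediam (U b) ^ s)),
          ← ENNReal.tsum_mul_right]
        congr 1
        funext j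
        rw [ENNReal.tsum_mul_left]
      have h4 : (∑' j, (cr (be j) : ℝ≥0∞) ^ s) ≤ wt s N := by
        rw [tsum_eq_zero_add' ENNReal.summable]
        unfold wt
        apply add_le_add
        · apply ENNReal.rpow_le_rpow _ hs.le
          exact_mod_cast cr_le_half (hbe1 _)
        · apply le_of_eq
          congr 1
      rw [pow_succ, mul_comm (wt s N ^ m)]
      calc _ ≤ _ := h1
        _ = _ := h2
        _ = _ := h3
        _ ≤ _ := mul_le_mul' h4 hU3

theorem hausdorff_Elarge {al : ℕ → ℕ} (hal : ∀ n, 1 ≤ al n) {N : ℕ} (hN : 1 ≤ N) {s : ℝ}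
    (hs : 0 < s) (hw : wt s N < 1) (n : ℕ) : μH[s] (Elarge al N n) = 0 := by
  choose U hU1 hU2 hU3 using fun m => cover_exists hal hN hs m n
  have hr : Tendsto (fun m : ℕ => ((1 / 2 : ℝ≥0) : ℝ≥0∞) ^ m) atTop (𝓝 0) := by
    apply ENNReal.tendsto_pow_atTop_nhds_zero_of_lt_one
    have : (1 / 2 : ℝ≥0) < 1 := by
      rw [div_lt_one (by norm_num)]
      norm_num
    exact_mod_cast this
  have h := Measure.hausdorffMeasure_le_liminf_tsum s (Elarge al N n) (l := atTop)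
    (fun m : ℕ => ((1 / 2 : ℝ≥0) : ℝ≥0∞) ^ m) hr U
    (Eventually.of_forall hU2) (Eventually.of_forall hU1)
  have h2 : liminf (fun m : ℕ => ∑' i, Metric.ediam (U m i) ^ s) atTop ≤ 0 := by
    have h3 : Tendsto (fun m : ℕ => wt s N ^ m) atTop (𝓝 0) :=
      ENNReal.tendsto_pow_atTop_nhds_zero_of_lt_one hw
    rw [← h3.liminf_eq]
    exact liminf_le_liminf (Eventually.of_forall hU3)
  exact le_antisymm (h.trans h2) zero_le

theorem wt_small {s : ℝ} (hs : 1 / 2 < s) : ∃ N, 1 ≤ N ∧ wt s N < 1 := by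
  have hs0 : 0 < s := by linarith
  have hsum : ∑' b : ℕ, (cr (b + 1) : ℝ≥0∞) ^ s ≠ ⊤ := by
    have h1 : ∀ b : ℕ, (cr (b + 1) : ℝ≥0∞) ^ s ≤ ENNReal.ofReal (1 / ((b + 1 : ℕ) : ℝ) ^ (2 * s)) := by
      intro b
      have h2 : (cr (b + 1) : ℝ≥0∞) = ENNReal.ofReal (1 / (((b + 1 : ℕ) : ℝ) * (((b + 1 : ℕ) : ℝ) + 1))) := by
        rw [ENNReal.ofReal, ENNReal.coe_inj]
        apply NNReal.eq
        rw [Real.coe_toNNReal _ (by positivity)]
        simp [cr]
      rw [h2, ENNReal.ofReal_rpow_of_nonneg (by positivity) hs0.le]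
      apply ENNReal.ofReal_le_ofReal
      rw [Real.div_rpow (by norm_num) (by positivity), Real.one_rpow]
      apply one_div_le_one_div_of_le (by positivity)
      rw [Real.rpow_mul (by positivity), Real.rpow_two]
      apply Real.rpow_le_rpow (by positivity) _ hs0.le
      nlinarith [show (0 : ℝ) ≤ ((b + 1 : ℕ) : ℝ) by positivity]
    have h3 : Summable (fun b : ℕ => 1 / ((b + 1 : ℕ) : ℝ) ^ (2 * s)) := by
      have := (Real.summable_one_div_nat_rpow (p := 2 * s)).mpr (by linarith)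
      exact (summable_nat_add_iff 1).mpr this
    refine ne_top_of_le_ne_top ?_ (ENNReal.tsum_le_tsum h1)
    rw [← ENNReal.ofReal_tsum_of_nonneg (fun b => by positivity) h3]
    exact ENNReal.ofReal_ne_top
  have h4 := ENNReal.tendsto_sum_nat_add (fun b : ℕ => (cr (b + 1) : ℝ≥0∞) ^ s) hsum
  have h5 : ((1 / 2 : ℝ≥0) : ℝ≥0∞) ^ s < 1 := by
    apply ENNReal.rpow_lt_one _ hs0
    have : (1 / 2 : ℝ≥0) < 1 := by
      rw [div_lt_one (by norm_num)]
      norm_num
    exact_mod_cast this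
  have h6 : Tendsto (fun i : ℕ => ((1 / 2 : ℝ≥0) : ℝ≥0∞) ^ s +
      ∑' k : ℕ, (cr (k + i + 1) : ℝ≥0∞) ^ s) atTop (𝓝 (((1 / 2 : ℝ≥0) : ℝ≥0∞) ^ s + 0)) :=
    tendsto_const_nhds.add h4
  rw [add_zero] at h6
  obtain ⟨i, hi⟩ := (h6.eventually_lt_const h5).exists
  refine ⟨i + 1, by omega, ?_⟩
  unfold wt
  convert hi using 3
  funext j
  congr 3
  ring

theorem dimH_asymptoticSet_le {x : ℝ} (hx : x ∈ Icc (0 : ℝ) 1) :
    dimH (asymptoticSet x) ≤ ((1 / 2 : ℝ≥0) : ℝ≥0∞) := by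
  by_contra hcon
  push Not at hcon
  obtain ⟨s, hs1, hs2⟩ := ENNReal.lt_iff_exists_nnreal_btwn.mp hcon
  have hs1' : (1 / 2 : ℝ≥0) < s := by exact_mod_cast hs1
  have hs : (1 / 2 : ℝ) < (s : ℝ) := by exact_mod_cast hs1'
  obtain ⟨N, hN, hw⟩ := wt_small hs
  obtain ⟨al, hal, hsub⟩ := asymptoticSet_subset hx N
  have h1 : dimH (asymptoticSet x) ≤ (s : ℝ≥0∞) := by
    refine (dimH_mono hsub).trans ?_
    rw [dimH_union, dimH_singleton, dimH_iUnion]
    refine max_le zero_le (iSup_le fun n => ?_)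
    refine (dimH_iterate_preimage_le _ n).trans ?_
    apply dimH_le_of_hausdorffMeasure_ne_top
    rw [hausdorff_Elarge hal hN (by linarith) hw n]
    exact ENNReal.zero_ne_top
  exact absurd hs2 (not_lt.mpr h1)

end Pool.Agent.Helper48.Luroth
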