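import Mathlib
import Pool.Agent.Helper48.LurothCover

set_option autoImplicit false

open Filter Topology Set MeasureTheory
open scoped ENNReal NNReal

namespace Pool.Agent.Helper48.Luroth

/-- inverse branch of a block `1 ^ g, b` -/
noncomputable def blk (g b : ℕ) (z : ℝ) : ℝ := 1 - (1 - phi b z) / 2 ^ g

theorem blk_zero (b : ℕ) (z : ℝ) : blk 0 b z = phi b z := by simp [blk]

theorem phi_one (z : ℝ) : phi 1 z = (z + 1) / 2 := by
  unfold phi; norm_num

theorem blk_succ (g b : ℕ) (z : ℝ) : blk (g + 1) b z = phi 1 (blk g b z) := by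
  rw [phi_one]
  unfold blk
  rw [pow_succ]
  field_simp
  ring

theorem blk_mem {g b : ℕ} (hb : 1 ≤ b) {z : ℝ} (hz : z ∈ Ioc (0 : ℝ) 1) :
    blk g b z ∈ Ioc (0 : ℝ) 1 := by
  induction g with
  | zero => rw [blk_zero]; exact phi_mem hb hz
  | succ g ih => rw [blk_succ]; exact phi_mem le_rfl ih

theorem blk_sub (g b : ℕ) (hb : 1 ≤ b) (z w : ℝ) :
    blk g b z - blk g b w = (z - w) / (2 ^ g * (b * (b + 1))) := by
  have h := phi_sub b hb z w
  have h2 : blk g b z - blk g b w = (phi b z - phi b w) / 2 ^ g := by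
    unfold blk; ring
  rw [h2, h, div_div, mul_comm]

theorem iterate_blk_le {g b : ℕ} (hb : 1 ≤ b) {z : ℝ} (hz : z ∈ Ioc (0 : ℝ) 1) {i : ℕ}
    (hi : i ≤ g) : luroth^[i] (blk g b z) = blk (g - i) b z := by
  induction i with
  | zero => simp
  | succ i ih =>
    rw [Function.iterate_succ_apply', ih (by omega)]
    have h : g - i = (g - (i + 1)) + 1 := by omega
    rw [h, blk_succ, luroth_phi le_rfl (blk_mem hb hz)]

theorem iterate_blk {g b : ℕ} (hb : 1 ≤ b) {z : ℝ} (hz : z ∈ Ioc (0 : ℝ) 1) :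
    luroth^[g + 1] (blk g b z) = z := by
  rw [Function.iterate_succ_apply', iterate_blk_le hb hz le_rfl, Nat.sub_self, blk_zero,
    luroth_phi hb hz]

theorem dig_blk_zero {b : ℕ} (hb : 1 ≤ b) {z : ℝ} (hz : z ∈ Ioc (0 : ℝ) 1) :
    dig (blk 0 b z) = b := by
  rw [blk_zero, dig_phi hb hz]

theorem dig_blk_succ {g b : ℕ} (hb : 1 ≤ b) {z : ℝ} (hz : z ∈ Ioc (0 : ℝ) 1) :
    dig (blk (g + 1) b z) = 1 := by
  rw [blk_succ, dig_phi le_rfl (blk_mem hb hz)]

/-- a chain with gap sequence `g` and free digits `b` -/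
structure IsChain' (g b : ℕ → ℕ) (z : ℕ → ℝ) : Prop where
  mem : ∀ k, z k ∈ Ioc (0 : ℝ) 1
  eq : ∀ k, z k = blk (g k) (b k) (z (k + 1))

/-- finite approximations of the chain -/
noncomputable def approx (g b : ℕ → ℕ) : ℕ → ℕ → ℝ
  | 0, _ => 1
  | m + 1, k => blk (g k) (b k) (approx g b m (k + 1))

theorem approx_mem {g b : ℕ → ℕ} (hb : ∀ k, 1 ≤ b k) (m k : ℕ) :
    approx g b m k ∈ Ioc (0 : ℝ) 1 := by
  induction m generalizing k with
  | zero => simp [approx]
  | succ m ih => rw [approx]; exact blk_mem (hb k) (ih (k + 1))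

theorem blk_mono {g b : ℕ} (hb : 1 ≤ b) {z w : ℝ} (h : z ≤ w) : blk g b z ≤ blk g b w := by
  have h1 := blk_sub g b hb w z
  have hb' : (1 : ℝ) ≤ b := by exact_mod_cast hb
  have h2 : 0 ≤ (w - z) / (2 ^ g * ((b : ℝ) * (b + 1))) := by
    apply div_nonneg (by linarith)
    positivity
  linarith

theorem approx_anti {g b : ℕ → ℕ} (hb : ∀ k, 1 ≤ b k) (m k : ℕ) :
    approx g b (m + 1) k ≤ approx g b m k := by
  induction m generalizing k with
  | zero => rw [approx]; exact (approx_mem hb 1 k).2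
  | succ m ih =>
    rw [approx, approx]
    exact blk_mono (hb k) (ih (k + 1))

theorem blk_continuous (g b : ℕ) : Continuous (blk g b) := by
  unfold blk phi
  fun_prop

theorem exists_chain (g b : ℕ → ℕ) (hb : ∀ k, 1 ≤ b k) : ∃ z, IsChain' g b z := by
  have hlim : ∀ k, ∃ l, Tendsto (fun m => approx g b m k) atTop (𝓝 l) := by
    intro k
    refine ⟨_, tendsto_atTop_ciInf (antitone_nat_of_succ_le fun m => approx_anti hb m k) ?_⟩
    refine ⟨0, ?_⟩
    rintro _ ⟨m, rfl⟩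
    exact (approx_mem hb m k).1.le
  choose z hz using hlim
  have hle1 : ∀ k, z k ≤ 1 := fun k =>
    le_of_tendsto (hz k) (Eventually.of_forall fun m => (approx_mem hb m k).2)
  have hge0 : ∀ k, 0 ≤ z k := fun k =>
    ge_of_tendsto (hz k) (Eventually.of_forall fun m => (approx_mem hb m k).1.le)
  have heq : ∀ k, z k = blk (g k) (b k) (z (k + 1)) := by
    intro k
    have h1 := (hz k).comp (tendsto_add_atTop_nat 1)
    have h2 : Tendsto (fun m => approx g b (m + 1) k) atTop (𝓝 (blk (g k) (b k) (z (k + 1)))) := by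
      have := ((blk_continuous (g k) (b k)).tendsto (z (k + 1))).comp (hz (k + 1))
      exact this
    exact tendsto_nhds_unique h1 h2
  have hpos : ∀ k, 0 < z k := by
    intro k
    rw [heq k]
    have h0 : blk (g k) (b k) 0 ≤ blk (g k) (b k) (z (k + 1)) := blk_mono (hb k) (hge0 _)
    refine lt_of_lt_of_le ?_ h0
    have hb' : (1 : ℝ) ≤ b k := by exact_mod_cast hb k
    unfold blk phi
    have h1 : (0 + (b k : ℝ)) / (b k * (b k + 1)) = 1 / (b k + 1) := by
      field_simp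
      ring
    rw [h1]
    have h2 : 0 < 1 / ((b k : ℝ) + 1) := by positivity
    have h3 : (1 : ℝ) ≤ 2 ^ (g k) := one_le_pow₀ (by norm_num)
    have h4 : (1 - 1 / ((b k : ℝ) + 1)) / 2 ^ (g k) < 1 := by
      rw [div_lt_one (by positivity)]
      linarith
    linarith
  exact ⟨z, fun k => ⟨hpos k, hle1 k⟩, heq⟩

/-- starting times of the blocks -/
def pos (g : ℕ → ℕ) (k : ℕ) : ℕ := ∑ i ∈ Finset.range k, (g i + 1)

theorem pos_zero (g : ℕ → ℕ) : pos g 0 = 0 := by simp [pos]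

theorem pos_succ (g : ℕ → ℕ) (k : ℕ) : pos g (k + 1) = pos g k + (g k + 1) := by
  simp [pos, Finset.sum_range_succ]

theorem le_pos (g : ℕ → ℕ) (k : ℕ) : k ≤ pos g k := by
  induction k with
  | zero => simp
  | succ k ih => rw [pos_succ]; omega

theorem pos_mono (g : ℕ → ℕ) : Monotone (pos g) :=
  monotone_nat_of_le_succ fun k => by rw [pos_succ]; omega

theorem exists_block (g : ℕ → ℕ) (n : ℕ) : ∃ k i, i ≤ g k ∧ n = pos g k + i := by
  induction n with
  | zero => exact ⟨0, 0, Nat.zero_le _, by simp [pos_zero]⟩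
  | succ n ih =>
    obtain ⟨k, i, hi, hn⟩ := ih
    rcases hi.eq_or_lt with h | h
    · refine ⟨k + 1, 0, Nat.zero_le _, ?_⟩
      rw [pos_succ]; omega
    · exact ⟨k, i + 1, h, by omega⟩

theorem IsChain'.iterate_pos {g b : ℕ → ℕ} {z : ℕ → ℝ} (h : IsChain' g b z) (hb : ∀ k, 1 ≤ b k)
    (k : ℕ) : luroth^[pos g k] (z 0) = z k := by
  induction k with
  | zero => simp [pos_zero]
  | succ k ih =>
    rw [pos_succ, Nat.add_comm, Function.iterate_add_apply, ih]
    nth_rw 1 [h.eq k]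
    exact iterate_blk (hb k) (h.mem (k + 1))

theorem IsChain'.iterate_block {g b : ℕ → ℕ} {z : ℕ → ℝ} (h : IsChain' g b z)
    (hb : ∀ k, 1 ≤ b k) (k i : ℕ) (hi : i ≤ g k) :
    luroth^[pos g k + i] (z 0) = blk (g k - i) (b k) (z (k + 1)) := by
  rw [Nat.add_comm, Function.iterate_add_apply, h.iterate_pos hb]
  nth_rw 1 [h.eq k]
  exact iterate_blk_le (hb k) (h.mem (k + 1)) hi

theorem abs_blk_sub_le {g b c N : ℕ} (hb : N ≤ b) (hc : N ≤ c) (hN : 1 ≤ N) {z w : ℝ}
    (hz : z ∈ Ioc (0 : ℝ) 1) (hw : w ∈ Ioc (0 : ℝ) 1) :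
    |blk g b z - blk g c w| ≤ (1 / N) / 2 ^ g := by
  have hb1 := phi_mem (hN.trans hb) hz
  have hc1 := phi_mem (hN.trans hc) hw
  have hN' : (1 : ℝ) ≤ N := by exact_mod_cast hN
  have key : ∀ {b : ℕ}, N ≤ b → ∀ {z : ℝ}, z ∈ Ioc (0 : ℝ) 1 → phi b z ≤ 1 / N := by
    intro b hb z hz
    have hb' : (N : ℝ) ≤ b := by exact_mod_cast hb
    unfold phi
    rw [div_le_div_iff₀ (by nlinarith) (by linarith)]
    nlinarith [hz.2]
  have h1 := key hb hz
  have h2 := key hc hw
  have h3 : blk g b z - blk g c w = (phi b z - phi c w) / 2 ^ g := by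
    unfold blk; ring
  rw [h3, abs_div, abs_of_pos (show (0 : ℝ) < 2 ^ g by positivity)]
  apply div_le_div_of_nonneg_right _ (by positivity)
  rw [abs_le]
  constructor
  · linarith [hb1.1]
  · linarith [hc1.1]

theorem chain_asymptotic {g b c : ℕ → ℕ} {z w : ℕ → ℝ} (hz : IsChain' g b z)
    (hw : IsChain' g c w) (hb : ∀ k, 1 ≤ b k) (hc : ∀ k, 1 ≤ c k)
    (hbt : Tendsto b atTop atTop) (hct : Tendsto c atTop atTop) :
    w 0 ∈ asymptoticSet (z 0) := by
  refine ⟨⟨(hw.mem 0).1.le, (hw.mem 0).2⟩, ?_⟩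
  rw [Metric.tendsto_atTop]
  intro e he
  obtain ⟨N, hN⟩ := exists_nat_gt (1 / e)
  have hN0 : (0 : ℝ) < N := lt_trans (by positivity) hN
  have hN1 : 1 ≤ N := by exact_mod_cast hN0
  have hNe : 1 / (N : ℝ) < e := by
    rw [div_lt_iff₀ hN0]
    rw [div_lt_iff₀ he] at hN
    linarith
  obtain ⟨k0, hk0⟩ := eventually_atTop.mp
    ((hbt.eventually_ge_atTop N).and (hct.eventually_ge_atTop N))
  refine ⟨pos g k0, fun n hn => ?_⟩
  obtain ⟨k, i, hi, rfl⟩ := exists_block g n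
  have hk : k0 ≤ k := by
    by_contra hcon
    push Not at hcon
    have h1 : pos g (k + 1) ≤ pos g k0 := pos_mono g hcon
    rw [pos_succ] at h1
    omega
  rw [Real.dist_eq, sub_zero, abs_abs, hz.iterate_block hb k i hi, hw.iterate_block hc k i hi]
  refine lt_of_le_of_lt (abs_blk_sub_le (hk0 k hk).1 (hk0 k hk).2 hN1 (hz.mem _) (hw.mem _)) ?_
  refine lt_of_le_of_lt ?_ hNe
  apply div_le_self (by positivity)
  exact one_le_pow₀ (by norm_num)

end Pool.Agent.Helper48.Luroth
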