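import Mathlib
import Pool.Agent.Helper48.LurothChain

set_option autoImplicit false

open Filter Topology Set MeasureTheory
open scoped ENNReal NNReal

namespace Pool.Agent.Helper48.Luroth

theorem eq_blk (g : ℕ) : ∀ {w : ℝ}, w ∈ Ioc (0 : ℝ) 1 → (∀ i < g, dig (luroth^[i] w) = 1) →
    w = blk g (dig (luroth^[g] w)) (luroth^[g + 1] w) := by
  induction g with
  | zero =>
    intro w hw _
    simp only [Function.iterate_zero, id, zero_add, Function.iterate_one]
    rw [blk_zero, phi_luroth hw]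
  | succ g ih =>
    intro w hw h
    have h1 := ih (luroth_mem hw) (fun i hi => by
      have := h (i + 1) (by omega)
      rwa [Function.iterate_succ_apply] at this)
    rw [blk_succ, Function.iterate_succ_apply, Function.iterate_succ_apply, ← h1]
    have h2 := h 0 (by omega)
    simp only [Function.iterate_zero, id] at h2
    have h3 := phi_luroth hw
    rw [h2] at h3
    exact h3.symm

/-- points with free digits at least `N` -/
def KSet (g : ℕ → ℕ) (N : ℕ) : Set ℝ :=
  {y | ∃ (w : ℕ → ℝ) (b : ℕ → ℕ), IsChain' g b w ∧ (∀ j, N ≤ b j) ∧ w 0 = y}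

theorem asymptotic_subset_K {g c : ℕ → ℕ} {z : ℕ → ℝ} (hz : IsChain' g c z)
    (hc : ∀ k, 1 ≤ c k) (hct : Tendsto c atTop atTop) (N : ℕ) :
    asymptoticSet (z 0) ⊆ {0} ∪ ⋃ k : ℕ,
      {y | y ∈ Ioc (0 : ℝ) 1 ∧ luroth^[pos g k] y ∈ KSet (fun j => g (k + j)) N} := by
  rintro y ⟨hy, hlim⟩
  rcases hy.1.eq_or_lt with h0 | h0
  · left; exact h0.symm
  right
  have hy' : y ∈ Ioc (0 : ℝ) 1 := ⟨h0, hy.2⟩
  obtain ⟨n0, hn0⟩ := eventually_atTop.mp (char_forward (hz.mem 0) hy' hlim (max N 2))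
  obtain ⟨k1, hk1⟩ := eventually_atTop.mp (hct.eventually_ge_atTop (max N 2))
  rw [mem_iUnion]
  set k0 := max n0 k1 with hk0
  have hone : ∀ k, k0 ≤ k → ∀ i < g k, dig (luroth^[pos g k + i] y) = 1 := by
    intro k hk i hi
    have h1 : n0 ≤ pos g k + i := by
      have := le_pos g k
      omega
    have h2 : dig (luroth^[pos g k + i] (z 0)) = 1 := by
      rw [hz.iterate_block hc k i hi.le]
      have : g k - i = (g k - i - 1) + 1 := by omega
      rw [this]
      exact dig_blk_succ (hc k) (hz.mem _)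
    rcases hn0 _ h1 with h | h
    · rw [h, h2]
    · exfalso
      have := h.1
      rw [h2] at this
      omega
  have hbig : ∀ k, k0 ≤ k → N ≤ dig (luroth^[pos g k + g k] y) := by
    intro k hk
    have h1 : n0 ≤ pos g k + g k := by
      have := le_pos g k
      omega
    have h2 : dig (luroth^[pos g k + g k] (z 0)) = c k := by
      rw [hz.iterate_block hc k (g k) le_rfl, Nat.sub_self]
      exact dig_blk_zero (hc k) (hz.mem _)
    have h3 := hk1 k (by omega)
    rcases hn0 _ h1 with h | h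
    · rw [h, h2]; omega
    · have := h.2
      omega
  refine ⟨k0, hy', ?_⟩
  refine ⟨fun j => luroth^[pos g (k0 + j)] y, fun j => dig (luroth^[pos g (k0 + j) + g (k0 + j)] y),
    ⟨fun j => iterate_mem hy' _, fun j => ?_⟩, fun j => hbig _ (by omega), by simp⟩
  have h := eq_blk (g (k0 + j)) (iterate_mem hy' (pos g (k0 + j))) (fun i hi => by
    rw [← Function.iterate_add_apply, Nat.add_comm]
    exact hone _ (by omega) i hi)
  rw [← Function.iterate_add_apply, ← Function.iterate_add_apply] at h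
  rw [show k0 + (j + 1) = (k0 + j) + 1 by ring, pos_succ]
  have e1 : g (k0 + j) + pos g (k0 + j) = pos g (k0 + j) + g (k0 + j) := Nat.add_comm _ _
  have e2 : g (k0 + j) + 1 + pos g (k0 + j) = pos g (k0 + j) + (g (k0 + j) + 1) := by ring
  rw [e1, e2] at h
  exact h

/-- product of contraction ratios along a chain -/
noncomputable def ratio (g b : ℕ → ℕ) (k : ℕ) : ℝ :=
  ∏ i ∈ Finset.range k, (2 ^ (g i) * ((b i : ℝ) * (b i + 1)))⁻¹

theorem ratio_pos {g b : ℕ → ℕ} (hb : ∀ k, 1 ≤ b k) (k : ℕ) : 0 < ratio g b k := by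
  apply Finset.prod_pos
  intro i _
  have : (1 : ℝ) ≤ b i := by exact_mod_cast hb i
  positivity

theorem chain_sub {g b c : ℕ → ℕ} {z w : ℕ → ℝ} (hz : IsChain' g b z) (hw : IsChain' g c w)
    (hb : ∀ k, 1 ≤ b k) (k : ℕ) (h : ∀ i < k, b i = c i) :
    z 0 - w 0 = ratio g b k * (z k - w k) := by
  induction k with
  | zero => simp [ratio]
  | succ k ih =>
    rw [ih (fun i hi => h i (by omega))]
    have h1 : z k - w k = (z (k + 1) - w (k + 1)) / (2 ^ (g k) * ((b k : ℝ) * (b k + 1))) := by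
      have e1 := hz.eq k
      have e2 := hw.eq k
      rw [← h k (by omega)] at e2
      rw [e1, e2]
      exact blk_sub _ _ (hb k) _ _
    rw [h1, ratio, ratio, Finset.prod_range_succ]
    rw [div_eq_mul_inv]
    ring

theorem tsum_pi_prod (f : ℕ → ℝ≥0∞) (k : ℕ) :
    ∑' v : Fin k → ℕ, ∏ i, f (v i) = (∑' b, f b) ^ k := by
  induction k with
  | zero =>
    rw [tsum_fintype]
    simp
  | succ k ih =>
    rw [← (Fin.consEquiv (fun _ : Fin (k + 1) => ℕ)).tsum_eq, pow_succ, ← ih]
    have : ∀ p : ℕ × (Fin k → ℕ), ∏ i : Fin (k + 1),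
        f ((Fin.consEquiv (fun _ : Fin (k + 1) => ℕ)) p i) = f p.1 * ∏ i, f (p.2 i) := by
      intro p
      rw [Fin.prod_univ_succ]
      rfl
    simp_rw [this]
    rw [ENNReal.tsum_prod (f := fun (a : ℕ) (b : Fin k → ℕ) => f a * ∏ i, f (b i))]
    simp_rw [ENNReal.tsum_mul_left]
    rw [ENNReal.tsum_mul_right, mul_comm]

end Pool.Agent.Helper48.Luroth
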