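import Mathlib
import Pool.Agent.Helper48.LurothGap

set_option autoImplicit false

open Filter Topology Set MeasureTheory
open scoped ENNReal NNReal

namespace Pool.Agent.Helper48.Luroth

/-- weight of a free digit -/
noncomputable def om (de : ℝ) (N v : ℕ) : ℝ≥0∞ := ENNReal.ofReal (((N + v : ℕ) : ℝ) ^ (-(1 + de)))

/-- weight of a dyadic scale -/
noncomputable def rho (de : ℝ) (j : ℕ) : ℝ≥0∞ := ENNReal.ofReal (((2 : ℝ) ^ j) ^ (-de))

/-- diameter bound -/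
noncomputable def dbound (g b : ℕ → ℕ) (k j : ℕ) : ℝ := ratio g b k * (2 ^ (g k))⁻¹ * (2 ^ j)⁻¹

/-- good scales -/
def Good (g b : ℕ → ℕ) (th de : ℝ) (k j : ℕ) : Prop :=
  (dbound g b k j) ^ th ≤ (∏ i ∈ Finset.range k, (b i : ℝ) ^ (-(1 + de))) * ((2 : ℝ) ^ j) ^ (-de)

/-- covering sets -/
def TSet (g : ℕ → ℕ) (N : ℕ) (th de : ℝ) (k : ℕ) (v : Fin k → ℕ) (j : ℕ) : Set ℝ :=
  {y | ∃ (w : ℕ → ℝ) (b : ℕ → ℕ), IsChain' g b w ∧ (∀ j, N ≤ b j) ∧ w 0 = y ∧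
    (∀ i : Fin k, b i = N + v i) ∧ 2 ^ j ≤ b k ∧ Good g b th de k j}

theorem ratio_congr {g b c : ℕ → ℕ} {k : ℕ} (h : ∀ i < k, b i = c i) :
    ratio g b k = ratio g c k := by
  unfold ratio
  apply Finset.prod_congr rfl
  intro i hi
  rw [h i (Finset.mem_range.mp hi)]

theorem ratio_le {g b : ℕ → ℕ} (hb : ∀ k, 1 ≤ b k) (k : ℕ) : ratio g b k ≤ (1 / 2) ^ k := by
  unfold ratio
  rw [← Finset.card_range k, ← Finset.prod_const]
  rw [Finset.card_range]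
  apply Finset.prod_le_prod
  · intro i _
    positivity
  · intro i _
    have hb' : (1 : ℝ) ≤ b i := by exact_mod_cast hb i
    have h3 : (1 : ℝ) ≤ 2 ^ (g i) := one_le_pow₀ (by norm_num)
    rw [one_div]
    apply inv_anti₀ (by norm_num)
    calc (2 : ℝ) = 1 * (1 * (1 + 1)) := by norm_num
      _ ≤ 2 ^ (g i) * ((b i : ℝ) * (b i + 1)) := by gcongr

theorem dbound_pos {g b : ℕ → ℕ} (hb : ∀ k, 1 ≤ b k) (k j : ℕ) : 0 < dbound g b k j := by
  have := ratio_pos (g := g) hb k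
  unfold dbound
  positivity

theorem TSet_diam_aux {g : ℕ → ℕ} {N : ℕ} (hN : 1 ≤ N) {th de : ℝ} {k : ℕ} {v : Fin k → ℕ}
    {j : ℕ} {b : ℕ → ℕ} (hb : ∀ j, N ≤ b j) (hv : ∀ i : Fin k, b i = N + v i) :
    Metric.ediam (TSet g N th de k v j) ≤ ENNReal.ofReal (dbound g b k j) := by
  have hb1 : ∀ k, 1 ≤ b k := fun k => hN.trans (hb k)
  apply Metric.ediam_le
  rintro x ⟨wx, bx, hwx, hbx, rfl, hvx, hjx, -⟩ y' ⟨wy, by', hwy, hby, rfl, hvy, hjy, -⟩
  have hbx1 : ∀ k, 1 ≤ bx k := fun k => hN.trans (hbx k)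
  have hxy : ∀ i < k, bx i = by' i := by
    intro i hi
    have h1 := hvx ⟨i, hi⟩
    have h2 := hvy ⟨i, hi⟩
    simp only at h1 h2
    rw [h1, h2]
  have hxb : ∀ i < k, bx i = b i := by
    intro i hi
    have h1 := hvx ⟨i, hi⟩
    have h2 := hv ⟨i, hi⟩
    simp only at h1 h2
    rw [h1, h2]
  rw [edist_dist, Real.dist_eq]
  apply ENNReal.ofReal_le_ofReal
  rw [chain_sub hwx hwy hbx1 k hxy, abs_mul, abs_of_pos (ratio_pos hbx1 k), ratio_congr hxb]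
  unfold dbound
  rw [mul_assoc]
  apply mul_le_mul_of_nonneg_left _ (ratio_pos hb1 k).le
  rw [hwx.eq k, hwy.eq k]
  have h := abs_blk_sub_le (g := g k) hjx hjy (Nat.one_le_two_pow) (hwx.mem (k + 1))
    (hwy.mem (k + 1))
  refine h.trans (le_of_eq ?_)
  push_cast
  rw [div_eq_mul_inv, mul_comm, one_div]

theorem TSet_ediam {g : ℕ → ℕ} {N : ℕ} (hN : 1 ≤ N) {th de : ℝ} {k : ℕ} {v : Fin k → ℕ} {j : ℕ} :
    Metric.ediam (TSet g N th de k v j) ≤ ((1 / 2 : ℝ≥0) : ℝ≥0∞) ^ k := by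
  rcases (TSet g N th de k v j).eq_empty_or_nonempty with h | h
  · rw [h]; simp
  · obtain ⟨y, w, b, -, hb, -, hv, -, -⟩ := h
    refine (TSet_diam_aux hN hb hv).trans ?_
    have hb1 : ∀ k, 1 ≤ b k := fun k => hN.trans (hb k)
    have h1 : dbound g b k j ≤ (1 / 2) ^ k := by
      unfold dbound
      have h2 := ratio_le (g := g) hb1 k
      have h3 := ratio_pos (g := g) hb1 k
      have h4 : ((2 : ℝ) ^ (g k))⁻¹ ≤ 1 := inv_le_one_of_one_le₀ (one_le_pow₀ (by norm_num))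
      have h5 : ((2 : ℝ) ^ j)⁻¹ ≤ 1 := inv_le_one_of_one_le₀ (one_le_pow₀ (by norm_num))
      calc ratio g b k * (2 ^ g k)⁻¹ * (2 ^ j)⁻¹ ≤ (1 / 2) ^ k * 1 * 1 := by gcongr
        _ = (1 / 2) ^ k := by ring
    refine (ENNReal.ofReal_le_ofReal h1).trans (le_of_eq ?_)
    rw [ENNReal.ofReal_pow (by norm_num)]
    congr 1
    rw [ENNReal.ofReal, ENNReal.coe_inj]
    apply NNReal.eq
    rw [Real.coe_toNNReal _ (by norm_num)]
    simp

theorem TSet_weight {g : ℕ → ℕ} {N : ℕ} (hN : 1 ≤ N) {th de : ℝ} (hth : 0 < th) {k : ℕ}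
    {v : Fin k → ℕ} {j : ℕ} :
    Metric.ediam (TSet g N th de k v j) ^ th ≤ (∏ i, om de N (v i)) * rho de j := by
  rcases (TSet g N th de k v j).eq_empty_or_nonempty with h | h
  · rw [h]; simp [hth]
  · obtain ⟨y, w, b, -, hb, -, hv, -, hg⟩ := h
    have h1 := TSet_diam_aux (g := g) (th := th) (de := de) (j := j) hN hb hv
    have hb1 : ∀ k, 1 ≤ b k := fun k => hN.trans (hb k)
    refine (ENNReal.rpow_le_rpow h1 hth.le).trans ?_
    rw [ENNReal.ofReal_rpow_of_nonneg (dbound_pos hb1 k j).le hth.le]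
    refine (ENNReal.ofReal_le_ofReal hg).trans (le_of_eq ?_)
    rw [ENNReal.ofReal_mul (Finset.prod_nonneg fun i _ => by positivity)]
    unfold rho om
    congr 1
    rw [ENNReal.ofReal_prod_of_nonneg (fun i _ => by positivity), Finset.prod_range]
    apply Finset.prod_congr rfl
    intro i _
    rw [hv i]

theorem rho_sum {de : ℝ} (hde : 0 < de) : ∑' j, rho de j ≠ ⊤ := by
  have h : ∀ j : ℕ, rho de j = ENNReal.ofReal (((2 : ℝ) ^ (-de)) ^ j) := by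
    intro j
    unfold rho
    congr 1
    rw [← Real.rpow_natCast, ← Real.rpow_natCast, ← Real.rpow_mul (by norm_num),
      ← Real.rpow_mul (by norm_num), mul_comm]
  simp_rw [h]
  have h2 : (2 : ℝ) ^ (-de) < 1 := Real.rpow_lt_one_of_one_lt_of_neg (by norm_num) (by linarith)
  have h3 : Summable (fun j : ℕ => ((2 : ℝ) ^ (-de)) ^ j) :=
    summable_geometric_of_lt_one (by positivity) h2
  rw [← ENNReal.ofReal_tsum_of_nonneg (fun j => by positivity) h3]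
  exact ENNReal.ofReal_ne_top

theorem om_small {de : ℝ} (hde : 0 < de) :
    ∃ N, 1 ≤ N ∧ ∑' v, om de N v ≤ ((1 / 2 : ℝ≥0) : ℝ≥0∞) := by
  have h3 : Summable (fun b : ℕ => ((b + 1 : ℕ) : ℝ) ^ (-(1 + de))) := by
    have := (Real.summable_nat_rpow (p := -(1 + de))).mpr (by linarith)
    exact (summable_nat_add_iff 1).mpr this
  have hsum : ∑' b : ℕ, ENNReal.ofReal (((b + 1 : ℕ) : ℝ) ^ (-(1 + de))) ≠ ⊤ := by
    rw [← ENNReal.ofReal_tsum_of_nonneg (fun j => by positivity) h3]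
    exact ENNReal.ofReal_ne_top
  have h4 := ENNReal.tendsto_sum_nat_add _ hsum
  have h5 : (0 : ℝ≥0∞) < ((1 / 2 : ℝ≥0) : ℝ≥0∞) := by
    have : (0 : ℝ≥0) < 1 / 2 := by positivity
    exact_mod_cast this
  obtain ⟨i, hi⟩ := (h4.eventually_lt_const h5).exists
  refine ⟨i + 1, by omega, le_of_lt ?_⟩
  convert hi using 3
  unfold om
  congr 3
  ring

theorem KSet_zero {g : ℕ → ℕ} {N : ℕ} (hN : 1 ≤ N) {th de : ℝ} (hth : 0 < th) (hde : 0 < de)
    (hom : ∑' v, om de N v ≤ ((1 / 2 : ℝ≥0) : ℝ≥0∞))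
    (hgood : ∀ b : ℕ → ℕ, (∀ j, N ≤ b j) → ∀ m, ∃ k, m ≤ k ∧ Good g b th de k (Nat.log 2 (b k))) :
    μH[th] (KSet g N) = 0 := by
  have hr : Tendsto (fun m : ℕ => ((1 / 2 : ℝ≥0) : ℝ≥0∞) ^ m) atTop (𝓝 0) := by
    apply ENNReal.tendsto_pow_atTop_nhds_zero_of_lt_one
    have : (1 / 2 : ℝ≥0) < 1 := by
      rw [div_lt_one (by norm_num)]
      norm_num
    exact_mod_cast this
  have h := Measure.hausdorffMeasure_le_liminf_tsum th (KSet g N) (l := atTop)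
    (fun m : ℕ => ((1 / 2 : ℝ≥0) : ℝ≥0∞) ^ m) hr
    (ι := fun m : ℕ => Σ k : ℕ, (Fin (m + k) → ℕ) × ℕ)
    (fun m p => TSet g N th de (m + p.1) p.2.1 p.2.2)
    (Eventually.of_forall fun m p => by
      refine (TSet_ediam hN).trans ?_
      have : (1 / 2 : ℝ≥0) ≤ 1 := by
        rw [div_le_one (by norm_num)]
        norm_num
      have h2 : ((1 / 2 : ℝ≥0) : ℝ≥0∞) ≤ 1 := by exact_mod_cast this
      exact pow_le_pow_of_le_one zero_le h2 (by omega))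
    (Eventually.of_forall fun m => by
      rintro y ⟨w, b, hw, hb, rfl⟩
      obtain ⟨k, hk, hgk⟩ := hgood b hb m
      obtain ⟨k', rfl⟩ := Nat.exists_eq_add_of_le hk
      rw [mem_iUnion]
      refine ⟨⟨k', fun i => b i - N, Nat.log 2 (b (m + k'))⟩, w, b, hw, hb, rfl, ?_, ?_, hgk⟩
      · intro i
        have := hb i
        simp only
        omega
      · apply Nat.pow_log_le_self
        have := hb (m + k')
        omega)
  refine le_antisymm (h.trans ?_) zero_le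
  set C := ∑' j, rho de j with hC
  have hbound : ∀ m : ℕ, ∑' p : (Σ k : ℕ, (Fin (m + k) → ℕ) × ℕ),
      Metric.ediam (TSet g N th de (m + p.1) p.2.1 p.2.2) ^ th
      ≤ ((1 / 2 : ℝ≥0) : ℝ≥0∞) ^ m * ((∑' k : ℕ, ((1 / 2 : ℝ≥0) : ℝ≥0∞) ^ k) * C) := by
    intro m
    calc ∑' p : (Σ k : ℕ, (Fin (m + k) → ℕ) × ℕ),
          Metric.ediam (TSet g N th de (m + p.1) p.2.1 p.2.2) ^ th
        ≤ ∑' p : (Σ k : ℕ, (Fin (m + k) → ℕ) × ℕ), (∏ i, om de N (p.2.1 i)) * rho de p.2.2 :=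
          ENNReal.tsum_le_tsum fun p => TSet_weight hN hth
      _ = ∑' k : ℕ, ∑' q : (Fin (m + k) → ℕ) × ℕ, (∏ i, om de N (q.1 i)) * rho de q.2 := by
          rw [ENNReal.tsum_sigma (f := fun (k : ℕ) (q : (Fin (m + k) → ℕ) × ℕ) =>
            (∏ i, om de N (q.1 i)) * rho de q.2)]
      _ = ∑' k : ℕ, (∑' v, om de N v) ^ (m + k) * C := by
          congr 1
          funext k
          rw [ENNReal.tsum_prod (f := fun (v : Fin (m + k) → ℕ) (j : ℕ) =>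
            (∏ i, om de N (v i)) * rho de j)]
          simp_rw [ENNReal.tsum_mul_left]
          rw [ENNReal.tsum_mul_right, tsum_pi_prod]
      _ ≤ ∑' k : ℕ, ((1 / 2 : ℝ≥0) : ℝ≥0∞) ^ (m + k) * C := by
          apply ENNReal.tsum_le_tsum
          intro k
          gcongr
      _ = ((1 / 2 : ℝ≥0) : ℝ≥0∞) ^ m * ((∑' k : ℕ, ((1 / 2 : ℝ≥0) : ℝ≥0∞) ^ k) * C) := by
          simp_rw [pow_add, mul_assoc]
          rw [ENNReal.tsum_mul_left, ENNReal.tsum_mul_right]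
  have hfin : (∑' k : ℕ, ((1 / 2 : ℝ≥0) : ℝ≥0∞) ^ k) * C ≠ ⊤ := by
    apply ENNReal.mul_ne_top _ (rho_sum hde)
    rw [ENNReal.tsum_geometric]
    apply ENNReal.inv_ne_top.mpr
    have : (1 / 2 : ℝ≥0) < 1 := by
      rw [div_lt_one (by norm_num)]
      norm_num
    have h2 : ((1 / 2 : ℝ≥0) : ℝ≥0∞) < 1 := by exact_mod_cast this
    exact (tsub_pos_of_lt h2).ne'
  have hlim : Tendsto (fun m : ℕ => ((1 / 2 : ℝ≥0) : ℝ≥0∞) ^ m *
      ((∑' k : ℕ, ((1 / 2 : ℝ≥0) : ℝ≥0∞) ^ k) * C)) atTop (𝓝 0) := by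
    have := ENNReal.Tendsto.mul_const hr (Or.inr hfin)
    rwa [zero_mul] at this
  rw [← hlim.liminf_eq]
  exact liminf_le_liminf (Eventually.of_forall hbound)

end Pool.Agent.Helper48.Luroth
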