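import Mathlib
import Pool.Agent.Helper48.LurothGap2

set_option autoImplicit false

open Filter Topology Set MeasureTheory
open scoped ENNReal NNReal

namespace Pool.Agent.Helper48.Luroth

theorem not_good_ineq {g b : ℕ → ℕ} {th de : ℝ} (hb : ∀ k, 1 ≤ b k) (hth : 0 < th) {k j : ℕ}
    (h : ¬ Good g b th de k j) :
    th * (g k * Real.log 2) + (th - de) * (j * Real.log 2) <
      (1 + de - 2 * th) * ∑ i ∈ Finset.range k, Real.log (b i) := by
  unfold Good at h
  push Not at h
  have hb' : ∀ i, (1 : ℝ) ≤ b i := fun i => by exact_mod_cast hb i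
  have hbp : ∀ i, (0 : ℝ) < b i := fun i => lt_of_lt_of_le one_pos (hb' i)
  have hpos : 0 < (∏ i ∈ Finset.range k, (b i : ℝ) ^ (-(1 + de))) * ((2 : ℝ) ^ j) ^ (-de) := by
    apply mul_pos
    · exact Finset.prod_pos fun i _ => Real.rpow_pos_of_pos (hbp i) _
    · positivity
  have hlog := Real.log_lt_log hpos h
  have hd := dbound_pos (g := g) hb k j
  have hr := ratio_pos (g := g) hb k
  rw [Real.log_rpow hd, Real.log_mul (Finset.prod_pos fun i _ =>
    Real.rpow_pos_of_pos (hbp i) _).ne' (by positivity), Real.log_rpow (by positivity),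
    Real.log_pow, Real.log_prod (fun i _ => (Real.rpow_pos_of_pos (hbp i) _).ne')] at hlog
  have h1 : ∑ i ∈ Finset.range k, Real.log ((b i : ℝ) ^ (-(1 + de)))
      = (-(1 + de)) * ∑ i ∈ Finset.range k, Real.log (b i) := by
    rw [Finset.mul_sum]
    exact Finset.sum_congr rfl fun i _ => Real.log_rpow (hbp i) _
  rw [h1] at hlog
  have h2 : Real.log (dbound g b k j) = Real.log (ratio g b k) - g k * Real.log 2
      - j * Real.log 2 := by
    unfold dbound
    rw [Real.log_mul (by positivity) (by positivity), Real.log_mul (by positivity) (by positivity),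
      Real.log_inv, Real.log_inv, Real.log_pow, Real.log_pow]
    ring
  have h3 : Real.log (ratio g b k) ≤ -(2 * ∑ i ∈ Finset.range k, Real.log (b i)) := by
    unfold ratio
    rw [Real.log_prod (fun i _ => by have := hbp i; positivity), Finset.mul_sum,
      ← Finset.sum_neg_distrib]
    apply Finset.sum_le_sum
    intro i _
    rw [Real.log_inv]
    apply neg_le_neg
    rw [← Real.log_rpow (hbp i)]
    apply Real.log_le_log (Real.rpow_pos_of_pos (hbp i) _)
    have h4 : (1 : ℝ) ≤ 2 ^ (g i) := one_le_pow₀ (by norm_num)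
    rw [Real.rpow_two]
    calc (b i : ℝ) ^ 2 = 1 * ((b i : ℝ) * (b i + 0)) := by ring
      _ ≤ 2 ^ (g i) * ((b i : ℝ) * (b i + 1)) := by
        have := hbp i
        gcongr
        norm_num
  rw [h2] at hlog
  nlinarith

theorem exists_good {g : ℕ → ℕ} {be th de : ℝ} (hbe : 1 < be) (hg : ∀ k, be ^ k ≤ g k)
    (hde : 0 < de) (hdt : de < th) (hth1 : th < 1) (hr : 1 - th < be * (th - de))
    {b : ℕ → ℕ} (hb : ∀ j, 1 ≤ b j) (m : ℕ) :
    ∃ k, m ≤ k ∧ Good g b th de k (Nat.log 2 (b k)) := by
  by_contra hcon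
  push Not at hcon
  have hth : 0 < th := hde.trans hdt
  set S : ℕ → ℝ := fun k => ∑ i ∈ Finset.range k, Real.log (b i) with hS
  have hl2 : 0 < Real.log 2 := Real.log_pos (by norm_num)
  have hSnn : ∀ k, 0 ≤ S k := fun k => Finset.sum_nonneg fun i _ => Real.log_natCast_nonneg _
  have key : ∀ k, m ≤ k → (th - de) * S (k + 1) + (th * g k - (th - de)) * Real.log 2
      < (1 - th) * S k := by
    intro k hk
    have h1 := not_good_ineq hb hth (hcon k hk)
    have h2 : Real.log (b k) ≤ (Nat.log 2 (b k) + 1) * Real.log 2 := by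
      have h3 : (b k : ℝ) ≤ 2 ^ (Nat.log 2 (b k) + 1) := by
        exact_mod_cast (Nat.lt_pow_succ_log_self (by norm_num) (b k)).le
      have h4 : (0 : ℝ) < b k := by exact_mod_cast hb k
      have h5 := Real.log_le_log h4 h3
      rw [Real.log_pow] at h5
      exact_mod_cast h5
    have h6 : S (k + 1) = S k + Real.log (b k) := by
      simp only [hS]
      rw [Finset.sum_range_succ]
    rw [h6]
    have h7 : (th - de) * Real.log (b k) ≤ (th - de) * ((Nat.log 2 (b k) + 1) * Real.log 2) :=
      mul_le_mul_of_nonneg_left h2 (by linarith)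
    change th * (g k * Real.log 2) + (th - de) * (Nat.log 2 (b k) * Real.log 2) <
      (1 + de - 2 * th) * S k at h1
    nlinarith
  have hg1 : ∀ k, (1 : ℝ) ≤ g k := fun k => (one_le_pow₀ hbe.le).trans (hg k)
  set r : ℝ := (1 - th) / (th - de) with hrdef
  have hr0 : 0 ≤ r := div_nonneg (by linarith) (by linarith)
  have hrbe : r < be := by
    rw [hrdef, div_lt_iff₀ (by linarith)]
    exact hr
  have step : ∀ k, m ≤ k → S (k + 1) ≤ r * S k := by
    intro k hk
    have h1 := key k hk
    have h2 : 0 ≤ (th * g k - (th - de)) * Real.log 2 := by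
      apply mul_nonneg _ hl2.le
      nlinarith [hg1 k]
    rw [hrdef, div_mul_eq_mul_div, le_div_iff₀ (by linarith)]
    linarith
  have hgeo : ∀ i, S (m + i) ≤ r ^ i * S m := by
    intro i
    induction i with
    | zero => simp
    | succ i ih =>
      have h1 := step (m + i) (by omega)
      calc S (m + (i + 1)) ≤ r * S (m + i) := h1
        _ ≤ r * (r ^ i * S m) := mul_le_mul_of_nonneg_left ih hr0
        _ = r ^ (i + 1) * S m := by ring
  have hbig : ∀ i, th * (be ^ (m + i) - 1) * Real.log 2 ≤ (1 - th) * (r ^ i * S m) := by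
    intro i
    have h1 := key (m + i) (by omega)
    have h2 : 0 ≤ (th - de) * S (m + i + 1) := mul_nonneg (by linarith) (hSnn _)
    have h3 : (1 - th) * S (m + i) ≤ (1 - th) * (r ^ i * S m) :=
      mul_le_mul_of_nonneg_left (hgeo i) (by linarith)
    have h4 : th * (be ^ (m + i) - 1) * Real.log 2 ≤ (th * g (m + i) - (th - de)) * Real.log 2 := by
      apply mul_le_mul_of_nonneg_right _ hl2.le
      have := hg (m + i)
      nlinarith
    linarith
  have hbe0 : 0 < be := by linarith
  have hlim1 : Tendsto (fun i : ℕ => (1 - th) * S m * (r / be) ^ i) atTop (𝓝 ((1 - th) * S m * 0)) := by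
    apply Tendsto.const_mul
    apply tendsto_pow_atTop_nhds_zero_of_lt_one (div_nonneg hr0 hbe0.le)
    rw [div_lt_one hbe0]
    exact hrbe
  have hlim2 : Tendsto (fun i : ℕ => th * Real.log 2 * be ^ m - th * Real.log 2 * (1 / be) ^ i)
      atTop (𝓝 (th * Real.log 2 * be ^ m - th * Real.log 2 * 0)) := by
    apply Tendsto.sub tendsto_const_nhds
    apply Tendsto.const_mul
    apply tendsto_pow_atTop_nhds_zero_of_lt_one (by positivity)
    rw [div_lt_one hbe0]
    exact hbe
  have hle := le_of_tendsto_of_tendsto' hlim2 hlim1 (fun i => by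
    have h1 := hbig i
    have hbi : 0 < be ^ i := by positivity
    have h2 : th * Real.log 2 * be ^ m - th * Real.log 2 * (1 / be) ^ i
        = (th * (be ^ (m + i) - 1) * Real.log 2) / be ^ i := by
      rw [pow_add, one_div_pow]
      field_simp
    have h3 : (1 - th) * S m * (r / be) ^ i = ((1 - th) * (r ^ i * S m)) / be ^ i := by
      rw [div_pow]
      ring
    rw [h2, h3]
    exact div_le_div_of_nonneg_right h1 hbi.le)
  rw [mul_zero, mul_zero, sub_zero] at hle
  have : 0 < th * Real.log 2 * be ^ m := by positivity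
  linarith

theorem dimH_gap_le {g c : ℕ → ℕ} {z : ℕ → ℝ} {be : ℝ} (hbe : 1 < be) (hg : ∀ k, be ^ k ≤ g k)
    (hz : IsChain' g c z) (hc : ∀ k, 1 ≤ c k) (hct : Tendsto c atTop atTop) :
    dimH (asymptoticSet (z 0)) ≤ ENNReal.ofReal (1 / (1 + be)) := by
  by_contra hcon
  push Not at hcon
  obtain ⟨s, hs1, hs2⟩ := ENNReal.lt_iff_exists_nnreal_btwn.mp hcon
  have hz0 : z 0 ∈ Icc (0 : ℝ) 1 := ⟨(hz.mem 0).1.le, (hz.mem 0).2⟩
  have hs3 := hs2.trans_le (dimH_asymptoticSet_le hz0)
  have hs3' : s < (1 / 2 : ℝ≥0) := by exact_mod_cast hs3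
  have hs4 : (s : ℝ) < 1 / 2 := by exact_mod_cast hs3'
  have hs5 : 1 / (1 + be) < (s : ℝ) := by
    have := (ENNReal.ofReal_lt_iff_lt_toReal (by positivity) ENNReal.coe_ne_top).mp hs1
    simpa using this
  have hspos : 0 < (s : ℝ) := lt_trans (by positivity) hs5
  rw [div_lt_iff₀ (by linarith)] at hs5
  set th : ℝ := (s : ℝ) with hth
  set de : ℝ := (be * th - (1 - th)) / (2 * be) with hde
  have hde0 : 0 < de := by
    apply div_pos _ (by linarith)
    nlinarith
  have hbd : be * de = (be * th - (1 - th)) / 2 := by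
    rw [hde]
    field_simp
  have hdt : de < th := by
    by_contra h
    push Not at h
    nlinarith
  have hr : 1 - th < be * (th - de) := by
    rw [mul_sub, hbd]
    nlinarith
  obtain ⟨N, hN, hom⟩ := om_small hde0
  have h1 : dimH (asymptoticSet (z 0)) ≤ (s : ℝ≥0∞) := by
    refine (dimH_mono (asymptotic_subset_K hz hc hct N)).trans ?_
    rw [dimH_union, dimH_singleton, dimH_iUnion]
    refine max_le zero_le (iSup_le fun n => ?_)
    refine (dimH_iterate_preimage_le _ _).trans ?_
    apply dimH_le_of_hausdorffMeasure_ne_top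
    rw [KSet_zero hN hspos hde0 hom]
    · exact ENNReal.zero_ne_top
    · intro b hb m
      refine exists_good hbe (fun k => ?_) hde0 hdt (by linarith) hr (fun j => hN.trans (hb j)) m
      refine le_trans ?_ (hg (n + k))
      exact pow_le_pow_right₀ hbe.le (by omega)
  exact absurd hs2 (not_lt.mpr h1)

end Pool.Agent.Helper48.Luroth
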