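import Mathlib
import Pool.Agent.Helper48.LurothGap3

set_option autoImplicit false

open Filter Topology Set MeasureTheory
open scoped ENNReal NNReal

namespace Pool.Agent.Helper48.Luroth

/-- number of bits used before block `k` -/
def bits (h : ℕ → ℕ) (k : ℕ) : ℕ := ∑ i ∈ Finset.range k, h i

theorem bits_succ (h : ℕ → ℕ) (k : ℕ) : bits h (k + 1) = bits h k + h k := by
  simp [bits, Finset.sum_range_succ]

theorem le_bits {h : ℕ → ℕ} (hh : ∀ k, 1 ≤ h k) (k : ℕ) : k ≤ bits h k := by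
  induction k with
  | zero => simp
  | succ k ih => rw [bits_succ]; have := hh k; omega

/-- integer part of `2 ^ H_k u` -/
noncomputable def ip (h : ℕ → ℕ) (u : ℝ) (k : ℕ) : ℕ := ⌊(2 : ℝ) ^ (bits h k) * u⌋₊

/-- free digit number `k` coding `u` -/
noncomputable def fd (h : ℕ → ℕ) (u : ℝ) (k : ℕ) : ℕ := 2 ^ (h k) + ip h u (k + 1) % 2 ^ (h k)

theorem ip_succ_div (h : ℕ → ℕ) (u : ℝ) (k : ℕ) : ip h u (k + 1) / 2 ^ (h k) = ip h u k := by
  unfold ip
  have h1 := Nat.floor_div_natCast ((2 : ℝ) ^ (bits h (k + 1)) * u) (2 ^ (h k))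
  rw [← h1]
  congr 1
  push_cast
  rw [bits_succ, pow_add]
  field_simp

theorem ip_succ (h : ℕ → ℕ) (u : ℝ) (k : ℕ) :
    ip h u (k + 1) + 2 ^ (h k) = 2 ^ (h k) * ip h u k + fd h u k := by
  have h1 := Nat.div_add_mod (ip h u (k + 1)) (2 ^ (h k))
  rw [ip_succ_div] at h1
  unfold fd
  omega

theorem fd_ge (h : ℕ → ℕ) (u : ℝ) (k : ℕ) : 2 ^ (h k) ≤ fd h u k := by
  unfold fd; omega

theorem fd_lt (h : ℕ → ℕ) (u : ℝ) (k : ℕ) : fd h u k < 2 * 2 ^ (h k) := by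
  unfold fd
  have := Nat.mod_lt (ip h u (k + 1)) (show 0 < 2 ^ (h k) by positivity)
  omega

theorem fd_one_le (h : ℕ → ℕ) (u : ℝ) (k : ℕ) : 1 ≤ fd h u k :=
  Nat.one_le_two_pow.trans (fd_ge h u k)

theorem exists_split {h : ℕ → ℕ} (hh : ∀ k, 1 ≤ h k) {u v : ℝ} (hu : u ∈ Ico (0 : ℝ) 1)
    (hv : v ∈ Ico (0 : ℝ) 1) (huv : u ≠ v) :
    ∃ k, ip h u (k + 1) ≠ ip h v (k + 1) ∧ ∀ i ≤ k, ip h u i = ip h v i := by
  classical
  have hex : ∃ k, ip h u k ≠ ip h v k := by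
    by_contra hcon
    push Not at hcon
    have hd : 0 < |u - v| := abs_pos.mpr (sub_ne_zero.mpr huv)
    obtain ⟨n, hn⟩ := exists_nat_gt (1 / |u - v|)
    have h1 : (n : ℝ) ≤ 2 ^ (bits h n) := by
      have h2 : n < 2 ^ (bits h n) := (le_bits hh n).trans_lt Nat.lt_two_pow_self
      exact_mod_cast h2.le
    have h3 := hcon n
    unfold ip at h3
    have hu2 : 0 ≤ (2 : ℝ) ^ (bits h n) * u := mul_nonneg (by positivity) hu.1
    have hv2 : 0 ≤ (2 : ℝ) ^ (bits h n) * v := mul_nonneg (by positivity) hv.1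
    have a1 := Nat.floor_le hu2
    have a2 := Nat.floor_le hv2
    have a3 := Nat.lt_floor_add_one ((2 : ℝ) ^ (bits h n) * u)
    have a4 := Nat.lt_floor_add_one ((2 : ℝ) ^ (bits h n) * v)
    rw [h3] at a1 a3
    have h4 : |(2 : ℝ) ^ (bits h n) * u - 2 ^ (bits h n) * v| < 1 := by
      rw [abs_lt]; constructor <;> linarith
    rw [← mul_sub, abs_mul, abs_of_pos (show (0 : ℝ) < 2 ^ (bits h n) by positivity)] at h4
    rw [div_lt_iff₀ hd] at hn
    nlinarith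
  have h0 : ip h u 0 = ip h v 0 := by
    unfold ip bits
    simp only [Finset.range_zero, Finset.sum_empty, pow_zero, one_mul]
    rw [Nat.floor_eq_zero.mpr hu.2, Nat.floor_eq_zero.mpr hv.2]
  have hpos : Nat.find hex ≠ 0 := by
    intro h1
    have := Nat.find_spec hex
    rw [h1] at this
    exact this h0
  obtain ⟨k, hk⟩ := Nat.exists_eq_succ_of_ne_zero hpos
  refine ⟨k, ?_, ?_⟩
  · have := Nat.find_spec hex
    rwa [hk] at this
  · intro i hi
    have := Nat.find_min hex (m := i) (by omega)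
    push Not at this
    exact this

theorem fd_eq_of_ip {h : ℕ → ℕ} {u v : ℝ} {k : ℕ} (hi : ∀ i ≤ k, ip h u i = ip h v i) :
    ∀ i < k, fd h u i = fd h v i := by
  intro i hik
  unfold fd
  rw [hi (i + 1) (by omega)]

theorem dist_le {h : ℕ → ℕ} {u v : ℝ} (hu : u ∈ Ico (0 : ℝ) 1) (hv : v ∈ Ico (0 : ℝ) 1) {k : ℕ}
    (hne : ip h u (k + 1) ≠ ip h v (k + 1)) (heq : ip h u k = ip h v k) :
    (1 : ℝ) ≤ |(fd h u k : ℝ) - fd h v k| ∧
    |u - v| ≤ 2 * |(fd h u k : ℝ) - fd h v k| * (2 ^ (bits h (k + 1)))⁻¹ := by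
  have e1 := ip_succ h u k
  have e2 := ip_succ h v k
  have e1' : (ip h u (k + 1) : ℝ) + 2 ^ (h k) = 2 ^ (h k) * ip h u k + fd h u k := by
    exact_mod_cast e1
  have e2' : (ip h v (k + 1) : ℝ) + 2 ^ (h k) = 2 ^ (h k) * ip h v k + fd h v k := by
    exact_mod_cast e2
  rw [heq] at e1'
  have e3 : (fd h u k : ℝ) - fd h v k = (ip h u (k + 1) : ℝ) - ip h v (k + 1) := by linarith
  have hone : (1 : ℝ) ≤ |(fd h u k : ℝ) - fd h v k| := by
    rw [e3]
    have : (1 : ℤ) ≤ |(ip h u (k + 1) : ℤ) - ip h v (k + 1)| := by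
      apply Int.one_le_abs
      intro hc
      apply hne
      omega
    exact_mod_cast this
  refine ⟨hone, ?_⟩
  have hu2 : 0 ≤ (2 : ℝ) ^ (bits h (k + 1)) * u := mul_nonneg (by positivity) hu.1
  have hv2 : 0 ≤ (2 : ℝ) ^ (bits h (k + 1)) * v := mul_nonneg (by positivity) hv.1
  have a1 := Nat.floor_le hu2
  have a2 := Nat.floor_le hv2
  have a3 := Nat.lt_floor_add_one ((2 : ℝ) ^ (bits h (k + 1)) * u)
  have a4 := Nat.lt_floor_add_one ((2 : ℝ) ^ (bits h (k + 1)) * v)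
  change (ip h u (k + 1) : ℝ) ≤ _ at a1
  change (ip h v (k + 1) : ℝ) ≤ _ at a2
  change _ < (ip h u (k + 1) : ℝ) + 1 at a3
  change _ < (ip h v (k + 1) : ℝ) + 1 at a4
  have h5 : |(2 : ℝ) ^ (bits h (k + 1)) * u - 2 ^ (bits h (k + 1)) * v|
      ≤ 2 * |(fd h u k : ℝ) - fd h v k| := by
    have h6 : |(2 : ℝ) ^ (bits h (k + 1)) * u - 2 ^ (bits h (k + 1)) * v|
        ≤ |(ip h u (k + 1) : ℝ) - ip h v (k + 1)| + 1 := by
      rw [abs_le]
      have b1 := le_abs_self ((ip h u (k + 1) : ℝ) - ip h v (k + 1))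
      have b2 := neg_abs_le ((ip h u (k + 1) : ℝ) - ip h v (k + 1))
      constructor <;> linarith
    rw [← e3] at h6
    linarith
  rw [← mul_sub, abs_mul, abs_of_pos (show (0 : ℝ) < 2 ^ (bits h (k + 1)) by positivity)] at h5
  rw [← div_eq_mul_inv, le_div_iff₀ (by positivity)]
  linarith

theorem phi_gap {b b' M : ℕ} (hb : 1 ≤ b) (hbb : b < b') (hM : b' ≤ 2 * M) {z z' : ℝ}
    (hz : 1 / 2 ≤ z) (hz' : z' ≤ 1) :
    ((b' : ℝ) - b) / (8 * (M : ℝ) ^ 2) ≤ phi b z - phi b' z' := by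
  have hb1 : (1 : ℝ) ≤ b := by exact_mod_cast hb
  have hbb1 : (b : ℝ) + 1 ≤ b' := by exact_mod_cast hbb
  have hM1 : (b' : ℝ) ≤ 2 * M := by exact_mod_cast hM
  have hM0 : (0 : ℝ) < M := by linarith
  have h1 : 1 / ((b : ℝ) + 1) + 1 / (2 * ((b : ℝ) * (b + 1))) ≤ phi b z := by
    unfold phi
    have : 1 / ((b : ℝ) + 1) + 1 / (2 * ((b : ℝ) * (b + 1))) = (1 / 2 + b) / (b * (b + 1)) := by
      field_simp
      ring
    rw [this]
    apply div_le_div_of_nonneg_right _ (by positivity)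
    linarith
  have h2 : phi b' z' ≤ 1 / b' := by
    unfold phi
    have hb0 : (0 : ℝ) < b' := by linarith
    rw [div_le_div_iff₀ (by positivity) hb0]
    nlinarith
  have h3 : ((b' : ℝ) - b - 1) / (4 * (M : ℝ) ^ 2) ≤ 1 / ((b : ℝ) + 1) - 1 / b' := by
    have hb0 : (0 : ℝ) < b' := by linarith
    have : 1 / ((b : ℝ) + 1) - 1 / b' = ((b' : ℝ) - b - 1) / ((b + 1) * b') := by
      field_simp
      ring
    rw [this]
    apply div_le_div_of_nonneg_left (by linarith) (by positivity)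
    nlinarith
  have h4 : 1 / (8 * (M : ℝ) ^ 2) ≤ 1 / (2 * ((b : ℝ) * (b + 1))) := by
    apply one_div_le_one_div_of_le (by positivity)
    nlinarith
  have h5 : ((b' : ℝ) - b) / (8 * (M : ℝ) ^ 2)
      ≤ ((b' : ℝ) - b - 1) / (4 * (M : ℝ) ^ 2) + 1 / (8 * (M : ℝ) ^ 2) := by
    have : ((b' : ℝ) - b - 1) / (4 * (M : ℝ) ^ 2) + 1 / (8 * (M : ℝ) ^ 2)
        = (2 * ((b' : ℝ) - b - 1) + 1) / (8 * (M : ℝ) ^ 2) := by
      field_simp
      ring
    rw [this]
    apply div_le_div_of_nonneg_right _ (by positivity)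
    linarith
  linarith

theorem half_le_blk {g b : ℕ} (hg : 1 ≤ g) (hb : 1 ≤ b) {z : ℝ} (hz : z ∈ Ioc (0 : ℝ) 1) :
    1 / 2 ≤ blk g b z := by
  obtain ⟨g, rfl⟩ := Nat.exists_eq_add_of_le' hg
  rw [blk_succ, phi_one]
  have := (blk_mem (g := g) hb hz).1
  linarith

theorem ratio_ge {g b h : ℕ → ℕ} (hb : ∀ k, 1 ≤ b k) (hbh : ∀ k, b k < 2 * 2 ^ (h k)) (k : ℕ) :
    ((2 : ℝ) ^ ((∑ i ∈ Finset.range k, g i) + 2 * bits h k + 2 * k))⁻¹ ≤ ratio g b k := by
  induction k with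
  | zero => simp [ratio, bits]
  | succ k ih =>
    unfold ratio at ih ⊢
    rw [Finset.prod_range_succ]
    have h1 : (∑ i ∈ Finset.range (k + 1), g i) + 2 * bits h (k + 1) + 2 * (k + 1)
        = ((∑ i ∈ Finset.range k, g i) + 2 * bits h k + 2 * k) + (g k + ((h k + 1) + (h k + 1))) := by
      rw [Finset.sum_range_succ, bits_succ]
      ring
    rw [h1, pow_add, mul_inv]
    have hb1 : (1 : ℝ) ≤ b k := by exact_mod_cast hb k
    have hb2 : (b k : ℝ) + 1 ≤ 2 ^ (h k + 1) := by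
      have : b k + 1 ≤ 2 ^ (h k + 1) := by
        rw [pow_succ]
        have := hbh k
        omega
      exact_mod_cast this
    apply mul_le_mul ih _ (by positivity) _
    · apply inv_anti₀ (by positivity)
      rw [pow_add, pow_add]
      have : (b k : ℝ) ≤ 2 ^ (h k + 1) := by linarith
      gcongr
    · exact Finset.prod_nonneg fun i _ => by positivity

end Pool.Agent.Helper48.Luroth
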