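import Mathlib
import Pool.Agent.Helper48.LurothLower

set_option autoImplicit false

open Filter Topology Set MeasureTheory
open scoped ENNReal NNReal

namespace Pool.Agent.Helper48.Luroth

/-- exponent of the separation estimate -/
def ex (g h : ℕ → ℕ) (k : ℕ) : ℕ :=
  (∑ i ∈ Finset.range (k + 1), g i) + 2 * bits h (k + 1) + 2 * k + 3

theorem separation {g h b b' : ℕ → ℕ} {z z' : ℕ → ℝ} (hg : ∀ k, 1 ≤ g k)
    (hb : ∀ k, 2 ^ (h k) ≤ b k) (hb2 : ∀ k, b k < 2 * 2 ^ (h k))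
    (hb' : ∀ k, 2 ^ (h k) ≤ b' k) (hb2' : ∀ k, b' k < 2 * 2 ^ (h k))
    (hz : IsChain' g b z) (hz' : IsChain' g b' z') {k : ℕ} (heq : ∀ i < k, b i = b' i)
    (hlt : b k < b' k) :
    ((b' k : ℝ) - b k) * (2 ^ (ex g h k))⁻¹ ≤ |z 0 - z' 0| := by
  have hb1 : ∀ k, 1 ≤ b k := fun k => Nat.one_le_two_pow.trans (hb k)
  have hb1' : ∀ k, 1 ≤ b' k := fun k => Nat.one_le_two_pow.trans (hb' k)
  rw [chain_sub hz hz' hb1 k heq, abs_mul, abs_of_pos (ratio_pos hb1 k)]
  have h1 := ratio_ge (g := g) hb1 hb2 k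
  have h2 : ((b' k : ℝ) - b k) / (8 * (((2 ^ (h k) : ℕ) : ℝ)) ^ 2) ≤
      phi (b k) (z (k + 1)) - phi (b' k) (z' (k + 1)) := by
    apply phi_gap (hb1 k) hlt (hb2' k).le
    · rw [hz.eq (k + 1)]
      exact half_le_blk (hg _) (hb1 _) (hz.mem _)
    · exact (hz'.mem _).2
  have h3 : z k - z' k = (phi (b k) (z (k + 1)) - phi (b' k) (z' (k + 1))) / 2 ^ (g k) := by
    rw [hz.eq k, hz'.eq k]
    unfold blk
    ring
  have hbk : (0 : ℝ) ≤ (b' k : ℝ) - b k := by
    have : (b k : ℝ) ≤ b' k := by exact_mod_cast hlt.le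
    linarith
  have h4 : ((b' k : ℝ) - b k) / (8 * (((2 ^ (h k) : ℕ) : ℝ)) ^ 2) / 2 ^ (g k) ≤ |z k - z' k| := by
    rw [h3]
    refine le_trans ?_ (le_abs_self _)
    exact div_le_div_of_nonneg_right h2 (by positivity)
  set A := (∑ i ∈ Finset.range k, g i) + 2 * bits h k + 2 * k with hA
  have hex : ex g h k = A + (3 + (h k * 2) + g k) := by
    rw [hA]
    unfold ex
    rw [Finset.sum_range_succ, bits_succ]
    ring
  clear_value A
  calc ((b' k : ℝ) - b k) * (2 ^ (ex g h k))⁻¹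
      = ((2 : ℝ) ^ A)⁻¹ *
        (((b' k : ℝ) - b k) / (8 * (((2 ^ (h k) : ℕ) : ℝ)) ^ 2) / 2 ^ (g k)) := by
        rw [hex, pow_add, pow_add, pow_add, pow_mul]
        push_cast
        have e8 : (2 : ℝ) ^ 3 = 8 := by norm_num
        rw [e8]
        field_simp
    _ ≤ ratio g b k * |z k - z' k| := by
        apply mul_le_mul h1 h4 (by positivity) (ratio_pos hb1 k).le

theorem holder_real {g h : ℕ → ℕ} {th c : ℝ} (hth0 : 0 < th) (hth1 : th ≤ 1)
    (hyp : ∀ k, 1 + (1 - th) * h k - bits h (k + 1) + th * ex g h k ≤ c) {k : ℕ} {De : ℝ}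
    (hDe1 : 1 ≤ De) (hDe2 : De ≤ 2 ^ (h k)) {x y : ℝ}
    (hx : x ≤ 2 * De * (2 ^ (bits h (k + 1)))⁻¹) (hy : De * (2 ^ (ex g h k))⁻¹ ≤ y) :
    x ≤ 2 ^ c * y ^ th := by
  have hDe0 : 0 < De := by linarith
  have h1 : (De * (2 ^ (ex g h k))⁻¹) ^ th ≤ y ^ th :=
    Real.rpow_le_rpow (by positivity) hy hth0.le
  have h2 : (De * (2 ^ (ex g h k))⁻¹) ^ th = De ^ th * (2 : ℝ) ^ (-(th * ex g h k)) := by
    rw [Real.mul_rpow hDe0.le (by positivity), Real.inv_rpow (by positivity),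
      ← Real.rpow_natCast, ← Real.rpow_mul (by norm_num), ← Real.rpow_neg (by norm_num)]
    congr 2
    ring
  have h3 : 2 * De * (2 ^ (bits h (k + 1)))⁻¹
      = De ^ th * (De ^ (1 - th) * (2 : ℝ) ^ ((1 : ℝ) - bits h (k + 1))) := by
    rw [← mul_assoc, ← Real.rpow_add hDe0, Real.rpow_sub (by norm_num), Real.rpow_one,
      Real.rpow_natCast]
    have : th + (1 - th) = 1 := by ring
    rw [this, Real.rpow_one]
    field_simp
  have h4 : De ^ (1 - th) ≤ (2 : ℝ) ^ ((1 - th) * h k) := by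
    have : (2 : ℝ) ^ ((1 - th) * h k) = ((2 : ℝ) ^ (h k)) ^ (1 - th) := by
      rw [← Real.rpow_natCast, ← Real.rpow_mul (by norm_num), mul_comm]
    rw [this]
    exact Real.rpow_le_rpow hDe0.le hDe2 (by linarith)
  calc x ≤ 2 * De * (2 ^ (bits h (k + 1)))⁻¹ := hx
    _ = De ^ th * (De ^ (1 - th) * (2 : ℝ) ^ ((1 : ℝ) - bits h (k + 1))) := h3
    _ ≤ De ^ th * ((2 : ℝ) ^ ((1 - th) * h k) * (2 : ℝ) ^ ((1 : ℝ) - bits h (k + 1))) := by
        gcongr
    _ = De ^ th * (2 : ℝ) ^ ((1 - th) * h k + (1 - bits h (k + 1))) := by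
        rw [← Real.rpow_add (by norm_num)]
    _ ≤ De ^ th * (2 : ℝ) ^ (c + (-(th * ex g h k))) := by
        have := hyp k
        exact mul_le_mul_of_nonneg_left
          (Real.rpow_le_rpow_of_exponent_le (by norm_num) (by linarith)) (by positivity)
    _ = 2 ^ c * (De ^ th * (2 : ℝ) ^ (-(th * ex g h k))) := by
        rw [Real.rpow_add (by norm_num)]
        ring
    _ = 2 ^ c * (De * (2 ^ (ex g h k))⁻¹) ^ th := by rw [h2]
    _ ≤ 2 ^ c * y ^ th := by gcongr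

theorem dimH_ge {g h c : ℕ → ℕ} {z : ℕ → ℝ} {th cc : ℝ} (hth0 : 0 < th) (hth1 : th ≤ 1)
    (hg : ∀ k, 1 ≤ g k) (hh : ∀ k, 1 ≤ h k) (hht : Tendsto h atTop atTop)
    (hz : IsChain' g c z) (hc : ∀ k, 1 ≤ c k) (hct : Tendsto c atTop atTop)
    (hyp : ∀ k, 1 + (1 - th) * h k - bits h (k + 1) + th * ex g h k ≤ cc) :
    ENNReal.ofReal th ≤ dimH (asymptoticSet (z 0)) := by
  choose ch hch using fun u : ℝ => exists_chain g (fd h u) (fd_one_le h u)
  set psi : ℝ → ℝ := fun u => ch u 0 with hpsi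
  have hinc : ∀ u, psi u ∈ asymptoticSet (z 0) := by
    intro u
    refine chain_asymptotic hz (hch u) hc (fd_one_le h u) hct ?_
    refine tendsto_atTop_mono (fun k => ?_) hht
    exact (Nat.lt_two_pow_self.le).trans (fd_ge h u k)
  have hineq : ∀ u ∈ Ico (0 : ℝ) 1, ∀ v ∈ Ico (0 : ℝ) 1,
      |u - v| ≤ 2 ^ cc * |psi u - psi v| ^ th := by
    intro u hu v hv
    by_cases huv : u = v
    · rw [huv]
      simp [hth0.ne']
    obtain ⟨k, hk1, hk2⟩ := exists_split hh hu hv huv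
    obtain ⟨d1, d2⟩ := dist_le hu hv hk1 (hk2 k le_rfl)
    have hfd := fd_eq_of_ip hk2
    have hbu := fd_ge h u
    have hbv := fd_ge h v
    have hbu2 := fd_lt h u
    have hbv2 := fd_lt h v
    have hDe2 : |(fd h u k : ℝ) - fd h v k| ≤ 2 ^ (h k) := by
      have a1 : ((2 ^ (h k) : ℕ) : ℝ) ≤ fd h u k := by exact_mod_cast hbu k
      have a2 : ((2 ^ (h k) : ℕ) : ℝ) ≤ fd h v k := by exact_mod_cast hbv k
      have a3 : (fd h u k : ℝ) < 2 * ((2 ^ (h k) : ℕ) : ℝ) := by exact_mod_cast hbu2 k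
      have a4 : (fd h v k : ℝ) < 2 * ((2 ^ (h k) : ℕ) : ℝ) := by exact_mod_cast hbv2 k
      push_cast at a1 a2 a3 a4
      rw [abs_le]
      constructor <;> linarith
    have hsep : |(fd h u k : ℝ) - fd h v k| * (2 ^ (ex g h k))⁻¹ ≤ |psi u - psi v| := by
      rcases lt_trichotomy (fd h u k) (fd h v k) with hlt | heq | hgt
      · have := separation hg hbu hbu2 hbv hbv2 (hch u) (hch v) hfd hlt
        have hle : (fd h u k : ℝ) ≤ fd h v k := by exact_mod_cast hlt.le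
        rw [abs_sub_comm (fd h u k : ℝ), abs_of_nonneg (by linarith)]
        exact this
      · exfalso
        rw [heq, sub_self, abs_zero] at d1
        linarith
      · have := separation hg hbv hbv2 hbu hbu2 (hch v) (hch u) (fun i hi => (hfd i hi).symm) hgt
        have hle : (fd h v k : ℝ) ≤ fd h u k := by exact_mod_cast hgt.le
        rw [abs_of_nonneg (by linarith), abs_sub_comm (psi u)]
        exact this
    exact holder_real hth0 hth1 hyp d1 hDe2 d2 hsep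
  have hinj : InjOn psi (Ico (0 : ℝ) 1) := by
    intro u hu v hv huv
    have := hineq u hu v hv
    rw [huv, sub_self, abs_zero, Real.zero_rpow hth0.ne', mul_zero] at this
    have h1 := abs_nonneg (u - v)
    have h2 : |u - v| = 0 := le_antisymm this h1
    exact sub_eq_zero.mp (abs_eq_zero.mp h2)
  set f := Function.invFunOn psi (Ico (0 : ℝ) 1) with hf
  have hfl : ∀ u ∈ Ico (0 : ℝ) 1, f (psi u) = u := fun u hu => hinj.leftInvOn_invFunOn hu
  have hholder : HolderOnWith (Real.toNNReal (2 ^ cc)) (Real.toNNReal th) f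
      (psi '' Ico (0 : ℝ) 1) := by
    rintro _ ⟨u, hu, rfl⟩ _ ⟨v, hv, rfl⟩
    rw [hfl u hu, hfl v hv, edist_dist, edist_dist, Real.dist_eq, Real.dist_eq,
      Real.coe_toNNReal _ hth0.le, ENNReal.ofReal_rpow_of_nonneg (abs_nonneg _) hth0.le]
    change ENNReal.ofReal |u - v| ≤ ENNReal.ofReal (2 ^ cc) * ENNReal.ofReal _
    rw [← ENNReal.ofReal_mul (by positivity)]
    exact ENNReal.ofReal_le_ofReal (hineq u hu v hv)
  have himg : f '' (psi '' Ico (0 : ℝ) 1) = Ico (0 : ℝ) 1 := by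
    rw [← image_comp]
    ext u
    constructor
    · rintro ⟨v, hv, rfl⟩
      simp only [Function.comp_apply]
      rw [hfl v hv]
      exact hv
    · intro hu
      exact ⟨u, hu, hfl u hu⟩
  have hdim := hholder.dimH_image_le (Real.toNNReal_pos.mpr hth0)
  rw [himg] at hdim
  have h1 : dimH (Ico (0 : ℝ) 1) = 1 := by
    rw [Real.dimH_of_nonempty_interior]
    · simp
    · rw [interior_Ico]
      exact nonempty_Ioo.mpr one_pos
  rw [h1] at hdim
  have h2 : dimH (psi '' Ico (0 : ℝ) 1) ≤ dimH (asymptoticSet (z 0)) := by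
    apply dimH_mono
    rintro _ ⟨u, -, rfl⟩
    exact hinc u
  refine le_trans ?_ h2
  have h3 : (Real.toNNReal th : ℝ≥0∞) ≠ 0 := by
    rw [ne_eq, ENNReal.coe_eq_zero]
    exact (Real.toNNReal_pos.mpr hth0).ne'
  rw [ENNReal.le_div_iff_mul_le (Or.inl h3) (Or.inl ENNReal.coe_ne_top), one_mul] at hdim
  exact hdim

end Pool.Agent.Helper48.Luroth
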