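import Mathlib
import Pool.Agent.Helper48.LurothLower2

set_option autoImplicit false

open Filter Topology Set MeasureTheory
open scoped ENNReal NNReal

namespace Pool.Agent.Helper48.Luroth

theorem exists_params {be th : ℝ} (hbe : 1 ≤ be) (hth0 : 0 < th) (hth : th * (1 + be) < 1) :
    ∃ (h : ℕ → ℕ) (c : ℝ), (∀ k, 1 ≤ h k) ∧ Tendsto h atTop atTop ∧
      ∀ k, 1 + (1 - th) * h k - bits h (k + 1) +
        th * ex (fun k => ⌈be ^ k⌉₊) h k ≤ c := by
  set A : ℝ := th * (be + 4) / (1 - th * (1 + be)) with hA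
  have hden : 0 < 1 - th * (1 + be) := by linarith
  have hApos : 0 < A := by positivity
  have hAeq : (1 - th * (1 + be)) * A = th * (be + 4) := by
    rw [hA]; field_simp
  set h : ℕ → ℕ := fun k => ⌈A * be ^ k⌉₊ + k + 1 with hh
  refine ⟨h, 1 + th * (A + 7), fun k => by simp only [hh]; omega, ?_, ?_⟩
  · exact tendsto_atTop_mono (fun k => by simp only [hh, id]; omega) tendsto_id
  · intro k
    set B : ℝ := ∑ i ∈ Finset.range k, be ^ i with hB
    have hgeom : be ^ k = 1 + (be - 1) * B := by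
      have := mul_geom_sum be k
      rw [← hB] at this
      linarith
    have hkB : (k : ℝ) ≤ B := by
      have h1 : ∑ i ∈ Finset.range k, (1 : ℝ) ≤ B :=
        Finset.sum_le_sum fun i _ => one_le_pow₀ hbe
      simpa using h1
    have hG : ((∑ i ∈ Finset.range (k + 1), ⌈be ^ i⌉₊ : ℕ) : ℝ) ≤ be * B + k + 2 := by
      push_cast
      have h1 : ∑ i ∈ Finset.range (k + 1), (⌈be ^ i⌉₊ : ℝ)
          ≤ ∑ i ∈ Finset.range (k + 1), (be ^ i + 1) :=
        Finset.sum_le_sum fun i _ => (Nat.ceil_lt_add_one (by positivity)).le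
      have h2 : ∑ i ∈ Finset.range (k + 1), (be ^ i + 1) = B + be ^ k + (k + 1) := by
        rw [Finset.sum_add_distrib, Finset.sum_range_succ]
        simp [hB]
      rw [h2, hgeom] at h1
      linarith
    have hhk : (h k : ℝ) ≤ A + A * (be - 1) * B + k + 2 := by
      simp only [hh]
      push_cast
      have h1 := (Nat.ceil_lt_add_one (show 0 ≤ A * be ^ k by positivity)).le
      have h2 : A * be ^ k = A + A * (be - 1) * B := by rw [hgeom]; ring
      linarith
    have hH : A * B ≤ (bits h k : ℝ) := by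
      unfold bits
      push_cast
      rw [hB, Finset.mul_sum]
      apply Finset.sum_le_sum
      intro i _
      simp only [hh]
      push_cast
      have := Nat.le_ceil (A * be ^ i)
      have h2 : (0 : ℝ) ≤ i := by positivity
      linarith
    have hex : (ex (fun k => ⌈be ^ k⌉₊) h k : ℝ) =
        ((∑ i ∈ Finset.range (k + 1), ⌈be ^ i⌉₊ : ℕ) : ℝ) + 2 * bits h (k + 1) + 2 * k + 3 := by
      unfold ex
      push_cast
      ring
    have hb1 : (bits h (k + 1) : ℝ) = bits h k + h k := by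
      rw [bits_succ]; push_cast; rfl
    rw [hex, hb1]
    have h2th : 0 ≤ 1 - 2 * th := by nlinarith
    have hB0 : 0 ≤ B := le_trans (by positivity) hkB
    have k1 : (1 - 2 * th) * (A * B) ≤ (1 - 2 * th) * bits h k :=
      mul_le_mul_of_nonneg_left hH h2th
    have k2 : th * ((∑ i ∈ Finset.range (k + 1), ⌈be ^ i⌉₊ : ℕ) : ℝ) ≤ th * (be * B + k + 2) :=
      mul_le_mul_of_nonneg_left hG hth0.le
    have k3 : th * (h k : ℝ) ≤ th * (A + A * (be - 1) * B + k + 2) :=
      mul_le_mul_of_nonneg_left hhk hth0.le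
    have k4 : th * (k : ℝ) ≤ th * B := mul_le_mul_of_nonneg_left hkB hth0.le
    have k5 : (1 - th * (1 + be)) * A * B = th * (be + 4) * B := by rw [hAeq]
    nlinarith

theorem dimH_fixed_one : dimH (asymptoticSet 1) = 0 := by
  have hone : (1 : ℝ) ∈ Ioc (0 : ℝ) 1 := ⟨one_pos, le_rfl⟩
  have hd1 : dig 1 = 1 := by simp [dig]
  have hL : luroth 1 = 1 := by
    rw [luroth_of_ne one_ne_zero, hd1]; norm_num
  have hit : ∀ n, luroth^[n] 1 = 1 := by
    intro n
    induction n with
    | zero => simp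
    | succ n ih => rw [Function.iterate_succ_apply', ih, hL]
  have hsub : asymptoticSet 1 ⊆ {0} ∪ ⋃ n : ℕ,
      {y | y ∈ Ioc (0 : ℝ) 1 ∧ luroth^[n] y ∈ ({1} : Set ℝ)} := by
    rintro y ⟨hy, hlim⟩
    rcases hy.1.eq_or_lt with h0 | h0
    · left; exact h0.symm
    right
    have hy' : y ∈ Ioc (0 : ℝ) 1 := ⟨h0, hy.2⟩
    obtain ⟨n, hn⟩ := eventually_atTop.mp (char_forward hone hy' hlim 2)
    rw [mem_iUnion]
    refine ⟨n, hy', ?_⟩
    rw [mem_singleton_iff]
    have hall : ∀ k, dig (luroth^[k] (luroth^[n] y)) = 1 := by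
      intro k
      rw [← Function.iterate_add_apply]
      rcases hn (k + n) (by omega) with h | h
      · rw [h, hit, hd1]
      · exfalso
        have := h.1
        rw [hit, hd1] at this
        omega
    have hw := iterate_mem hy' n
    set w := luroth^[n] y with hwdef
    apply le_antisymm hw.2
    by_contra hcon
    push Not at hcon
    obtain ⟨k, hk⟩ := exists_pow_lt_of_lt_one (show 0 < 1 - w by linarith)
      (show (1 / 2 : ℝ) < 1 by norm_num)
    have h1 := eq_blk k hw (fun i _ => hall i)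
    have h2 : blk k (dig (luroth^[k] w)) (luroth^[k + 1] w) ≥ 1 - (1 / 2) ^ k := by
      have h3 := phi_mem (b := dig (luroth^[k] w)) (dig_pos (iterate_mem hw k))
        (iterate_mem hw (k + 1))
      unfold blk
      have h4 : (1 - phi (dig (luroth^[k] w)) (luroth^[k + 1] w)) / 2 ^ k ≤ 1 / 2 ^ k := by
        apply div_le_div_of_nonneg_right _ (by positivity)
        linarith [h3.1]
      rw [one_div_pow]
      linarith
    rw [← h1] at h2
    linarith
  apply le_antisymm _ zero_le
  refine (dimH_mono hsub).trans ?_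
  rw [dimH_union, dimH_singleton, dimH_iUnion]
  refine max_le le_rfl (iSup_le fun n => ?_)
  refine (dimH_iterate_preimage_le _ n).trans ?_
  rw [dimH_singleton]

theorem exists_dim {s : ℝ} (hs0 : 0 < s) (hs : s ≤ 1 / 2) :
    ∃ x ∈ Icc (0 : ℝ) 1, dimH (asymptoticSet x) = ENNReal.ofReal s := by
  set be : ℝ := 1 / s - 1 with hbedef
  have hbe : 1 ≤ be := by
    rw [hbedef, le_sub_iff_add_le, le_div_iff₀ hs0]
    linarith
  have hsb : s * (1 + be) = 1 := by
    rw [hbedef]; field_simp; ring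
  set g : ℕ → ℕ := fun k => ⌈be ^ k⌉₊ with hg
  have hgbe : ∀ k, be ^ k ≤ g k := fun k => Nat.le_ceil _
  have hg1 : ∀ k, 1 ≤ g k := fun k => by
    have : (1 : ℝ) ≤ g k := (one_le_pow₀ hbe).trans (hgbe k)
    exact_mod_cast this
  obtain ⟨z, hz⟩ := exists_chain g (fun k => k + 1) (fun k => by omega)
  have hct : Tendsto (fun k : ℕ => k + 1) atTop atTop := tendsto_add_atTop_nat 1
  have hz0 : z 0 ∈ Icc (0 : ℝ) 1 := ⟨(hz.mem 0).1.le, (hz.mem 0).2⟩
  refine ⟨z 0, hz0, le_antisymm ?_ ?_⟩
  · rcases hbe.eq_or_lt with h | h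
    · have hs' : s = 1 / 2 := by rw [← h] at hsb; linarith
      refine (dimH_asymptoticSet_le hz0).trans (le_of_eq ?_)
      rw [hs', ENNReal.ofReal, ENNReal.coe_inj]
      apply NNReal.eq
      rw [Real.coe_toNNReal _ (by norm_num)]
      simp
    · refine (dimH_gap_le h hgbe hz (fun k => by omega) hct).trans (le_of_eq ?_)
      congr 1
      rw [div_eq_iff (by linarith)]
      exact hsb.symm
  · apply le_of_forall_lt
    intro d hd
    obtain ⟨t, ht1, ht2⟩ := ENNReal.lt_iff_exists_nnreal_btwn.mp hd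
    refine ht1.trans_le ?_
    by_cases ht0 : t = 0
    · rw [ht0]; simp
    have htpos : 0 < (t : ℝ) := by
      have : 0 < t := pos_iff_ne_zero.mpr ht0
      exact_mod_cast this
    have hts : (t : ℝ) < s := by
      have := (ENNReal.lt_ofReal_iff_toReal_lt ENNReal.coe_ne_top).mp ht2
      simpa using this
    have hth : (t : ℝ) * (1 + be) < 1 :=
      (mul_lt_mul_of_pos_right hts (by linarith)).trans_eq hsb
    obtain ⟨h, c, hh1, hht, hyp⟩ := exists_params hbe htpos hth
    have := dimH_ge htpos (by nlinarith) hg1 hh1 hht hz (fun k => by omega) hct hyp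
    rwa [ENNReal.ofReal_coe_nnreal] at this

end Pool.Agent.Helper48.Luroth
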